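import Pool.Agent.N20.EW.Stm5
import Pool.Agent.Y286.NV.Fin
import Pool.Agent.Y171.NV.Kfin
import Pool.Agent.Y63.KR.Basic

/-!
# The Knörr–Robinson conjecture and automorphisms: from sums over all chains to classes of pairs
(helper492)
-/

set_option autoImplicit false
set_option linter.unusedSectionVars false

open scoped Classical BigOperators

noncomputable section

namespace N492.EKORB

open Pool.Agent.N20.EW
open Pool.Agent.Y63.NV
open Pool.Agent.Y63.KR
open Pool.Agent.Y63.AWC (IsIrreducibleCharacter pSubgroupSetoid)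

section

variable {p : ℕ} {F : Type} [Field F] {red : integralClosure ℤ ℂ →+* F} {G : Type} [Group G]
  {B : (G → F) → F}

/-- the image of a pair is unique -/
theorem uniq {β : MulAut G} {s s' s'' : CPr p red B} (h : MapC β s s') (h' : MapC β s s'') :
    s' = s'' := by
  obtain ⟨⟨σ, ψ⟩, hs⟩ := s'
  obtain ⟨⟨σ', ψ'⟩, hs'⟩ := s''
  have h1 : σ = σ' := h.1.trans h'.1.symm
  subst h1
  have h2 : ψ = ψ' := by
    funext y
    have hy : (β.symm (y : G) : G) ∈ chainStabilizer s.chn := by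
      rw [← cs_aut β, β.apply_symm_apply, ← h.1]
      exact y.2
    exact (h.2 ⟨_, hy⟩ y (β.apply_symm_apply _).symm).symm.symm.trans
      (h'.2 ⟨_, hy⟩ y (β.apply_symm_apply _).symm).symm
  subst h2
  rfl

/-- the isomorphism of the stabilisers -/
def stE (g : G) (σ : Set (Subgroup G)) :
    chainStabilizer (conjSub g '' σ) ≃* chainStabilizer σ where
  toFun y := ⟨g⁻¹ * y * g, mem_conjSub.1 ((chainStabilizer_conj σ g).le y.2)⟩
  invFun x := ⟨g * x * g⁻¹, by
    rw [chainStabilizer_conj]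
    exact conj_mem_conjSub x.2⟩
  left_inv y := by
    refine Subtype.ext ?_
    show g * (g⁻¹ * y * g) * g⁻¹ = y
    group
  right_inv x := by
    refine Subtype.ext ?_
    show g⁻¹ * (g * x * g⁻¹) * g = x
    group
  map_mul' y z := by
    refine Subtype.ext ?_
    show g⁻¹ * (y * z) * g = (g⁻¹ * y * g) * (g⁻¹ * z * g)
    group

theorem exi1 [Finite G] (g : G) {σ : Set (Subgroup G)} {ψ : chainStabilizer σ → ℂ}
    (h : IsIrreducibleCharacter ψ) :
    IsIrreducibleCharacter (fun y => ψ (stE g σ y)) := Pool.Agent.Y63.AWC.irr_comp (stE g σ) h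

theorem exi2 [Finite G] (g : G) {σ : Set (Subgroup G)} {ψ : chainStabilizer σ → ℂ}
    (h : IsIrreducibleCharacter ψ) (f : G → F) (hf : IsClassFun f) :
    centralValue red (fun y => ψ (stE g σ y)) (fun x => f x) =
      centralValue red ψ (fun x => f x) := by
  have h1 := Pool.Agent.Y286.NV.centralValue_comp red (stE g σ) ψ
    (Pool.Agent.Y286.NV.irr_class h) (fun x => f x) (fun a x => hf a x)
  have h2 : (fun y : chainStabilizer (conjSub g '' σ) => f (y : G)) =
      fun y => f (stE g σ y : G) := by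
    funext y
    have h3 := hf g⁻¹ y
    rw [inv_inv] at h3
    exact h3.symm
  rw [h2]
  exact h1

theorem exi3 [Finite G] (g : G) {σ : Set (Subgroup G)} {ψ : chainStabilizer σ → ℂ}
    (h : IsCP p red B σ ψ) : IsCP p red B (conjSub g '' σ) (fun y => ψ (stE g σ y)) :=
  ⟨h.1.conj g, exi1 g h.2.1, fun f hf => (exi2 g h.2.1 f hf).trans (h.2.2 f hf)⟩

/-- a pair from its members -/
def mkp {σ : Set (Subgroup G)} {ψ : chainStabilizer σ → ℂ} (h : IsCP p red B σ ψ) :
    CPr p red B := ⟨⟨σ, ψ⟩, h⟩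

theorem mkp_chn {σ : Set (Subgroup G)} {ψ : chainStabilizer σ → ℂ} (h : IsCP p red B σ ψ) :
    (mkp h).chn = σ := rfl

theorem mkp_chr {σ : Set (Subgroup G)} {ψ : chainStabilizer σ → ℂ} (h : IsCP p red B σ ψ)
    (y : chainStabilizer σ) : (mkp h).chr y = ψ y := rfl

theorem stE_eq (g : G) (σ : Set (Subgroup G)) (x : chainStabilizer σ)
    (y : chainStabilizer (conjSub g '' σ)) (hxy : (y : G) = MulAut.conj g x) : stE g σ y = x := by
  refine Subtype.ext ?_
  have h1 : ((stE g σ y : chainStabilizer σ) : G) = g⁻¹ * (y : G) * g := rfl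
  rw [h1, hxy, MulAut.conj_apply]
  group

theorem exi4 (g : G) (s : CPr p red B) {ψ' : chainStabilizer (conjSub g '' s.chn) → ℂ}
    (h : IsCP p red B (conjSub g '' s.chn) ψ') (hψ : ∀ y, ψ' y = s.chr (stE g s.chn y)) :
    MapC (MulAut.conj g) s (mkp h) := by
  refine ⟨mkp_chn h, fun x y hxy => ?_⟩
  refine (mkp_chr h y).trans ((hψ y).trans ?_)
  exact congrArg s.chr (stE_eq g s.chn x y hxy)

theorem exi [Finite G] (g : G) (s : CPr p red B) : ∃ s', MapC (MulAut.conj g) s s' :=
  ⟨_, exi4 g s (exi3 g s.2) fun _ => rfl⟩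

/-- conjugation of pairs -/
@[reducible] def act [Finite G] : MulAction G (CPr p red B) where
  smul g s := (exi g s).choose
  one_smul s := uniq (exi 1 s).choose_spec (by
    rw [map_one]
    exact MapC.one s)
  mul_smul g h s := uniq (exi (g * h) s).choose_spec (by
    rw [map_mul]
    exact (exi h s).choose_spec.mul (exi g (exi h s).choose).choose_spec)

theorem fix_chain [Finite G] {β : MulAut G} {σ : Set (Subgroup G)} (hσ : IsChain (· ≤ ·) σ)
    (h : σ = (fun P : Subgroup G => P.map β.toMonoidHom) '' σ) :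
    ∀ P ∈ σ, P.map β.toMonoidHom = P := by
  intro P hP
  have h1 : P.map β.toMonoidHom ∈ σ := by
    rw [h]
    exact ⟨P, hP, rfl⟩
  have h2 : Nat.card (P.map β.toMonoidHom) = Nat.card P :=
    Nat.card_congr (P.equivMapOfInjective β.toMonoidHom β.injective).toEquiv.symm
  rcases hσ.total h1 hP with h3 | h3
  · exact Subgroup.eq_of_le_of_card_ge h3 h2.ge
  · exact (Subgroup.eq_of_le_of_card_ge h3 h2.le).symm

theorem map_mm (g : G) (α : MulAut G) (P : Subgroup G) :
    P.map (MulAut.conj g * α).toMonoidHom = conjSub g (P.map α.toMonoidHom) := by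
  unfold conjSub
  rw [Subgroup.map_map]
  rfl

theorem image_fix {φ : Subgroup G → Subgroup G} {σ : Set (Subgroup G)} (h : ∀ P ∈ σ, φ P = P) :
    σ = φ '' σ := by
  ext P
  constructor
  · intro hP
    exact ⟨P, hP, h P hP⟩
  · rintro ⟨Q, hQ, rfl⟩
    rw [h Q hQ]
    exact hQ

theorem fixC_iff [Finite G] (α : MulAut G) (s : CPr p red B) :
    FixC α s.chn s.chr ↔ ∃ g : G, MapC (MulAut.conj g * α) s s := by
  constructor
  · rintro ⟨g, h1, h2⟩
    refine ⟨g, image_fix fun P hP => ?_, fun x y hxy => h2 x y hxy⟩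
    rw [map_mm]
    exact h1 P hP
  · rintro ⟨g, h1, h2⟩
    refine ⟨g, fun P hP => ?_, fun x y hxy => h2 x y hxy⟩
    rw [← map_mm]
    exact fix_chain s.2.1.chain h1 P hP

theorem stab_iff [Finite G] (g : G) (s : CPr p red B) :
    MapC (MulAut.conj g) s s ↔ g ∈ chainStabilizer s.chn := by
  rw [mem_chainStabilizer]
  constructor
  · intro h
    exact fix_chain s.2.1.chain h.1
  · intro h
    refine ⟨image_fix h, fun x y hxy => ?_⟩
    have hg : g ∈ chainStabilizer s.chn := mem_chainStabilizer.2 h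
    refine (Pool.Agent.Y286.NV.irr_class s.2.2.1 x y (isConj_iff.2 ⟨⟨g, hg⟩, ?_⟩)).symm
    refine Subtype.ext ?_
    rw [hxy]
    rfl

theorem smul_iff [Finite G] (g : G) (s s' : CPr p red B) :
    act.toSMul.smul g s = s' ↔ MapC (MulAut.conj g) s s' := by
  constructor
  · rintro rfl
    exact (exi g s).choose_spec
  · intro h
    exact uniq (exi g s).choose_spec h

theorem card_stab [Finite G] (s : CPr p red B) :
    Nat.card (@MulAction.stabilizer G (CPr p red B) _ act s) =
      Nat.card (chainStabilizer s.chn) := by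
  have h : @MulAction.stabilizer G (CPr p red B) _ act s = chainStabilizer s.chn := by
    ext g
    rw [← stab_iff, ← smul_iff]
    exact Iff.rfl
  rw [h]

/-- the weight of a pair -/
def wgt (α : MulAut G) (s : CPr p red B) : ℤ :=
  if ∃ g : G, MapC (MulAut.conj g * α) s s then (-1) ^ s.chn.ncard else 0

theorem ncard_eq {h : G} {s s' : CPr p red B} (hh : MapC (MulAut.conj h) s s') :
    s'.chn.ncard = s.chn.ncard := by
  rw [hh.1]
  exact ncard_conj s.chn h

theorem fix_of {h : G} {α : MulAut G} {s s' : CPr p red B} (hh : MapC (MulAut.conj h) s s')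
    (h1 : ∃ g : G, MapC (MulAut.conj g * α) s s) : ∃ g : G, MapC (MulAut.conj g * α) s' s' := by
  obtain ⟨g, hg⟩ := h1
  refine ⟨h * g * α h⁻¹, ?_⟩
  have h2 := (hh.inv.mul hg).mul hh
  have h3 : MulAut.conj h * (MulAut.conj g * α * (MulAut.conj h)⁻¹) =
      MulAut.conj (h * g * α h⁻¹) * α := by
    ext x
    rw [← map_inv]
    show h * (g * α (h⁻¹ * x * h⁻¹⁻¹) * g⁻¹) * h⁻¹ =
      (h * g * α h⁻¹) * α x * (h * g * α h⁻¹)⁻¹
    simp only [map_mul, map_inv, inv_inv, mul_inv_rev, mul_assoc]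
  rw [h3] at h2
  exact h2

theorem wgt_inv (α : MulAut G) (s s' : CPr p red B) (h : (cpSetoid p red B).r s s') :
    wgt α s = wgt α s' := by
  obtain ⟨g, hg⟩ := h
  obtain ⟨g', hg'⟩ := (cpSetoid p red B).iseqv.symm (⟨g, hg⟩ : (cpSetoid p red B).r s s')
  unfold wgt
  have h1 : (∃ g : G, MapC (MulAut.conj g * α) s s) ↔ ∃ g : G, MapC (MulAut.conj g * α) s' s' :=
    ⟨fix_of hg, fix_of hg'⟩
  rw [ncard_eq hg]
  simp only [h1]

/-! ### the sums -/

/-- the characters belonging to a chain -/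
abbrev Ch (red : integralClosure ℤ ℂ →+* F) (B : (G → F) → F) (σ : Set (Subgroup G)) : Type :=
  {ψ : chainStabilizer σ → ℂ // IsIrreducibleCharacter ψ ∧
    ∀ f : G → F, IsClassFun f → centralValue red ψ (fun x => f x) = B f}

theorem fin_Ch [Finite G] (σ : Set (Subgroup G)) : Finite (Ch red B σ) := by
  have hX := Pool.Agent.Y171.NV.irr_fin (chainStabilizer σ)
  exact Finite.of_injective (fun χ : Ch red B σ =>
    (⟨χ.1, χ.2.1⟩ : {χ : chainStabilizer σ → ℂ // IsIrreducibleCharacter χ}))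
    (fun a b h => Subtype.ext (congrArg (fun t => t.1) h))

/-- pairs as a sigma type -/
def pE : (Σ σ : {σ : Set (Subgroup G) // IsPChain p σ}, Ch red B σ.1) ≃ CPr p red B where
  toFun s := ⟨⟨s.1.1, s.2.1⟩, s.1.2, s.2.2.1, s.2.2.2⟩
  invFun s := ⟨⟨s.1.1, s.2.1⟩, ⟨s.1.2, s.2.2.1, s.2.2.2⟩⟩
  left_inv _ := rfl
  right_inv _ := rfl

theorem card_ite {X : Type} [Fintype X] (P : X → Prop) :
    (Nat.card {x // P x} : ℤ) = ∑ x, if P x then (1 : ℤ) else 0 := by
  rw [Finset.sum_boole, Nat.card_eq_fintype_card, Fintype.card_subtype]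

end

theorem ORB : S_ORB := by
  intro p _ F _ red G _ _ α B
  have _i0 : Fintype {σ : Set (Subgroup G) // IsPChain p σ} := Fintype.ofFinite _
  have hf := fun σ : {σ : Set (Subgroup G) // IsPChain p σ} => fin_Ch (red := red) (B := B) σ.1
  have _i1 : ∀ σ : {σ : Set (Subgroup G) // IsPChain p σ}, Fintype (Ch red B σ.1) :=
    fun σ => Fintype.ofFinite _
  have _i2 : Fintype (CPr p red B) := Fintype.ofEquiv _ pE
  have _i3 : Fintype (CCl p red B) := by
    have : Finite (Quotient (cpSetoid p red B)) := inferInstance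
    exact @Fintype.ofFinite _ this
  have key := @orbit_sum G (CPr p red B) _ _ _ act (cpSetoid p red B) (fun s s' => by
    show (∃ g : G, MapC (MulAut.conj g) s s') ↔ _
    refine exists_congr fun g => ?_
    exact (smul_iff g s s').symm) (wgt α) (wgt_inv α)
  have hR : ∑ᶠ c : Quotient (cpSetoid p red B), wgt α c.out =
      (Nat.card {C : CCl p red B // Even C.len ∧ ImgK α C C} : ℤ) -
        Nat.card {C : CCl p red B // ¬ Even C.len ∧ ImgK α C C} := by
    have e5 := card_ite (X := CCl p red B) fun C => Even C.len ∧ ImgK α C C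
    have e6 := card_ite (X := CCl p red B) fun C => ¬ Even C.len ∧ ImgK α C C
    rw [e5, e6, ← Finset.sum_sub_distrib]
    have h1 : ∑ᶠ c : Quotient (cpSetoid p red B), wgt α c.out =
        ∑ᶠ c : CCl p red B, wgt α c.rp := rfl
    rw [h1, finsum_eq_sum_of_fintype]
    refine Finset.sum_congr rfl fun C _ => ?_
    unfold wgt
    have h2 : (∃ g : G, MapC (MulAut.conj g * α) C.rp C.rp) = ImgK α C C := rfl
    rw [h2]
    have h3 : C.rp.chn.ncard = C.len := rfl
    rw [h3]
    by_cases h4 : ImgK α C C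
    · by_cases h5 : Even C.len
      · simp [h4, h5]
      · simp [h4, h5, (Nat.not_even_iff_odd.1 h5).neg_one_pow]
    · simp [h4]
  have hL : ∑ᶠ σ : {σ : Set (Subgroup G) // IsPChain p σ}, (-1 : ℤ) ^ σ.1.ncard *
      ((Nat.card (chainStabilizer σ.1) : ℤ) *
        Nat.card {ψ : chainStabilizer σ.1 → ℂ // IsIrreducibleCharacter ψ ∧
          (∀ f : G → F, IsClassFun f → centralValue red ψ (fun x => f x) = B f) ∧
          FixC α σ.1 ψ}) = ∑ s : CPr p red B,
      (Nat.card (@MulAction.stabilizer G (CPr p red B) _ act s) : ℤ) * wgt α s := by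
    rw [finsum_eq_sum_of_fintype, ← Equiv.sum_comp pE, Fintype.sum_sigma]
    refine Finset.sum_congr rfl fun σ _ => ?_
    have e1 : Nat.card {ψ : chainStabilizer σ.1 → ℂ // IsIrreducibleCharacter ψ ∧
          (∀ f : G → F, IsClassFun f → centralValue red ψ (fun x => f x) = B f) ∧
          FixC α σ.1 ψ} = Nat.card {ψ : Ch red B σ.1 // FixC α σ.1 ψ.1} :=
      Nat.card_congr
        { toFun := fun ψ => ⟨⟨ψ.1, ψ.2.1, ψ.2.2.1⟩, ψ.2.2.2⟩
          invFun := fun ψ => ⟨ψ.1.1, ψ.1.2.1, ψ.1.2.2, ψ.2⟩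
          left_inv := fun ψ => rfl
          right_inv := fun ψ => rfl }
    have e4 := card_ite (X := Ch red B σ.1) fun ψ => FixC α σ.1 ψ.1
    rw [e1, e4, Finset.mul_sum, Finset.mul_sum]
    refine Finset.sum_congr rfl fun ψ _ => ?_
    rw [card_stab]
    have e2 : (pE ⟨σ, ψ⟩ : CPr p red B).chn = σ.1 := rfl
    have e3 := fixC_iff α (pE ⟨σ, ψ⟩ : CPr p red B)
    unfold wgt
    rw [← e3]
    show (-1 : ℤ) ^ σ.1.ncard * ((Nat.card (chainStabilizer σ.1) : ℤ) *
      if FixC α σ.1 ψ.1 then 1 else 0) = (Nat.card (chainStabilizer σ.1) : ℤ) *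
        if FixC α σ.1 ψ.1 then (-1) ^ σ.1.ncard else 0
    by_cases h4 : FixC α σ.1 ψ.1
    · rw [if_pos h4, if_pos h4]
      ring
    · rw [if_neg h4, if_neg h4]
      ring
  rw [hL, ← key, hR]

end N492.EKORB
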