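import Pool.Agent.N208.LC.Stm2

set_option autoImplicit false
set_option linter.unusedSectionVars false

/-!
# Project LC (helper208), part AP1: the complexified algebras (helper492)
-/

open Module Matrix TensorProduct

noncomputable section

namespace Pool.Agent.N492.LCAP1

open Pool.Agent.Y102 Pool.Agent.W516.DR Pool.Agent.H204R3.GP Pool.Agent.W516.KC
  Pool.Agent.H204R3.SP Pool.Agent.TH119.MX Pool.Agent.R917 Pool.Agent.N208.AM Pool.Agent.N208.AD
  Pool.Agent.N208.BT Pool.Agent.N208.LC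

section Sem

variable {V : Type} [AddCommGroup V] [Module ℂ V] [FiniteDimensional ℂ V]

/-- An algebra of operators with a nondegenerate trace form is semisimple. -/
theorem compl_of_trace (R : Subalgebra ℂ (Module.End ℂ V))
    (h : ∀ x ∈ R, (∀ y ∈ R, LinearMap.trace ℂ V (x * y) = 0) → x = 0)
    (U : Submodule ℂ V) (hU : ∀ X ∈ R, ∀ u ∈ U, X u ∈ U) :
    ∃ U' : Submodule ℂ V, (∀ X ∈ R, ∀ u ∈ U', X u ∈ U') ∧ IsCompl U U' := by
  have hart : IsArtinianRing R := isArtinian_of_tower ℂ inferInstance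
  have hJ : Ring.jacobson R = ⊥ := by
    rw [eq_bot_iff]
    intro x hx
    obtain ⟨n, hn⟩ := IsSemiprimaryRing.isNilpotent (R := R)
    rw [Submodule.mem_bot]
    refine Subtype.ext (h x.1 x.2 fun y hy => ?_)
    have h1 : x * (⟨y, hy⟩ : R) ∈ Ring.jacobson R := Ideal.mul_mem_right _ _ hx
    have h2 : (x * (⟨y, hy⟩ : R)) ^ n = 0 := by
      have h3 := Ideal.pow_mem_pow h1 n
      rw [hn] at h3
      exact h3
    have h4 : IsNilpotent (x.1 * y) := ⟨n, by
      have h5 := congrArg (Subtype.val) h2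
      exact h5⟩
    exact (LinearMap.isNilpotent_trace_of_isNilpotent h4).eq_zero
  have hss : IsSemisimpleRing R := IsArtinianRing.isSemisimpleRing_iff_jacobson.2 hJ
  have hsm : ∀ (r : R) (v : V), r • v = r.1 v := fun r v => rfl
  let M : Submodule R V :=
    { carrier := U
      zero_mem' := U.zero_mem
      add_mem' := fun {a b} ha hb => U.add_mem ha hb
      smul_mem' := fun r v hv => hU r.1 r.2 v hv }
  obtain ⟨M', hM'⟩ := exists_isCompl M
  let U' : Submodule ℂ V :=
    { carrier := M'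
      zero_mem' := M'.zero_mem
      add_mem' := fun {a b} ha hb => M'.add_mem ha hb
      smul_mem' := fun c v hv => by
        have h1 := M'.smul_mem (algebraMap ℂ R c) hv
        have h2 : (algebraMap ℂ R c) • v = c • v := by
          rw [hsm]
          rfl
        rw [← h2]
        exact h1 }
  refine ⟨U', fun X hX u hu => M'.smul_mem (⟨X, hX⟩ : R) hu, ?_⟩
  rw [isCompl_iff, disjoint_iff, codisjoint_iff, eq_bot_iff, eq_top_iff]
  constructor
  · rintro v ⟨hv, hv'⟩
    have h1 : v ∈ M ⊓ M' := ⟨hv, hv'⟩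
    rw [hM'.inf_eq_bot, Submodule.mem_bot] at h1
    rw [h1]
    exact Submodule.zero_mem _
  · intro v _
    have h1 : v ∈ M ⊔ M' := by rw [hM'.sup_eq_top]; exact Submodule.mem_top
    obtain ⟨a, ha, b, hb, rfl⟩ := Submodule.mem_sup.1 h1
    exact Submodule.add_mem _ (Submodule.mem_sup_left ha) (Submodule.mem_sup_right hb)

end Sem

section Fld

variable {W : Type} [AddCommGroup W] [Module ℚ W] [FiniteDimensional ℚ W]

/-- The combinations with the coefficients from the field. -/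
def mapF (z : Module.End ℚ W) {k : ℕ} (b : Fin k → Module.End ℚ W) :
    (Fin k → Algebra.adjoin ℚ {z}) →ₗ[ℚ] Module.End ℚ W where
  toFun c := ∑ j, (c j).1 * b j
  map_add' c d := by
    rw [← Finset.sum_add_distrib]
    exact Finset.sum_congr rfl fun j _ => add_mul _ _ _
  map_smul' r c := by
    rw [RingHom.id_apply, Finset.smul_sum]
    exact Finset.sum_congr rfl fun j _ => smul_mul_assoc _ _ _

theorem mapF_apply (z : Module.End ℚ W) {k : ℕ} (b : Fin k → Module.End ℚ W)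
    (c : Fin k → Algebra.adjoin ℚ {z}) : mapF z b c = ∑ j, (c j).1 * b j := rfl

theorem mem_adj {z : Module.End ℚ W} {X : Module.End ℚ W} (hX : X ∈ Algebra.adjoin ℚ {z}) :
    ∃ q : Polynomial ℚ, X = Polynomial.aeval z q := by
  rw [Algebra.adjoin_singleton_eq_range_aeval] at hX
  obtain ⟨q, hq⟩ := hX
  exact ⟨q, hq.symm⟩

/-- Generators of a space of operators over a field of operators. -/
theorem exists_gens (z : Module.End ℚ W) (hz : z ≠ 0)
    (hfield : ∀ q : Polynomial ℚ, Polynomial.aeval z q ≠ 0 →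
      Function.Injective (Polynomial.aeval z q))
    (C : Submodule ℚ (Module.End ℚ W))
    (hC : ∀ q : Polynomial ℚ, ∀ X ∈ C, Polynomial.aeval z q * X ∈ C) (n : ℕ)
    (hdeg : finrank ℚ C = n * finrank ℚ (Algebra.adjoin ℚ {z})) :
    ∃ b : Fin n → Module.End ℚ W, (∀ j, b j ∈ C) ∧ ∀ X ∈ C, ∃ q : Fin n → Polynomial ℚ,
      X = ∑ j, Polynomial.aeval z (q j) * b j := by
  have hinv : ∀ a : Algebra.adjoin ℚ {z}, a ≠ 0 → ∃ b : Algebra.adjoin ℚ {z}, b * a = 1 := by
    intro a ha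
    have hinj : Function.Injective (LinearMap.mulRight ℚ a) := by
      rw [injective_iff_map_eq_zero]
      intro b hb
      obtain ⟨p, hp⟩ := mem_adj a.2
      obtain ⟨q, hq⟩ := mem_adj b.2
      have h1 := hfield p (by rw [← hp]; exact fun h => ha (Subtype.ext h))
      have h2 : b.1 * a.1 = 0 := congrArg Subtype.val hb
      have h4 : a.1 * b.1 = 0 := by
        rw [hp, hq] at h2 ⊢
        rw [← map_mul, mul_comm, map_mul, h2]
      refine Subtype.ext (LinearMap.ext fun v => ?_)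
      apply h1
      rw [← hp]
      have h3 := LinearMap.congr_fun h4 v
      rw [Module.End.mul_apply, LinearMap.zero_apply] at h3
      rw [h3]
      exact (map_zero _).symm
    obtain ⟨b, hb⟩ := (LinearMap.injective_iff_surjective.1 hinj) 1
    exact ⟨b, hb⟩
  have hd : 0 < finrank ℚ (Algebra.adjoin ℚ {z}) := by
    rw [Module.finrank_pos_iff_exists_ne_zero]
    exact ⟨⟨z, Algebra.self_mem_adjoin_singleton ℚ z⟩, fun h => hz (congrArg Subtype.val h)⟩
  have hrange : ∀ {k : ℕ} (b : Fin k → Module.End ℚ W), (∀ j, b j ∈ C) →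
      LinearMap.range (mapF z b) ≤ C := by
    rintro k b hb _ ⟨c, rfl⟩
    rw [mapF_apply]
    refine Submodule.sum_mem _ fun j _ => ?_
    obtain ⟨q, hq⟩ := mem_adj (c j).2
    rw [hq]
    exact hC q _ (hb j)
  have hcard : ∀ {k : ℕ} (b : Fin k → Module.End ℚ W), Function.Injective (mapF z b) →
      finrank ℚ (LinearMap.range (mapF z b)) = k * finrank ℚ (Algebra.adjoin ℚ {z}) := by
    intro k b hb
    rw [LinearMap.finrank_range_of_inj hb, Module.finrank_pi_fintype, Finset.sum_const,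
      Finset.card_univ, Fintype.card_fin, smul_eq_mul]
  obtain ⟨k, ⟨b, hb, hbi⟩, hk⟩ : ∃ k : ℕ, (∃ b : Fin k → Module.End ℚ W, (∀ j, b j ∈ C) ∧
      Function.Injective (mapF z b)) ∧ ¬ (∃ b : Fin (k + 1) → Module.End ℚ W, (∀ j, b j ∈ C) ∧
      Function.Injective (mapF z b)) := by
    by_contra hne
    push Not at hne
    have hall : ∀ k : ℕ, ∃ b : Fin k → Module.End ℚ W, (∀ j, b j ∈ C) ∧
        Function.Injective (mapF z b) := by
      intro k
      induction k with
      | zero =>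
        exact ⟨fun j => j.elim0, fun j => j.elim0, fun c d _ => funext fun j => j.elim0⟩
      | succ k ih => exact hne k ih
    obtain ⟨b, hb, hbi⟩ := hall (finrank ℚ C + 1)
    have h1 := Submodule.finrank_mono (hrange b hb)
    rw [hcard b hbi] at h1
    nlinarith
  have hsurj : ∀ X ∈ C, ∃ c, mapF z b c = X := by
    intro X hX
    by_contra hne
    push Not at hne
    refine hk ⟨Fin.cons X b, ?_, ?_⟩
    · intro j
      refine Fin.cases ?_ (fun i => ?_) j
      · exact hX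
      · exact hb i
    · rw [injective_iff_map_eq_zero]
      intro c hc
      rw [mapF_apply, Fin.sum_univ_succ, Fin.cons_zero] at hc
      simp only [Fin.cons_succ] at hc
      have hc0 : c 0 = 0 := by
        by_contra h0
        obtain ⟨a, ha⟩ := hinv _ h0
        have ha' : a.1 * (c 0).1 = 1 := congrArg Subtype.val ha
        apply hne (fun j => -(a * c j.succ))
        rw [mapF_apply]
        have h1 : ∀ j : Fin k, ((-(a * c j.succ) : Algebra.adjoin ℚ {z})).1 * b j =
            -(a.1 * ((c j.succ).1 * b j)) := by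
          intro j
          change (-(a.1 * (c j.succ).1)) * b j = _
          rw [neg_mul, mul_assoc]
        rw [Finset.sum_congr rfl fun j _ => h1 j, Finset.sum_neg_distrib, ← Finset.mul_sum]
        have h2 : a.1 * ((c 0).1 * X) + a.1 * ∑ j : Fin k, (c j.succ).1 * b j = 0 := by
          rw [← mul_add, hc, mul_zero]
        rw [← mul_assoc, ha', one_mul] at h2
        exact (eq_neg_of_add_eq_zero_left h2).symm
      rw [hc0] at hc
      have hc' : mapF z b (fun j => c j.succ) = 0 := by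
        rw [mapF_apply]
        have h1 : ((0 : Algebra.adjoin ℚ {z}) : Module.End ℚ W) * X = 0 := zero_mul X
        rwa [h1, zero_add] at hc
      have h2 := (injective_iff_map_eq_zero _).1 hbi _ hc'
      funext j
      refine Fin.cases hc0 (fun i => ?_) j
      exact congrFun h2 i
  have hkn : k = n := by
    have h1 : LinearMap.range (mapF z b) = C := le_antisymm (hrange b hb) hsurj
    have h2 := hcard b hbi
    rw [h1, hdeg] at h2
    exact (Nat.eq_of_mul_eq_mul_right hd h2).symm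
  subst hkn
  refine ⟨b, hb, fun X hX => ?_⟩
  obtain ⟨c, hc⟩ := hsurj X hX
  choose q hq using fun j => mem_adj (c j).2
  refine ⟨q, ?_⟩
  rw [← hc, mapF_apply]
  exact Finset.sum_congr rfl fun j _ => by rw [← hq j]

end Fld
section Gen

variable {W : Type} [AddCommGroup W] [Module ℚ W] [FiniteDimensional ℚ W]

/-- The commutants and the complexifications. -/
theorem cx_commutant {S C : Submodule ℚ (Module.End ℚ W)}
    (hC : ∀ X, X ∈ C ↔ ∀ P ∈ S, X * P = P * X) (X : Module.End ℂ (ℂ ⊗[ℚ] W)) :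
    X ∈ cx C ↔ ∀ Q ∈ cx S, X * Q = Q * X := by
  constructor
  · intro hX Q hQ
    refine cx_comm (S := S) (T := X) (fun P hP => ?_) Q hQ
    exact (cx_comm (S := C) (T := P.baseChange ℂ) (fun Y hY => by
      rw [← bc_mul, ← bc_mul, (hC Y).1 hY P hP]) X hX).symm
  · intro h
    refine end_mem_span (fun P => P ∈ C) X fun lam => ?_
    refine (hC _).2 fun P hP => ?_
    exact comm_cmp (h _ (bc_mem hP)) lam

theorem bc_one : (1 : Module.End ℚ W).baseChange ℂ = (1 : Module.End ℂ (ℂ ⊗[ℚ] W)) :=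
  LinearMap.baseChange_id (R := ℚ) (A := ℂ) (M := W)

theorem cmpE_bc (lam : ℂ →ₗ[ℚ] ℚ) (X : Module.End ℚ W) :
    cmpE lam (X.baseChange ℂ) = lam 1 • X := by
  refine LinearMap.ext fun w => ?_
  rw [cmpE_apply, LinearMap.baseChange_tmul, cmp_tmul, LinearMap.smul_apply]

theorem bc_inj {X Y : Module.End ℚ W} (h : X.baseChange ℂ = Y.baseChange ℂ) : X = Y := by
  obtain ⟨lam, hlam⟩ := exists_lam
  have h1 := congrArg (cmpE lam) h
  rwa [cmpE_bc, cmpE_bc, hlam, one_smul, one_smul] at h1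

/-- Products of complexifications. -/
theorem cx_mul {S T U : Submodule ℚ (Module.End ℚ W)} (h : ∀ X ∈ S, ∀ Y ∈ T, X * Y ∈ U) :
    ∀ X ∈ cx S, ∀ Y ∈ cx T, X * Y ∈ cx U := by
  intro X hX Y hY
  induction hX using Submodule.span_induction with
  | mem X hX =>
    obtain ⟨P, hP, rfl⟩ := hX
    induction hY using Submodule.span_induction with
    | mem Y hY =>
      obtain ⟨Q, hQ, rfl⟩ := hY
      have h1 : (P * Q).baseChange ℂ ∈ cx U := bc_mem (h P hP Q hQ)
      rwa [bc_mul] at h1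
    | zero => rw [mul_zero]; exact Submodule.zero_mem _
    | add a b _ _ ha hb => rw [mul_add]; exact Submodule.add_mem _ ha hb
    | smul c a _ ha => rw [mul_smul_comm]; exact Submodule.smul_mem _ c ha
  | zero => rw [zero_mul]; exact Submodule.zero_mem _
  | add a b _ _ ha hb => rw [add_mul]; exact Submodule.add_mem _ ha hb
  | smul c a _ ha => rw [smul_mul_assoc]; exact Submodule.smul_mem _ c ha

end Gen

variable {g : ℕ} {A : AbVar g}

theorem CB_one : (1 : Module.End ℚ A.H1) ∈ CB A := fun P _ => by rw [one_mul, mul_one]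

theorem CB_mul {X Y : Module.End ℚ A.H1} (hX : X ∈ CB A) (hY : Y ∈ CB A) : X * Y ∈ CB A :=
  fun P hP => by rw [mul_assoc, hY P hP, ← mul_assoc, hX P hP, mul_assoc]

theorem LA_le_CB : A.LA ≤ CB A := fun X hX _ hP => hP X hX

theorem mem_EA_iff (P : Module.End ℚ A.H1) : P ∈ A.EA ↔ ∀ X ∈ CB A, P * X = X * P :=
  ⟨fun hP _ hX => (hX P hP).symm, fun h X hX => (h X (LA_le_CB hX)).symm⟩

theorem om_one (u v : A.H1) : LinearMap.BilinForm.baseChange ℂ A.om ((1 : ℂ) ⊗ₜ[ℚ] u)
    ((1 : ℂ) ⊗ₜ[ℚ] v) = algebraMap ℚ ℂ (A.om u v) := by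
  rw [LinearMap.BilinForm.baseChange_tmul]
  simp

/-- The adjoint. -/
theorem CB_adj {X : Module.End ℚ A.H1} (hX : X ∈ CB A) :
    ∃ X' ∈ CB A, ∀ u v, A.om (X u) v = A.om u (X' v) := by
  obtain ⟨X', h⟩ := A.exists_adj X
  refine ⟨X', fun P hP => ?_, h⟩
  obtain ⟨P', hP', h'⟩ := A.endAlg.adj P hP
  refine LinearMap.ext fun v => ?_
  rw [← sub_eq_zero]
  apply A.om_nondeg
  intro u
  have e1 : A.om u (X' (P v)) = A.om (X u) (P v) := (h u (P v)).symm
  have e2 : A.om (X u) (P v) = A.om (P' (X u)) v := by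
    rw [A.om_anti (X u), h' v (X u), A.om_anti v, neg_neg]
  have e3 : P' (X u) = X (P' u) := (LinearMap.congr_fun (hX P' hP') u).symm
  have e4 : A.om (X (P' u)) v = A.om (P' u) (X' v) := h _ _
  have e5 : A.om (P' u) (X' v) = A.om u (P (X' v)) := by
    rw [A.om_anti (P' u), ← h' (X' v) u, A.om_anti u]
  rw [A.om_anti, map_sub, Module.End.mul_apply, Module.End.mul_apply, e1, e2, e3, e4, e5, sub_self,
    neg_zero]

section Om

variable (ω : (ℂ ⊗[ℚ] A.H1) →ₗ[ℂ] (ℂ ⊗[ℚ] A.H1) →ₗ[ℂ] ℂ)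
  (hω : ∀ u v : A.H1, ω ((1 : ℂ) ⊗ₜ[ℚ] u) ((1 : ℂ) ⊗ₜ[ℚ] v) = algebraMap ℚ ℂ (A.om u v))

include hω

theorem cx_adj : ∀ X ∈ cx (CB A), ∃ X' ∈ cx (CB A), ∀ u v, ω (X u) v = ω u (X' v) := by
  intro X hX
  induction hX using Submodule.span_induction with
  | mem X hX =>
    obtain ⟨P, hP, rfl⟩ := hX
    obtain ⟨P', hP', h⟩ := CB_adj hP
    refine ⟨P'.baseChange ℂ, bc_mem hP', ?_⟩
    have h1 : ω.comp (P.baseChange ℂ) = ω.compl₂ (P'.baseChange ℂ) := by
      apply bilin_ext
      intro u v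
      rw [LinearMap.comp_apply, LinearMap.compl₂_apply,
        LinearMap.baseChange_tmul, LinearMap.baseChange_tmul, hω, hω, h]
    intro u v
    exact congrArg (fun B : (ℂ ⊗[ℚ] A.H1) →ₗ[ℂ] (ℂ ⊗[ℚ] A.H1) →ₗ[ℂ] ℂ => B u v) h1
  | zero => exact ⟨0, Submodule.zero_mem _, fun u v => by simp⟩
  | add a b _ _ ha hb =>
    obtain ⟨a', ha', h1⟩ := ha
    obtain ⟨b', hb', h2⟩ := hb
    exact ⟨a' + b', Submodule.add_mem _ ha' hb', fun u v => by
      rw [LinearMap.add_apply, LinearMap.add_apply, map_add, map_add, LinearMap.add_apply, h1, h2]⟩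
  | smul c a _ ha =>
    obtain ⟨a', ha', h1⟩ := ha
    exact ⟨c • a', Submodule.smul_mem _ c ha', fun u v => by
      rw [LinearMap.smul_apply, LinearMap.smul_apply, map_smul, map_smul, LinearMap.smul_apply,
        h1]⟩

theorem cx_alt (u v : ℂ ⊗[ℚ] A.H1) : ω u v = -ω v u := by
  have h1 : ω = -ω.flip := by
    apply bilin_ext
    intro u v
    rw [LinearMap.neg_apply, LinearMap.neg_apply, LinearMap.flip_apply, hω, hω,
      A.om_anti u v, map_neg]
  exact congrArg (fun B : (ℂ ⊗[ℚ] A.H1) →ₗ[ℂ] (ℂ ⊗[ℚ] A.H1) →ₗ[ℂ] ℂ => B u v) h1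

end Om

theorem cx_nondeg (u : ℂ ⊗[ℚ] A.H1)
    (h : ∀ v, LinearMap.BilinForm.baseChange ℂ A.om u v = 0) : u = 0 :=
  nondeg_ext A.om (LinearMap.BilinForm.baseChange ℂ A.om) om_one (fun _ hu => A.om_nondeg hu) u h

theorem cx_skew {z : Module.End ℚ A.H1} (hz : IsSkew A.om z) (u v : ℂ ⊗[ℚ] A.H1) :
    LinearMap.BilinForm.baseChange ℂ A.om (z.baseChange ℂ u) v =
      -LinearMap.BilinForm.baseChange ℂ A.om u (z.baseChange ℂ v) :=
  eq_neg_of_add_eq_zero_left
    (skew_ext A.om (LinearMap.BilinForm.baseChange ℂ A.om) om_one hz u v)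

variable {z : Module.End ℚ A.H1} {N : ℕ}

theorem z_inj (h : HF A z N) : Function.Injective z := by
  have h1 := h.field Polynomial.X
  rw [Polynomial.aeval_X] at h1
  exact h1 h.ne

theorem bc_injective (h : HF A z N) : Function.Injective (z.baseChange ℂ) := by
  obtain ⟨f, hf⟩ := LinearMap.exists_leftInverse_of_injective z (LinearMap.ker_eq_bot.2 (z_inj h))
  have h1 : f.baseChange ℂ ∘ₗ z.baseChange ℂ = LinearMap.id := by
    rw [← LinearMap.baseChange_comp, hf, LinearMap.baseChange_id]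
  intro u v huv
  have h2 := congrArg (f.baseChange ℂ) huv
  rwa [← LinearMap.comp_apply, ← LinearMap.comp_apply, h1] at h2

theorem z_CB (h : HF A z N) : z ∈ CB A := h.cen

theorem cx_cen (h : HF A z N) (Q : Module.End ℂ (ℂ ⊗[ℚ] A.H1)) (hQ : Q ∈ cx A.EA)
    (hQ' : Q ∈ cx (CB A)) : ∃ q : Polynomial ℂ, Q = Polynomial.aeval (z.baseChange ℂ) q := by
  have h1 : Q ∈ cx (A.EA ⊓ CB A) :=
    end_mem_span (fun P => P ∈ A.EA ⊓ CB A) Q fun lam => ⟨cmp_of_ext _ hQ lam, cmp_of_ext _ hQ' lam⟩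
  clear hQ hQ'
  induction h1 using Submodule.span_induction with
  | mem X hX =>
    obtain ⟨P, hP, rfl⟩ := hX
    obtain ⟨q, hq⟩ := h.gen P hP.1 hP.2
    refine ⟨q.map (algebraMap ℚ ℂ), ?_⟩
    rw [Polynomial.aeval_map_algebraMap, aeval_baseChange, hq]
  | zero => exact ⟨0, by rw [map_zero]⟩
  | add a b _ _ ha hb =>
    obtain ⟨p, rfl⟩ := ha
    obtain ⟨q, rfl⟩ := hb
    exact ⟨p + q, by rw [map_add]⟩
  | smul c a _ ha =>
    obtain ⟨p, rfl⟩ := ha
    exact ⟨c • p, by rw [map_smul]⟩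

/-! ### The trace form -/

theorem NA_le_CB : A.NA ≤ CB A := fun _ hX _ hP => A.NA_comm hX hP

theorem spE_mul {x y : Module.End ℝ (Fin g → ℂ)}
    (hx : x ∈ spE A (CB A : Set (Module.End ℚ A.H1)))
    (hy : y ∈ spE A (CB A : Set (Module.End ℚ A.H1))) :
    x * y ∈ spE A (CB A : Set (Module.End ℚ A.H1)) := by
  induction hx using Submodule.span_induction with
  | mem X hX =>
    obtain ⟨P, hP, rfl⟩ := hX
    induction hy using Submodule.span_induction with
    | mem Y hY =>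
      obtain ⟨Q, hQ, rfl⟩ := hY
      rw [← ext_mul]
      exact mem_spE (S := (CB A : Set (Module.End ℚ A.H1))) (CB_mul hP hQ)
    | zero => rw [mul_zero]; exact Submodule.zero_mem _
    | add a b _ _ ha hb => rw [mul_add]; exact Submodule.add_mem _ ha hb
    | smul c a _ ha => rw [mul_smul_comm]; exact Submodule.smul_mem _ c ha
  | zero => rw [zero_mul]; exact Submodule.zero_mem _
  | add a b _ _ ha hb => rw [add_mul]; exact Submodule.add_mem _ ha hb
  | smul c a _ ha => rw [smul_mul_assoc]; exact Submodule.smul_mem _ c ha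

theorem JJ_CB : (AbVar.JJ : Module.End ℝ (Fin g → ℂ)) ∈
    spE A (CB A : Set (Module.End ℚ A.H1)) := by
  refine Submodule.span_mono (s := {Y | ∃ X ∈ (A.NA : Set (Module.End ℚ A.H1)), Y = A.ext X}) ?_
    (JJ_mem (A := A))
  rintro _ ⟨X, hX, rfl⟩
  exact ⟨X, NA_le_CB hX, rfl⟩

/-- The trace form of the commutant is nondegenerate. -/
theorem trace_CB : Pool.Agent.W516.KC2.TraceNondeg (CB A) := by
  intro X hX htr
  by_contra hne
  have h0 : A.ext X ≠ 0 := by
    intro h0
    apply hne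
    refine LinearMap.ext fun u => A.per_inj ?_
    rw [← A.ext_apply, h0, LinearMap.zero_apply, LinearMap.zero_apply, map_zero]
  obtain ⟨X', hX', hadj⟩ := CB_adj hX
  have hE : ∀ u v, A.E (A.ext X u) v = A.E u (A.ext X' v) := by
    have h2 : A.E.comp (A.ext X) = (A.E.flip.comp (A.ext X')).flip := by
      refine A.ext_per fun u => A.ext_per fun v => ?_
      change A.E (A.ext X (A.per u)) (A.per v) = A.E (A.per u) (A.ext X' (A.per v))
      rw [A.ext_apply, A.ext_apply, ← A.om_coe, ← A.om_coe, hadj]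
    exact fun u v => congrArg (fun F : (Fin g → ℂ) →ₗ[ℝ] (Fin g → ℂ) →ₗ[ℝ] ℝ => F u v) h2
  obtain ⟨Y', hY'⟩ : ∃ Y' : Module.End ℝ (Fin g → ℂ),
      Y' = -((AbVar.JJ : Module.End ℝ (Fin g → ℂ)) * A.ext X' * AbVar.JJ) := ⟨_, rfl⟩
  have hYv : ∀ v, Y' v = -(Complex.I • A.ext X' (Complex.I • v)) := by
    intro v
    rw [hY', LinearMap.neg_apply, Module.End.mul_apply, Module.End.mul_apply, AbVar.JJ_apply,
      AbVar.JJ_apply]
  have hY : ∀ u v, A.PF (A.ext X u) v = A.PF u (Y' v) := by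
    intro u v
    rw [A.PF_apply, A.PF_apply, hE, hYv, smul_neg, smul_smul, Complex.I_mul_I, neg_one_smul,
      neg_neg]
  have h1 := tr_adj_pos hY h0
  have h2 : Y' ∈ spE A (CB A : Set (Module.End ℚ A.H1)) := by
    rw [hY']
    exact Submodule.neg_mem _ (spE_mul (spE_mul JJ_CB (mem_spE hX')) JJ_CB)
  have h3 : ∀ Z ∈ spE A (CB A : Set (Module.End ℚ A.H1)),
      LinearMap.trace ℝ (Fin g → ℂ) (A.ext X * Z) = 0 := by
    intro Z hZ
    induction hZ using Submodule.span_induction with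
    | mem Z hZ =>
      obtain ⟨Y, hY, rfl⟩ := hZ
      rw [← ext_mul, trace_ext, htr Y hY, Rat.cast_zero]
    | zero => rw [mul_zero, map_zero]
    | add a b _ _ ha hb => rw [mul_add, map_add, ha, hb, add_zero]
    | smul c a _ ha => rw [mul_smul_comm, map_smul, ha, smul_zero]
  rw [h3 _ h2] at h1
  exact lt_irrefl _ h1

section Tr

variable {W : Type} [AddCommGroup W] [Module ℚ W] [FiniteDimensional ℚ W]

theorem cmpE_add (lam : ℂ →ₗ[ℚ] ℚ) (X Y : Module.End ℂ (ℂ ⊗[ℚ] W)) :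
    cmpE lam (X + Y) = cmpE lam X + cmpE lam Y := by
  refine LinearMap.ext fun w => ?_
  rw [cmpE_apply, LinearMap.add_apply, map_add]
  rfl

theorem cmpE_zero (lam : ℂ →ₗ[ℚ] ℚ) : cmpE lam (0 : Module.End ℂ (ℂ ⊗[ℚ] W)) = 0 := by
  refine LinearMap.ext fun w => ?_
  rw [cmpE_apply, LinearMap.zero_apply, map_zero]
  rfl

theorem cmpE_smul (lam : ℂ →ₗ[ℚ] ℚ) (c : ℂ) (X : Module.End ℂ (ℂ ⊗[ℚ] W)) :
    cmpE lam (c • X) = cmpE (lam ∘ₗ LinearMap.mulLeft ℚ c) X := by
  refine LinearMap.ext fun w => ?_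
  rw [cmpE_apply, cmpE_apply, LinearMap.smul_apply, cmp_smul]

/-- The traces of the components. -/
theorem trace_cmp {S : Submodule ℚ (Module.End ℚ W)} (Y : Module.End ℚ W)
    {X : Module.End ℂ (ℂ ⊗[ℚ] W)} (hX : X ∈ cx S) : ∀ lam : ℂ →ₗ[ℚ] ℚ,
    LinearMap.trace ℚ W (cmpE lam X * Y) =
      lam (LinearMap.trace ℂ (ℂ ⊗[ℚ] W) (X * Y.baseChange ℂ)) := by
  induction hX using Submodule.span_induction with
  | mem X hX =>
    obtain ⟨P, hP, rfl⟩ := hX
    intro lam
    rw [cmpE_bc, ← bc_mul, LinearMap.trace_baseChange, smul_mul_assoc, map_smul,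
      Algebra.algebraMap_eq_smul_one, map_smul, smul_eq_mul, smul_eq_mul, mul_comm]
  | zero => intro lam; rw [cmpE_zero, zero_mul, zero_mul, map_zero, map_zero, map_zero]
  | add a b _ _ ha hb =>
    intro lam
    rw [cmpE_add, add_mul, add_mul, map_add, map_add, map_add, ha, hb]
  | smul c a _ ha =>
    intro lam
    rw [cmpE_smul, ha, smul_mul_assoc, map_smul]
    rfl

theorem eq_zero_of_cmpE {X : Module.End ℂ (ℂ ⊗[ℚ] W)} (h : ∀ lam, cmpE lam X = 0) : X = 0 := by
  refine TensorProduct.AlgebraTensorModule.ext fun a w => ?_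
  have h2 : a ⊗ₜ[ℚ] w = a • ((1 : ℂ) ⊗ₜ[ℚ] w) := by rw [smul_tmul', smul_eq_mul, mul_one]
  rw [h2, map_smul, LinearMap.zero_apply]
  have h3 : X ((1 : ℂ) ⊗ₜ[ℚ] w) = 0 := by
    apply eq_zero_of_cmp (k := ℚ)
    intro lam
    rw [← cmpE_apply, h, LinearMap.zero_apply]
  rw [h3, smul_zero]

theorem cx_trace {S : Submodule ℚ (Module.End ℚ W)} (hS : Pool.Agent.W516.KC2.TraceNondeg S)
    {X : Module.End ℂ (ℂ ⊗[ℚ] W)} (hX : X ∈ cx S)
    (h : ∀ Y ∈ S, LinearMap.trace ℂ (ℂ ⊗[ℚ] W) (X * Y.baseChange ℂ) = 0) : X = 0 := by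
  refine eq_zero_of_cmpE fun lam => hS _ (cmp_of_ext S hX lam) fun Y hY => ?_
  rw [trace_cmp Y hX, h Y hY, map_zero]

end Tr

/-- The commutant as an algebra. -/
def algB (A : AbVar g) : Subalgebra ℂ (Module.End ℂ (ℂ ⊗[ℚ] A.H1)) where
  carrier := cx (CB A)
  mul_mem' := fun {a b} ha hb => cx_mul (fun _ hX _ hY => CB_mul hX hY) a ha b hb
  one_mem' := by
    have h1 : (1 : Module.End ℚ A.H1).baseChange ℂ ∈ cx (CB A) := bc_mem CB_one
    rwa [bc_one] at h1
  add_mem' := fun {a b} ha hb => Submodule.add_mem _ ha hb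
  zero_mem' := Submodule.zero_mem _
  algebraMap_mem' := fun c => by
    have h1 : (1 : Module.End ℚ A.H1).baseChange ℂ ∈ cx (CB A) := bc_mem CB_one
    rw [bc_one] at h1
    rw [Algebra.algebraMap_eq_smul_one]
    exact Submodule.smul_mem _ c h1

theorem mem_algB {X : Module.End ℂ (ℂ ⊗[ℚ] A.H1)} : X ∈ algB A ↔ X ∈ cx (CB A) := Iff.rfl

theorem cx_semi (U : Submodule ℂ (ℂ ⊗[ℚ] A.H1)) (hU : ∀ X ∈ cx (CB A), ∀ u ∈ U, X u ∈ U) :
    ∃ U' : Submodule ℂ (ℂ ⊗[ℚ] A.H1), (∀ X ∈ cx (CB A), ∀ u ∈ U', X u ∈ U') ∧ IsCompl U U' :=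
  compl_of_trace (algB A) (fun _ hx h => cx_trace trace_CB hx fun _ hY => h _ (bc_mem hY)) U hU

/-! ### Eigenspaces -/

theorem reduced (h : HF A z N) (p : Polynomial ℚ)
    (hp : Polynomial.aeval z p * Polynomial.aeval z p = 0) : Polynomial.aeval z p = 0 := by
  by_contra hne
  have h1 := h.field p hne
  apply hne
  refine LinearMap.ext fun v => ?_
  apply h1
  have h2 := LinearMap.congr_fun hp v
  rw [Module.End.mul_apply, LinearMap.zero_apply] at h2
  rw [h2, LinearMap.zero_apply, map_zero]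

theorem cx_diag (h : HF A z N) :
    ⨆ σ : ℂ, Module.End.eigenspace (z.baseChange ℂ : Module.End ℂ (ℂ ⊗[ℚ] A.H1)) σ = ⊤ := by
  have hss := semisimple_of_reduced z (reduced h)
  rw [← Module.End.iSup_maxGenEigenspace_eq_top (z.baseChange ℂ : Module.End ℂ (ℂ ⊗[ℚ] A.H1))]
  refine iSup_congr fun σ => ?_
  rw [hss.isFinitelySemisimple.maxGenEigenspace_eq_eigenspace]

open Classical in
/-- The eigenvalues. -/
def RR (z : Module.End ℚ A.H1) : Finset ℂ :=
  ((minpoly ℚ z).map (algebraMap ℚ ℂ)).roots.toFinset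

theorem minpoly_ne : minpoly ℚ z ≠ 0 := minpoly.ne_zero (Algebra.IsIntegral.isIntegral z)

theorem card_RR : (RR z).card ≤ (minpoly ℚ z).natDegree := by
  classical
  have h1 := Multiset.toFinset_card_le ((minpoly ℚ z).map (algebraMap ℚ ℂ)).roots
  have h2 := Polynomial.card_roots' ((minpoly ℚ z).map (algebraMap ℚ ℂ))
  rw [Polynomial.natDegree_map] at h2
  unfold RR
  refine le_trans ?_ (h1.trans h2)
  exact le_of_eq (by congr)

theorem mem_RR {σ : ℂ} {v : ℂ ⊗[ℚ] A.H1} (hv : v ≠ 0)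
    (h : z.baseChange ℂ v = σ • v) : σ ∈ RR z := by
  classical
  have h1 : Module.End.HasEigenvector (z.baseChange ℂ : Module.End ℂ (ℂ ⊗[ℚ] A.H1)) σ v :=
    ⟨Module.End.mem_eigenspace_iff.2 h, hv⟩
  have h2 := Module.End.aeval_apply_of_hasEigenvector (p := (minpoly ℚ z).map (algebraMap ℚ ℂ)) h1
  rw [Polynomial.aeval_map_algebraMap, aeval_baseChange, minpoly.aeval, LinearMap.baseChange_zero,
    LinearMap.zero_apply] at h2
  have h3 := (smul_eq_zero.1 h2.symm).resolve_right hv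
  unfold RR
  rw [Multiset.mem_toFinset, Polynomial.mem_roots']
  exact ⟨(Polynomial.map_ne_zero_iff (algebraMap ℚ ℂ).injective).2 minpoly_ne, h3⟩

theorem aeval_zero (h : HF A z N) {q : Polynomial ℂ} (hq : ∀ σ ∈ RR z, q.eval σ = 0) :
    Polynomial.aeval (z.baseChange ℂ : Module.End ℂ (ℂ ⊗[ℚ] A.H1)) q = 0 := by
  rw [← LinearMap.ker_eq_top, eq_top_iff, ← cx_diag h, iSup_le_iff]
  intro σ v hv
  rw [LinearMap.mem_ker]
  by_cases h0 : v = 0
  · rw [h0, map_zero]
  · have hev : Module.End.HasEigenvector (z.baseChange ℂ : Module.End ℂ (ℂ ⊗[ℚ] A.H1)) σ v :=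
      ⟨hv, h0⟩
    rw [Module.End.aeval_apply_of_hasEigenvector hev,
      hq σ (mem_RR h0 (Module.End.mem_eigenspace_iff.1 hv)), zero_smul]

section Poly

variable {K V : Type} [Field K] [AddCommGroup V] [Module K V]

theorem mul_aeval {X Z : Module.End K V} {σ : K} (h : X * Z = σ • X) (q : Polynomial K) :
    X * Polynomial.aeval Z q = q.eval σ • X := by
  induction q using Polynomial.induction_on with
  | C c =>
    rw [Polynomial.aeval_C, Polynomial.eval_C, Algebra.algebraMap_eq_smul_one, mul_smul_comm,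
      mul_one]
  | add p q hp hq => rw [map_add, mul_add, hp, hq, Polynomial.eval_add, add_smul]
  | monomial k c hk =>
    rw [pow_succ, ← mul_assoc, map_mul, Polynomial.aeval_X, ← mul_assoc, hk, smul_mul_assoc, h,
      smul_smul, Polynomial.eval_mul_X]

theorem comm_aeval {X Z : Module.End K V} (h : X * Z = Z * X) (q : Polynomial K) :
    X * Polynomial.aeval Z q = Polynomial.aeval Z q * X := by
  induction q using Polynomial.induction_on with
  | C c =>
    rw [Polynomial.aeval_C, Algebra.algebraMap_eq_smul_one, mul_smul_comm,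
      mul_one, smul_mul_assoc, one_mul]
  | add p q hp hq => rw [map_add, mul_add, hp, hq, add_mul]
  | monomial k c hk =>
    rw [pow_succ, ← mul_assoc, map_mul, Polynomial.aeval_X, ← mul_assoc, hk, mul_assoc, h,
      mul_assoc]

/-- The dimension of a finite sum. -/
theorem finrank_sup_le [FiniteDimensional K V] {ι : Type} (s : Finset ι) (F : ι → Submodule K V) :
    finrank K (s.sup F : Submodule K V) ≤ ∑ i ∈ s, finrank K (F i) := by
  classical
  induction s using Finset.induction_on with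
  | empty => rw [Finset.sup_empty, Finset.sum_empty, finrank_bot]
  | insert a s ha ih =>
    rw [Finset.sup_insert, Finset.sum_insert ha]
    exact (Submodule.finrank_add_le_finrank_add_finrank _ _).trans (Nat.add_le_add_left ih _)

end Poly

/-- The projectors. -/
def EE (z : Module.End ℚ A.H1) (σ : ℂ) : Module.End ℂ (ℂ ⊗[ℚ] A.H1) :=
  Polynomial.aeval (z.baseChange ℂ : Module.End ℂ (ℂ ⊗[ℚ] A.H1)) (Lagrange.basis (RR z) id σ)

theorem EE_z (h : HF A z N) {σ : ℂ} :
    EE z σ * z.baseChange ℂ = σ • EE z σ := by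
  have h1 := aeval_zero h (q := Lagrange.basis (RR z) id σ * (Polynomial.X - Polynomial.C σ))
    (fun τ hτ => by
      rw [Polynomial.eval_mul, Polynomial.eval_sub, Polynomial.eval_X, Polynomial.eval_C]
      by_cases hs : σ = τ
      · rw [hs, sub_self, mul_zero]
      · have h2 := Lagrange.eval_basis_of_ne (v := (id : ℂ → ℂ)) hs hτ
        rw [id] at h2
        rw [h2, zero_mul])
  rw [map_mul, map_sub, Polynomial.aeval_X, Polynomial.aeval_C, mul_sub, sub_eq_zero,
    Algebra.algebraMap_eq_smul_one, mul_smul_comm, mul_one] at h1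
  exact h1

theorem sum_EE (h : HF A z N) : ∑ σ ∈ RR z, EE z σ = 1 := by
  have h1 := aeval_zero h (q := ∑ σ ∈ RR z, Lagrange.basis (RR z) id σ - 1)
    (fun τ hτ => by
      rw [Lagrange.sum_basis (Set.injOn_id _) ⟨τ, hτ⟩, sub_self, Polynomial.eval_zero])
  rw [map_sub, map_sum, map_one, sub_eq_zero] at h1
  exact h1

theorem comm_z (h : HF A z N) {X : Module.End ℂ (ℂ ⊗[ℚ] A.H1)} (hX : X ∈ cx (CB A)) :
    X * z.baseChange ℂ = z.baseChange ℂ * X :=
  (cx_commutant (S := A.EA) (C := CB A) (fun _ => Iff.rfl) X).1 hX _ (bc_mem h.mem)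

theorem aeval_CB (h : HF A z N) (q : Polynomial ℚ) : Polynomial.aeval z q ∈ CB A :=
  fun P hP => (comm_aeval (h.cen P hP).symm q).symm

theorem EE_mem (σ : ℂ) (h : HF A z N) : EE z σ ∈ cx (CB A) := by
  have key : ∀ q : Polynomial ℂ,
      Polynomial.aeval (z.baseChange ℂ : Module.End ℂ (ℂ ⊗[ℚ] A.H1)) q ∈ cx (CB A) := by
    intro q
    rw [cx_commutant (S := A.EA) (C := CB A) (fun _ => Iff.rfl)]
    intro Q hQ
    refine (comm_aeval (X := Q) ?_ q).symm
    have h1 : (z.baseChange ℂ : Module.End ℂ (ℂ ⊗[ℚ] A.H1)) ∈ cx (CB A) := bc_mem (z_CB h)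
    exact ((cx_commutant (S := A.EA) (C := CB A) (fun _ => Iff.rfl) _).1 h1 Q hQ).symm
  exact key _

/-- The components. -/
def KK (z : Module.End ℚ A.H1) (σ : ℂ) : Submodule ℂ (Module.End ℂ (ℂ ⊗[ℚ] A.H1)) :=
  cx (CB A) ⊓ LinearMap.ker (LinearMap.mulRight ℂ
    ((z.baseChange ℂ : Module.End ℂ (ℂ ⊗[ℚ] A.H1)) - σ • (1 : Module.End ℂ (ℂ ⊗[ℚ] A.H1))))

theorem mem_KK {σ : ℂ} {X : Module.End ℂ (ℂ ⊗[ℚ] A.H1)} :
    X ∈ KK z σ ↔ X ∈ cx (CB A) ∧ X * z.baseChange ℂ = σ • X := by
  unfold KK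
  rw [Submodule.mem_inf, LinearMap.mem_ker, LinearMap.mulRight_apply, mul_sub, sub_eq_zero,
    mul_smul_comm, mul_one]

theorem le_sup (h : HF A z N) : cx (CB A) ≤ (RR z).sup (KK z) := by
  intro X hX
  have h1 : X = ∑ σ ∈ RR z, X * EE z σ := by rw [← Finset.mul_sum, sum_EE h, mul_one]
  rw [h1]
  refine Submodule.sum_mem _ fun σ hσ => (Finset.le_sup (f := KK z) hσ) ?_
  rw [mem_KK]
  refine ⟨cx_mul (fun _ hX _ hY => CB_mul hX hY) X hX _ (EE_mem σ h), ?_⟩
  rw [mul_assoc, EE_z h, mul_smul_comm]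

theorem exists_gensC (h : HF A z N) : ∃ b : Fin (N ^ 2) → Module.End ℂ (ℂ ⊗[ℚ] A.H1),
    ∀ X ∈ cx (CB A), ∃ q : Fin (N ^ 2) → Polynomial ℂ,
      X = ∑ j, Polynomial.aeval (z.baseChange ℂ : Module.End ℂ (ℂ ⊗[ℚ] A.H1)) (q j) * b j := by
  obtain ⟨b, hb, hb'⟩ := exists_gens z h.ne h.field (CB A)
    (fun q X hX => CB_mul (aeval_CB h q) hX) (N ^ 2) h.deg
  refine ⟨fun j => (b j).baseChange ℂ, fun X hX => ?_⟩
  induction hX using Submodule.span_induction with
  | mem X hX =>
    obtain ⟨P, hP, rfl⟩ := hX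
    obtain ⟨q, hq⟩ := hb' P hP
    refine ⟨fun j => (q j).map (algebraMap ℚ ℂ), ?_⟩
    have h1 : P.baseChange ℂ = ∑ j, (Polynomial.aeval z (q j) * b j).baseChange ℂ := by
      conv_lhs => rw [hq]
      exact map_sum (LinearMap.baseChangeHom ℚ ℂ A.H1 A.H1) _ _
    rw [h1]
    refine Finset.sum_congr rfl fun j _ => ?_
    rw [bc_mul, Polynomial.aeval_map_algebraMap, aeval_baseChange]
  | zero => exact ⟨0, by simp⟩
  | add a b _ _ ha hb =>
    obtain ⟨p, rfl⟩ := ha
    obtain ⟨q, rfl⟩ := hb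
    refine ⟨p + q, ?_⟩
    rw [← Finset.sum_add_distrib]
    exact Finset.sum_congr rfl fun j _ => by rw [Pi.add_apply, map_add, add_mul]
  | smul c a _ ha =>
    obtain ⟨p, rfl⟩ := ha
    refine ⟨c • p, ?_⟩
    rw [Finset.smul_sum]
    exact Finset.sum_congr rfl fun j _ => by rw [Pi.smul_apply, map_smul, smul_mul_assoc]

theorem finrank_KK_le (h : HF A z N) {σ : ℂ} (hσ : σ ∈ RR z) :
    finrank ℂ (KK z σ) ≤ N ^ 2 := by
  obtain ⟨b, hb⟩ := exists_gensC h
  have h1 : KK z σ ≤ Submodule.span ℂ (Set.range fun j => EE z σ * b j) := by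
    intro X hX
    rw [mem_KK] at hX
    obtain ⟨q, hq⟩ := hb X hX.1
    have e1 : X * EE z σ = X := by
      have h2 := mul_aeval hX.2 (Lagrange.basis (RR z) id σ)
      have h3 := Lagrange.eval_basis_self (v := (id : ℂ → ℂ)) (Set.injOn_id _) hσ
      rw [id] at h3
      rw [h3, one_smul] at h2
      exact h2
    have e2 : X * EE z σ = EE z σ * X := comm_aeval (comm_z h hX.1) _
    have e3 : X = ∑ j, (q j).eval σ • (EE z σ * b j) := by
      rw [← e1, e2]
      conv_lhs => rw [hq]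
      rw [Finset.mul_sum]
      refine Finset.sum_congr rfl fun j _ => ?_
      rw [← mul_assoc, mul_aeval (EE_z h), smul_mul_assoc]
    rw [e3]
    exact Submodule.sum_mem _ fun j _ => Submodule.smul_mem _ _ (Submodule.subset_span ⟨j, rfl⟩)
  refine (Submodule.finrank_mono h1).trans ?_
  have h2 := finrank_range_le_card (R := ℂ) (fun j => EE z σ * b j)
  rwa [Fintype.card_fin] at h2

theorem natDegree_le : (minpoly ℚ z).natDegree ≤ finrank ℚ (Algebra.adjoin ℚ {z}) := by
  have h1 := linearIndependent_pow (K := ℚ) z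
  have h2 := finrank_span_eq_card h1
  rw [Fintype.card_fin] at h2
  have h3 : Submodule.span ℚ (Set.range fun i : Fin (minpoly ℚ z).natDegree => z ^ (i : ℕ)) ≤
      Subalgebra.toSubmodule (Algebra.adjoin ℚ {z}) := by
    rw [Submodule.span_le]
    rintro _ ⟨i, rfl⟩
    exact Subalgebra.pow_mem _ (Algebra.self_mem_adjoin_singleton ℚ z) _
  have h4 := Submodule.finrank_mono h3
  rw [h2] at h4
  exact h4

theorem finrank_cx_ge {W : Type} [AddCommGroup W] [Module ℚ W] [FiniteDimensional ℚ W]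
    (S : Submodule ℚ (Module.End ℚ W)) : finrank ℚ S ≤ finrank ℂ (cx S) := by
  let b := Module.finBasis ℚ S
  have h1 : LinearIndependent ℂ
      (fun i => ((b i).1.baseChange ℂ : Module.End ℂ (ℂ ⊗[ℚ] W))) := by
    rw [Fintype.linearIndependent_iff]
    intro c h2 i
    apply eq_zero_of_dual (k := ℚ)
    intro lam
    have h3 : ∑ i, lam (c i) • (b i).1 = 0 := by
      have h4 : ∀ s : Finset (Fin (finrank ℚ S)), cmpE lam (∑ i ∈ s, c i • (b i).1.baseChange ℂ) =
          ∑ i ∈ s, lam (c i) • (b i).1 := by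
        intro s
        classical
        induction s using Finset.induction_on with
        | empty => rw [Finset.sum_empty, Finset.sum_empty, cmpE_zero]
        | insert a s ha ih =>
          rw [Finset.sum_insert ha, Finset.sum_insert ha, cmpE_add, ih, cmpE_smul, cmpE_bc]
          congr 2
          rw [LinearMap.comp_apply, LinearMap.mulLeft_apply, mul_one]
      rw [← h4, h2, cmpE_zero]
    have h4 : ∑ i, lam (c i) • b i = 0 := by
      apply Subtype.ext
      rw [AddSubmonoidClass.coe_finsetSum]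
      exact h3
    exact (Fintype.linearIndependent_iff.1 b.linearIndependent) _ h4 i
  have h2 := finrank_span_eq_card h1
  rw [Fintype.card_fin] at h2
  rw [← h2]
  refine Submodule.finrank_mono ?_
  rw [Submodule.span_le]
  rintro _ ⟨i, rfl⟩
  exact bc_mem (b i).2

theorem finrank_KK (h : HF A z N) {σ : ℂ} (hσ : σ ∈ RR z) : finrank ℂ (KK z σ) = N ^ 2 := by
  refine le_antisymm (finrank_KK_le h hσ) ?_
  by_contra hlt
  push Not at hlt
  have e1 : finrank ℂ (cx (CB A)) ≤ ∑ τ ∈ RR z, finrank ℂ (KK z τ) :=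
    (Submodule.finrank_mono (le_sup h)).trans (finrank_sup_le _ _)
  have e2 : ∑ τ ∈ RR z, finrank ℂ (KK z τ) < ∑ _τ ∈ RR z, N ^ 2 :=
    Finset.sum_lt_sum (fun τ hτ => finrank_KK_le h hτ) ⟨σ, hσ, hlt⟩
  rw [Finset.sum_const, smul_eq_mul] at e2
  have e3 := finrank_cx_ge (CB A)
  rw [h.deg] at e3
  have e4 : (RR z).card * N ^ 2 ≤ finrank ℚ (Algebra.adjoin ℚ {z}) * N ^ 2 :=
    Nat.mul_le_mul_right _ (card_RR.trans natDegree_le)
  rw [mul_comm (finrank ℚ (Algebra.adjoin ℚ {z}))] at e4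
  omega

/-- **LC/AP1.** -/
theorem main : Pool.Agent.N208.LC.S_AP1 := by
  intro g A z N h
  exact
    { commB := fun X => cx_commutant (S := A.EA) (C := CB A) (fun _ => Iff.rfl) X
      commE := fun Q => by
        rw [cx_commutant (S := CB A) (C := A.EA) mem_EA_iff Q]
        exact ⟨fun h X hX => (h X hX).symm, fun h X hX => (h X hX).symm⟩
      semi := cx_semi
      alt := cx_alt _ om_one
      nondeg := cx_nondeg
      adjB := cx_adj _ om_one
      skew := cx_skew h.skew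
      zE := bc_mem h.mem
      zB := bc_mem (z_CB h)
      inj := bc_injective h
      diag := cx_diag h
      cen := cx_cen h
      dim := fun σ hσ => by
        obtain ⟨v, hv, hv'⟩ := hσ
        exact finrank_KK h (mem_RR hv hv') }

end Pool.Agent.N492.LCAP1
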