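import Pool.Agent.N580.AU.Stm

set_option autoImplicit false

/-! Project AU, leaf PCK: packing of translates with the simultaneous triple product property
(helper492). -/

namespace Pool.Agent.N492.AU

open Finset Pool.Agent.N580.AU

theorem pck : PCK := by
  intro K _ _ M hM I _ _ X hX τ s hs J x hx
  have hne : ∀ j, NeZero (M j) := fun j => ⟨hM j⟩
  -- the offsets
  let e : Fin 3 → (∀ j, Fin (2 ^ s j)) → K → ℕ := fun σ y j => if σ = τ j then (y j : ℕ) else 0
  have he : ∀ σ y j, e σ y j = if σ = τ j then (y j : ℕ) else 0 := fun _ _ _ => rfl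
  have hmem : ∀ i ∈ J, ∀ σ, ∀ y : ∀ j, Fin (2 ^ s j),
      (fun j => x i σ j + ((e σ y j : ℕ) : ZMod (M j))) ∈ X σ i := by
    intro i hi σ y
    refine hx i hi σ (e σ y) fun j => ?_
    rw [he]
    split_ifs
    · exact (y j).2
    · exact Nat.one_pos
  let g : (J × ∀ j, Fin (2 ^ s j)) → ∀ j, ZMod (M j) := fun z j =>
    x z.1.1 0 j - x z.1.1 2 j + ((e 0 z.2 j : ℕ) : ZMod (M j)) + ((e 1 z.2 j : ℕ) : ZMod (M j)) -
      ((e 2 z.2 j : ℕ) : ZMod (M j))
  have hg : Function.Injective g := by
    rintro ⟨⟨i, hi⟩, y⟩ ⟨⟨k, hk⟩, y'⟩ h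
    obtain ⟨h1, -, h2, h3, h4⟩ := hX i k k _ (hmem i hi 0 y) _ (hmem k hk 0 y') _ (hmem k hk 1 y) _
      (hmem k hk 1 y') _ (hmem k hk 2 y') _ (hmem i hi 2 y) (by
        funext j
        have h5 := congrFun h j
        simp only [g] at h5
        simp only [Pi.add_apply, Pi.sub_apply, Pi.zero_apply]
        linear_combination h5)
    subst h1
    have h5 : y = y' := by
      funext j
      have hz : ((y j : ℕ) : ZMod (M j)) = ((y' j : ℕ) : ZMod (M j)) := by
        have e0 := congrFun h2 j
        have e1 := congrFun h3 j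
        have e2 := congrFun h4 j
        simp only [he, add_right_inj] at e0 e1 e2
        rcases (show τ j = 0 ∨ τ j = 1 ∨ τ j = 2 by
          generalize τ j = u
          fin_cases u <;> simp) with h | h | h
        · rw [h, if_pos rfl, if_pos rfl] at e0
          exact e0
        · rw [h, if_pos rfl, if_pos rfl] at e1
          exact e1
        · rw [h, if_pos rfl, if_pos rfl] at e2
          exact e2.symm
      rw [ZMod.natCast_eq_natCast_iff', Nat.mod_eq_of_lt ((y j).2.trans_le (hs j)),
        Nat.mod_eq_of_lt ((y' j).2.trans_le (hs j))] at hz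
      exact Fin.ext hz
    rw [h5]
  have h := Fintype.card_le_of_injective g hg
  rw [Fintype.card_prod, Fintype.card_coe, Fintype.card_pi, Fintype.card_pi] at h
  simpa only [Fintype.card_fin, ZMod.card] using h

end Pool.Agent.N492.AU
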