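import Mathlib

/-!
# Degrees of loops in the punctured plane, via continuous logarithms
-/

set_option autoImplicit false

open Complex Set Topology
open scoped Real

namespace Pool.Agent.N492.Deg

/-- `f` has a continuous logarithm whose increment over a period is `n` times `2 π i`. -/
def HasDeg (f : ℝ → ℂ) (n : ℤ) : Prop :=
  ∃ F : ℝ → ℂ, Continuous F ∧ (∀ t, exp (F t) = f t) ∧
    ∀ t, F (t + 2 * π) = F t + n * (2 * π * I)

/-- The two-variable version. -/
def HasBideg (f : ℝ → ℝ → ℂ) (a b : ℤ) : Prop :=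
  ∃ F : ℝ × ℝ → ℂ, Continuous F ∧ (∀ s t, exp (F (s, t)) = f s t) ∧
    (∀ s t, F (s + 2 * π, t) = F (s, t) + a * (2 * π * I)) ∧
    (∀ s t, F (s, t + 2 * π) = F (s, t) + b * (2 * π * I))

theorem two_pi_I_ne : (2 * π * I : ℂ) ≠ 0 := Complex.two_pi_I_ne_zero

/-- Existence of continuous logarithms on simply connected spaces. -/
theorem exists_log {A : Type} [TopologicalSpace A] [SimplyConnectedSpace A]
    [LocallyPathConnectedSpace A] (f : A → ℂ) (hf : Continuous f) (h0 : ∀ a, f a ≠ 0) :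
    ∃ F : A → ℂ, Continuous F ∧ ∀ a, exp (F a) = f a := by
  obtain ⟨a₀⟩ : Nonempty A := inferInstance
  obtain ⟨F, ⟨-, hF⟩, -⟩ := isCoveringMapOn_exp.existsUnique_continuousMap_lifts
    (f := (⟨f, hf⟩ : C(A, ℂ))) (a₀ := a₀) (e₀ := log (f a₀)) (exp_log (h0 a₀)) (fun a => h0 a)
  exact ⟨F, F.continuous, fun a => congrFun hF a⟩

/-- A continuous function with `exp = 1` on a preconnected space is constant. -/
theorem const_of_exp {A : Type} [TopologicalSpace A] [PreconnectedSpace A] [Nonempty A]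
    (F : A → ℂ) (hF : Continuous F) (h : ∀ a, exp (F a) = 1) :
    ∃ n : ℤ, ∀ a, F a = n * (2 * π * I) := by
  obtain ⟨a₀⟩ : Nonempty A := inferInstance
  obtain ⟨n, hn⟩ := Complex.exp_eq_one_iff.1 (h a₀)
  refine ⟨n, fun a => ?_⟩
  rw [← hn]
  exact Complex.isCoveringMap_exp.const_of_comp hF (fun a a' => by
    apply Subtype.ext
    simp [h a, h a']) a a₀

theorem HasDeg.unique {f : ℝ → ℂ} {n m : ℤ} (h1 : HasDeg f n) (h2 : HasDeg f m) : n = m := by
  obtain ⟨F, hF, hFe, hFp⟩ := h1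
  obtain ⟨G, hG, hGe, hGp⟩ := h2
  obtain ⟨k, hk⟩ := const_of_exp (fun t => F t - G t) (hF.sub hG) (fun t => by
    rw [exp_sub, hFe, hGe, div_self]
    rw [← hFe]; exact exp_ne_zero _)
  have e1 := hk 0
  have e2 := hk (0 + 2 * π)
  simp only [hFp, hGp] at e2
  have e3 : ((n : ℂ) - m) * (2 * π * I) = 0 := by linear_combination e2 - e1
  rcases mul_eq_zero.1 e3 with h | h
  · have : (n : ℂ) = m := sub_eq_zero.1 h
    exact_mod_cast this
  · exact absurd h two_pi_I_ne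

theorem HasDeg.congr {f g : ℝ → ℂ} {n : ℤ} (h : HasDeg f n) (hfg : ∀ t, g t = f t) :
    HasDeg g n := by
  have : g = f := funext hfg
  rwa [this]

theorem HasDeg.ne_zero {f : ℝ → ℂ} {n : ℤ} (h : HasDeg f n) (t : ℝ) : f t ≠ 0 := by
  obtain ⟨F, -, hFe, -⟩ := h
  rw [← hFe]; exact exp_ne_zero _

theorem exists_hasDeg (f : ℝ → ℂ) (hf : Continuous f) (h0 : ∀ t, f t ≠ 0)
    (hp : ∀ t, f (t + 2 * π) = f t) : ∃ n, HasDeg f n := by
  obtain ⟨F, hF, hFe⟩ := exists_log f hf h0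
  obtain ⟨k, hk⟩ := const_of_exp (fun t => F (t + 2 * π) - F t)
    ((hF.comp (continuous_id.add continuous_const)).sub hF) (fun t => by
    rw [exp_sub, hFe, hFe, hp, div_self (h0 t)])
  exact ⟨k, F, hF, hFe, fun t => by have := hk t; linear_combination this⟩

theorem exists_hasBideg (f : ℝ → ℝ → ℂ) (hf : Continuous (fun p : ℝ × ℝ => f p.1 p.2))
    (h0 : ∀ s t, f s t ≠ 0)
    (hp : ∀ s t, f (s + 2 * π) t = f s t) (hq : ∀ s t, f s (t + 2 * π) = f s t) :
    ∃ a b, HasBideg f a b := by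
  obtain ⟨F, hF, hFe⟩ := exists_log (fun p : ℝ × ℝ => f p.1 p.2) hf (fun p => h0 p.1 p.2)
  obtain ⟨k, hk⟩ := const_of_exp (fun p : ℝ × ℝ => F (p.1 + 2 * π, p.2) - F p)
    ((hF.comp (by fun_prop)).sub hF) (fun p => by
    rw [exp_sub, hFe, hFe, hp, div_self (h0 _ _)])
  obtain ⟨l, hl⟩ := const_of_exp (fun p : ℝ × ℝ => F (p.1, p.2 + 2 * π) - F p)
    ((hF.comp (by fun_prop)).sub hF) (fun p => by
    rw [exp_sub, hFe, hFe, hq, div_self (h0 _ _)])
  refine ⟨k, l, F, hF, fun s t => hFe (s, t), fun s t => ?_, fun s t => ?_⟩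
  · have := hk (s, t); linear_combination this
  · have := hl (s, t); linear_combination this

theorem HasBideg.congr {f g : ℝ → ℝ → ℂ} {a b : ℤ} (h : HasBideg f a b)
    (hfg : ∀ s t, g s t = f s t) : HasBideg g a b := by
  have : g = f := funext fun s => funext (hfg s)
  rwa [this]

/-- An equivariant function shifts by multiples. -/
theorem shift_int {F : ℝ → ℂ} {c : ℂ} (h : ∀ t, F (t + 2 * π) = F t + c) (n : ℤ) (t : ℝ) :
    F (t + n * (2 * π)) = F t + n * c := by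
  have hnat : ∀ (n : ℕ) (t : ℝ), F (t + n * (2 * π)) = F t + n * c := by
    intro n
    induction n with
    | zero => intro t; simp
    | succ m ih =>
      intro t
      have : t + ((m + 1 : ℕ) : ℝ) * (2 * π) = (t + m * (2 * π)) + 2 * π := by
        push_cast; ring
      rw [this, h, ih]; push_cast; ring
  obtain ⟨m, rfl | rfl⟩ := n.eq_nat_or_neg
  · exact_mod_cast hnat m t
  · have e := hnat m (t + ((-(m : ℤ) : ℤ) : ℝ) * (2 * π))
    have e2 : t + ((-(m : ℤ) : ℤ) : ℝ) * (2 * π) + m * (2 * π) = t := by push_cast; ring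
    rw [e2] at e
    rw [e]; push_cast; ring

/-- Degree of the composition of a doubly periodic function with a loop on the torus. -/
theorem HasBideg.comp {f : ℝ → ℝ → ℂ} {a b : ℤ} (h : HasBideg f a b) {p q : ℝ → ℝ} {m n : ℤ}
    (hp : Continuous p) (hq : Continuous q) (hp' : ∀ t, p (t + 2 * π) = p t + m * (2 * π))
    (hq' : ∀ t, q (t + 2 * π) = q t + n * (2 * π)) :
    HasDeg (fun t => f (p t) (q t)) (a * m + b * n) := by
  obtain ⟨F, hF, hFe, h1, h2⟩ := h
  refine ⟨fun t => F (p t, q t), hF.comp (hp.prodMk hq), fun t => hFe _ _, fun t => ?_⟩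
  have e1 : ∀ s t, F (s + m * (2 * π), t) = F (s, t) + m * (a * (2 * π * I)) := fun s t =>
    shift_int (F := fun s => F (s, t)) (fun s => h1 s t) m s
  have e2 : ∀ s t, F (s, t + n * (2 * π)) = F (s, t) + n * (b * (2 * π * I)) := fun s t =>
    shift_int (F := fun t => F (s, t)) (fun t => h2 s t) n t
  dsimp only
  rw [hp', hq', e1, e2]
  push_cast; ring

theorem HasBideg.left {f : ℝ → ℝ → ℂ} {a b : ℤ} (h : HasBideg f a b) (t : ℝ) :
    HasDeg (fun s => f s t) a := by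
  have := h.comp (p := fun s => s) (q := fun _ => t) (m := 1) (n := 0) continuous_id
    continuous_const (fun t => by push_cast; ring) (fun t => by push_cast; ring)
  simpa using this

theorem HasBideg.right {f : ℝ → ℝ → ℂ} {a b : ℤ} (h : HasBideg f a b) (s : ℝ) :
    HasDeg (fun t => f s t) b := by
  have := h.comp (p := fun _ => s) (q := fun t => t) (m := 0) (n := 1) continuous_const
    continuous_id (fun t => by push_cast; ring) (fun t => by push_cast; ring)
  simpa using this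

theorem HasDeg.mul {f g : ℝ → ℂ} {n m : ℤ} (h1 : HasDeg f n) (h2 : HasDeg g m) :
    HasDeg (fun t => f t * g t) (n + m) := by
  obtain ⟨F, hF, hFe, hFp⟩ := h1
  obtain ⟨G, hG, hGe, hGp⟩ := h2
  refine ⟨fun t => F t + G t, hF.add hG, fun t => ?_, fun t => ?_⟩
  · rw [exp_add, hFe, hGe]
  · dsimp only; rw [hFp, hGp]; push_cast; ring

theorem HasDeg.zpow {f : ℝ → ℂ} {n : ℤ} (h1 : HasDeg f n) (k : ℤ) :
    HasDeg (fun t => f t ^ k) (k * n) := by
  obtain ⟨F, hF, hFe, hFp⟩ := h1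
  refine ⟨fun t => k * F t, continuous_const.mul hF, fun t => ?_, fun t => ?_⟩
  · rw [exp_int_mul, hFe]
  · dsimp only; rw [hFp]; push_cast; ring

theorem HasDeg.inv {f : ℝ → ℂ} {n : ℤ} (h1 : HasDeg f n) :
    HasDeg (fun t => (f t)⁻¹) (-n) := by
  have := h1.zpow (-1)
  simpa using this

theorem hasDeg_const {c : ℂ} (hc : c ≠ 0) : HasDeg (fun _ => c) 0 :=
  ⟨fun _ => log c, continuous_const, fun _ => exp_log hc, fun _ => by simp⟩

theorem hasDeg_exp (n : ℤ) : HasDeg (fun t => exp (n * (t * I))) n :=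
  ⟨fun t => n * (t * I), by fun_prop, fun _ => rfl, fun t => by push_cast; ring⟩

/-- Homotopy invariance of the degree. -/
theorem HasDeg.homotopy {H : ℝ → ℝ → ℂ} (hH : Continuous (fun p : ℝ × ℝ => H p.1 p.2))
    (h0 : ∀ r t, H r t ≠ 0) (hp : ∀ r t, H r (t + 2 * π) = H r t) {r₀ : ℝ} {n : ℤ}
    (h : HasDeg (H r₀) n) (r : ℝ) : HasDeg (H r) n := by
  obtain ⟨F, hF, hFe⟩ := exists_log (fun p : ℝ × ℝ => H p.1 p.2) hH (fun p => h0 p.1 p.2)
  obtain ⟨l, hl⟩ := const_of_exp (fun p : ℝ × ℝ => F (p.1, p.2 + 2 * π) - F p)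
    ((hF.comp (by fun_prop)).sub hF) (fun p => by
    rw [exp_sub, hFe, hFe, hp, div_self (h0 _ _)])
  have key : ∀ r, HasDeg (H r) l := fun r =>
    ⟨fun t => F (r, t), hF.comp (by fun_prop), fun t => hFe (r, t), fun t => by
      have := hl (r, t); linear_combination this⟩
  rw [HasDeg.unique h (key r₀)]
  exact key r

/-- Homotopy invariance, over the parameter interval `[a, b]`. -/
theorem HasDeg.homotopy_Icc {a b : ℝ} (hab : a ≤ b) {H : ℝ → ℝ → ℂ}
    (hH : ContinuousOn (fun p : ℝ × ℝ => H p.1 p.2) (Icc a b ×ˢ univ))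
    (h0 : ∀ r ∈ Icc a b, ∀ t, H r t ≠ 0) (hp : ∀ r ∈ Icc a b, ∀ t, H r (t + 2 * π) = H r t)
    {r₀ r₁ : ℝ} (hr₀ : r₀ ∈ Icc a b) (hr₁ : r₁ ∈ Icc a b) {n : ℤ}
    (h : HasDeg (H r₀) n) : HasDeg (H r₁) n := by
  let pr : ℝ → ℝ := fun r => (projIcc a b hab r : ℝ)
  have hpr : ∀ r, pr r ∈ Icc a b := fun r => (projIcc a b hab r).2
  have hprc : Continuous pr := continuous_subtype_val.comp continuous_projIcc
  have hpr1 : ∀ r ∈ Icc a b, pr r = r := fun r hr => by
    simp only [pr, projIcc_of_mem hab hr]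
  have := HasDeg.homotopy (H := fun r t => H (pr r) t) (r₀ := r₀) (n := n)
    (hH.comp_continuous (f := fun p : ℝ × ℝ => (pr p.1, p.2)) (by fun_prop)
      (fun p => ⟨hpr _, mem_univ _⟩))
    (fun r t => h0 _ (hpr r) t) (fun r t => hp _ (hpr r) t) (by rwa [hpr1 _ hr₀]) r₁
  rwa [hpr1 _ hr₁] at this

end Pool.Agent.N492.Deg
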