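import Mathlib
import Pool.Agent.N492.Deg

/-!
# Filling holes of planar domains
-/

set_option autoImplicit false

open Complex Set Topology Metric
open scoped Real

namespace Pool.Agent.N492.Deg

theorem HasDeg.reparam {f : ℝ → ℂ} {n : ℤ} (h : HasDeg f n) (m : ℤ) (c : ℝ) :
    HasDeg (fun t => f (c + m * t)) (m * n) := by
  obtain ⟨F, hF, hFe, hFp⟩ := h
  refine ⟨fun t => F (c + m * t), hF.comp (by fun_prop), fun t => hFe _, fun t => ?_⟩
  have := shift_int hFp m (c + m * t)
  dsimp only
  have e : c + m * (t + 2 * π) = c + m * t + m * (2 * π) := by ring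
  rw [e, this]
  push_cast; ring

theorem HasDeg.shift {f : ℝ → ℂ} {n : ℤ} (h : HasDeg f n) (c : ℝ) :
    HasDeg (fun t => f (c + t)) n := by
  have := h.reparam 1 c
  simpa using this

/-- A periodic function with values in the slit plane has degree zero. -/
theorem hasDeg_slit {g : ℝ → ℂ} (hg : Continuous g) (hs : ∀ t, g t ∈ slitPlane)
    (hp : ∀ t, g (t + 2 * π) = g t) : HasDeg g 0 :=
  ⟨fun t => log (g t), hg.clog hs, fun t => exp_log (slitPlane_ne_zero (hs t)), fun t => by
    simp [hp]⟩

theorem exp_per (t : ℝ) : exp (((t + 2 * π : ℝ) : ℂ) * I) = exp (t * I) := by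
  have : ((t + 2 * π : ℝ) : ℂ) * I = t * I + 2 * π * I := by push_cast; ring
  rw [this, exp_add, Complex.exp_two_pi_mul_I, mul_one]

theorem norm_exp_tI (t : ℝ) : ‖exp (t * I)‖ = 1 := norm_exp_ofReal_mul_I t

/-- Winding number about a point outside the circle. -/
theorem hasDeg_outside {c p : ℂ} {r : ℝ} (hr : 0 ≤ r) (h : r < ‖c - p‖) :
    HasDeg (fun t : ℝ => c + r * exp (t * I) - p) 0 := by
  have hcp : c - p ≠ 0 := by
    intro h0; rw [h0, norm_zero] at h; linarith
  have h1 : HasDeg (fun t : ℝ => 1 + r * exp (t * I) / (c - p)) 0 := by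
    apply hasDeg_slit (by fun_prop)
    · intro t
      apply mem_slitPlane_of_norm_lt_one
      rw [norm_div, norm_mul, norm_exp_tI, mul_one, norm_real, Real.norm_of_nonneg hr,
        div_lt_one (by linarith)]
      exact h
    · intro t; rw [exp_per]
  have := (hasDeg_const hcp).mul h1
  refine (this.congr (g := fun t : ℝ => c + r * exp (t * I) - p) fun t => ?_)
  field_simp
  ring

/-- Winding number about a point inside the circle. -/
theorem hasDeg_inside {c p : ℂ} {r : ℝ} (h : ‖c - p‖ < r) :
    HasDeg (fun t : ℝ => c + r * exp (t * I) - p) 1 := by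
  have hr : 0 < r := lt_of_le_of_lt (norm_nonneg _) h
  have hr' : (r : ℂ) ≠ 0 := by exact_mod_cast hr.ne'
  have h1 : HasDeg (fun t : ℝ => 1 + (c - p) / (r * exp (t * I))) 0 := by
    apply hasDeg_slit
    · have : ∀ t : ℝ, (r * exp (t * I) : ℂ) ≠ 0 := fun t => mul_ne_zero hr' (exp_ne_zero _)
      fun_prop (disch := exact this _)
    · intro t
      apply mem_slitPlane_of_norm_lt_one
      rw [norm_div, norm_mul, norm_exp_tI, mul_one, norm_real, Real.norm_of_nonneg hr.le,
        div_lt_one hr]
      exact h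
    · intro t; rw [exp_per]
  have h2 : HasDeg (fun t : ℝ => (r : ℂ) * exp (t * I)) 1 := by
    have := (hasDeg_const hr').mul (hasDeg_exp 1)
    simpa using this
  have := h2.mul h1
  refine (this.congr (g := fun t : ℝ => c + r * exp (t * I) - p) fun t => ?_)
  have := exp_ne_zero ((t : ℂ) * I)
  field_simp
  ring

/-- Filling a hole across which the function has degree zero. -/
theorem fill {S : Set ℂ} {f : ℂ → ℂ} {c : ℂ} {r : ℝ} (hr : 0 < r) (hS : IsClosed S)
    (hf : ContinuousOn f S) (hf0 : ∀ z ∈ S, f z ≠ 0)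
    (hball : ∀ z ∈ ball c r, z ∉ S) (hdeg : HasDeg (fun t : ℝ => f (c + r * exp (t * I))) 0) :
    ∃ g : ℂ → ℂ, ContinuousOn g (S ∪ closedBall c r) ∧ (∀ z ∈ S ∪ closedBall c r, g z ≠ 0) ∧
      EqOn g f S := by
  classical
  obtain ⟨F, hF, hFe, hFp⟩ := hdeg
  simp only [Int.cast_zero, zero_mul, add_zero] at hFp
  -- descend to the sphere
  let Φ : ℂ → ℂ := fun z => F (arg ((z - c) / r))
  have hr' : (r : ℂ) ≠ 0 := by exact_mod_cast hr.ne'
  have hper : Function.Periodic F (2 * π) := hFp
  let F' : AddCircle (2 * π) → ℂ := hper.lift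
  have hF' : Continuous F' := by
    apply continuous_coinduced_dom.2
    exact hF
  have hΦ : ContinuousOn Φ (sphere c r) := by
    have e : ∀ z ∈ sphere c r, Φ z = F' (arg ((z - c) / r) : ℝ) := fun z _ => rfl
    refine ContinuousOn.congr ?_ e
    apply hF'.comp_continuousOn
    intro z hz
    have hz0 : (z - c) / r ≠ 0 := by
      apply div_ne_zero _ hr'
      rw [mem_sphere, dist_eq_norm] at hz
      intro h0; rw [h0, norm_zero] at hz; linarith
    have h1 := Complex.continuousAt_arg_coe_angle hz0
    have h2 : ContinuousAt (fun z : ℂ => (z - c) / (r : ℂ)) z := by fun_prop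
    exact (ContinuousAt.comp (f := fun z : ℂ => (z - c) / (r : ℂ)) (x := z) h1 h2).continuousWithinAt
  have hΦe : ∀ z ∈ sphere c r, exp (Φ z) = f z := by
    intro z hz
    rw [hFe]
    rw [mem_sphere, dist_eq_norm] at hz
    have h1 := Complex.norm_mul_exp_arg_mul_I ((z - c) / r)
    have h2 : ‖(z - c) / r‖ = 1 := by
      rw [norm_div, hz, norm_real, Real.norm_of_nonneg hr.le, div_self hr.ne']
    rw [h2, ofReal_one, one_mul] at h1
    dsimp only
    rw [h1]
    congr 1
    field_simp
    ring
  -- Tietze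
  obtain ⟨G, hG⟩ := ContinuousMap.exists_restrict_eq (s := sphere c r) isClosed_sphere
    (⟨fun z => Φ z, continuousOn_iff_continuous_domRestrict.1 hΦ⟩ : C(sphere c r, ℂ))
  have hG' : ∀ z ∈ sphere c r, G z = Φ z := fun z hz => by
    have := congrArg (fun h : C(sphere c r, ℂ) => h ⟨z, hz⟩) hG
    exact this
  let g : ℂ → ℂ := fun z => if z ∈ S then f z else exp (G z)
  have hgS : EqOn g f S := fun z hz => by simp [g, hz]
  have hgB : EqOn g (fun z => exp (G z)) (closedBall c r) := by
    intro z hz
    by_cases hzS : z ∈ S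
    · have hzs : z ∈ sphere c r := by
        by_contra hn
        apply hball z _ hzS
        rw [mem_ball]
        exact lt_of_le_of_ne hz hn
      simp only [g, hzS, if_true]
      rw [hG' z hzs, hΦe z hzs]
    · simp [g, hzS]
  refine ⟨g, ?_, ?_, hgS⟩
  · apply ContinuousOn.union_of_isClosed _ _ hS isClosed_closedBall
    · exact hf.congr hgS
    · refine ContinuousOn.congr ?_ hgB
      exact (Complex.continuous_exp.comp G.continuous).continuousOn
  · rintro z (hz | hz)
    · rw [hgS hz]; exact hf0 z hz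
    · rw [hgB hz]; exact exp_ne_zero _

end Pool.Agent.N492.Deg
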