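import Mathlib

/-!
# The spaces `X k = {(w, u) ∈ ℂ × S¹ : w⁵ uᵏ ∈ B}`
-/

set_option autoImplicit false

open Complex Set Topology
open scoped Real

namespace Pool.Agent.N492

/-- The disc of radius 2 minus the open discs of radius 1/2 about 1 and -1. -/
def B : Set ℂ := {v | ‖v‖ ≤ 2 ∧ 1 / 2 ≤ ‖v - 1‖ ∧ 1 / 2 ≤ ‖v + 1‖}

/-- `(w, u) ↦ w⁵ uᵏ` -/
noncomputable def val (k : ℕ) (p : ℂ × Circle) : ℂ := p.1 ^ 5 * (p.2 : ℂ) ^ k

/-- The three-manifold. -/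
def X (k : ℕ) : Set (ℂ × Circle) := {p | val k p ∈ B}

theorem continuous_val (k : ℕ) : Continuous (val k) := by
  unfold val
  fun_prop

theorem isClosed_B : IsClosed B := by
  unfold B
  apply IsClosed.and
  · exact isClosed_le continuous_norm continuous_const
  apply IsClosed.and
  · exact isClosed_le continuous_const (by fun_prop)
  · exact isClosed_le continuous_const (by fun_prop)

theorem isClosed_X (k : ℕ) : IsClosed (X k) := isClosed_B.preimage (continuous_val k)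

theorem norm_val (k : ℕ) (p : ℂ × Circle) : ‖val k p‖ = ‖p.1‖ ^ 5 := by
  simp [val, Circle.norm_coe]

theorem isCompact_X (k : ℕ) : IsCompact (X k) := by
  have h1 : IsCompact (Metric.closedBall (0 : ℂ) 2 ×ˢ (univ : Set Circle)) :=
    (isCompact_closedBall _ _).prod isCompact_univ
  refine h1.of_isClosed_subset (isClosed_X k) ?_
  rintro p ⟨hp, -, -⟩
  refine ⟨?_, mem_univ _⟩
  rw [norm_val] at hp
  rw [Metric.mem_closedBall, dist_zero_right]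
  by_contra hlt
  push Not at hlt
  have : (2 : ℝ) ^ 5 < ‖p.1‖ ^ 5 := pow_lt_pow_left₀ hlt (by norm_num) (by norm_num)
  linarith

/-- The forward monomial map. -/
noncomputable def fwd (q : (ℂ × Circle) × (ℂ × Circle)) : (ℂ × Circle) × (ℂ × Circle) :=
  ((q.1.1 * ((q.2.2⁻¹ : Circle) : ℂ), q.1.2 ^ 2 * q.2.2 ^ 5),
   (q.2.1 * ((q.1.2⁻¹ * (q.2.2⁻¹) ^ 2 : Circle) : ℂ), q.1.2 ^ 5 * q.2.2 ^ 12))

/-- The backward monomial map. -/
noncomputable def bwd (q : (ℂ × Circle) × (ℂ × Circle)) : (ℂ × Circle) × (ℂ × Circle) :=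
  ((q.1.1 * (((q.1.2 ^ 5 * (q.2.2⁻¹) ^ 2 : Circle)) : ℂ), (q.1.2⁻¹) ^ 12 * q.2.2 ^ 5),
   (q.2.1 * ((((q.1.2⁻¹) ^ 12 * q.2.2 ^ 5) * (q.1.2 ^ 5 * (q.2.2⁻¹) ^ 2) ^ 2 : Circle) : ℂ),
     q.1.2 ^ 5 * (q.2.2⁻¹) ^ 2))

theorem continuous_fwd : Continuous fwd := by
  unfold fwd
  fun_prop

theorem continuous_bwd : Continuous bwd := by
  unfold bwd
  fun_prop

theorem bwd_fwd (q) : bwd (fwd q) = q := by
  obtain ⟨⟨w1, u1⟩, ⟨w2, u2⟩⟩ := q
  have hu1 : (u1 : ℂ) ≠ 0 := u1.coe_ne_zero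
  have hu2 : (u2 : ℂ) ≠ 0 := u2.coe_ne_zero
  simp only [fwd, bwd, Prod.mk.injEq]
  refine ⟨⟨?_, ?_⟩, ?_, ?_⟩
  · simp only [Circle.coe_mul, Circle.coe_pow, Circle.coe_inv]
    field_simp
  · ext
    simp only [Circle.coe_mul, Circle.coe_pow, Circle.coe_inv]
    field_simp
  · simp only [Circle.coe_mul, Circle.coe_pow, Circle.coe_inv]
    field_simp
  · ext
    simp only [Circle.coe_mul, Circle.coe_pow, Circle.coe_inv]
    field_simp

theorem fwd_bwd (q) : fwd (bwd q) = q := by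
  obtain ⟨⟨w1, u1⟩, ⟨w2, u2⟩⟩ := q
  have hu1 : (u1 : ℂ) ≠ 0 := u1.coe_ne_zero
  have hu2 : (u2 : ℂ) ≠ 0 := u2.coe_ne_zero
  simp only [fwd, bwd, Prod.mk.injEq]
  refine ⟨⟨?_, ?_⟩, ?_, ?_⟩
  · simp only [Circle.coe_mul, Circle.coe_pow, Circle.coe_inv]
    field_simp
  · ext
    simp only [Circle.coe_mul, Circle.coe_pow, Circle.coe_inv]
    field_simp
  · simp only [Circle.coe_mul, Circle.coe_pow, Circle.coe_inv]
    field_simp
  · ext
    simp only [Circle.coe_mul, Circle.coe_pow, Circle.coe_inv]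
    field_simp

theorem val_fwd1 (q : (ℂ × Circle) × (ℂ × Circle)) : val 1 (fwd q).1 = val 2 q.1 := by
  obtain ⟨⟨w1, u1⟩, ⟨w2, u2⟩⟩ := q
  have hu1 : (u1 : ℂ) ≠ 0 := u1.coe_ne_zero
  have hu2 : (u2 : ℂ) ≠ 0 := u2.coe_ne_zero
  simp only [fwd, val, Circle.coe_mul, Circle.coe_pow, Circle.coe_inv]
  field_simp

theorem val_fwd2 (q : (ℂ × Circle) × (ℂ × Circle)) : val 1 (fwd q).2 = val 2 q.2 := by
  obtain ⟨⟨w1, u1⟩, ⟨w2, u2⟩⟩ := q
  have hu1 : (u1 : ℂ) ≠ 0 := u1.coe_ne_zero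
  have hu2 : (u2 : ℂ) ≠ 0 := u2.coe_ne_zero
  simp only [fwd, val, Circle.coe_mul, Circle.coe_pow, Circle.coe_inv]
  field_simp

theorem val_bwd1 (q : (ℂ × Circle) × (ℂ × Circle)) : val 2 (bwd q).1 = val 1 q.1 := by
  rw [← val_fwd1, fwd_bwd]

theorem val_bwd2 (q : (ℂ × Circle) × (ℂ × Circle)) : val 2 (bwd q).2 = val 1 q.2 := by
  rw [← val_fwd2, fwd_bwd]

/-- The squares are homeomorphic. -/
noncomputable def sqHomeo : (X 2 × X 2) ≃ₜ (X 1 × X 1) where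
  toFun q := (⟨(fwd (q.1, q.2)).1, by
      change val 1 _ ∈ B; rw [val_fwd1]; exact q.1.2⟩, ⟨(fwd (q.1, q.2)).2, by
      change val 1 _ ∈ B; rw [val_fwd2]; exact q.2.2⟩)
  invFun q := (⟨(bwd (q.1, q.2)).1, by
      change val 2 _ ∈ B; rw [val_bwd1]; exact q.1.2⟩, ⟨(bwd (q.1, q.2)).2, by
      change val 2 _ ∈ B; rw [val_bwd2]; exact q.2.2⟩)
  left_inv q := by
    have := bwd_fwd (q.1, q.2)
    ext1 <;> apply Subtype.ext <;> simp [this]
  right_inv q := by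
    have := fwd_bwd (q.1, q.2)
    ext1 <;> apply Subtype.ext <;> simp [this]
  continuous_toFun := by
    have h := continuous_fwd
    fun_prop
  continuous_invFun := by
    have h := continuous_bwd
    fun_prop

end Pool.Agent.N492
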