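import Mathlib
import Pool.Agent.N492.Space
import Pool.Agent.N492.Fill

/-!
# Parametrisations of the boundary tori
-/

set_option autoImplicit false

open Complex Set Topology Metric
open scoped Real

namespace Pool.Agent.N492

open Deg

/-- The parametrisation `(ρ, θ, s) ↦ (ρ e^{i(aθ - ks)}, e^{i(jθ + 5s)})`. -/
noncomputable def P (k : ℕ) (a j : ℤ) (ρ θ s : ℝ) : ℂ × Circle :=
  (ρ * exp ((a * θ - k * s : ℝ) * I), Circle.exp (j * θ + 5 * s))

theorem continuous_P (k : ℕ) (a j : ℤ) :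
    Continuous (fun q : ℝ × ℝ × ℝ => P k a j q.1 q.2.1 q.2.2) := by
  unfold P
  fun_prop

theorem val_P {k : ℕ} {a j : ℤ} (h : 5 * a + k * j = 1) (ρ θ s : ℝ) :
    val k (P k a j ρ θ s) = ρ ^ 5 * exp (θ * I) := by
  unfold val P
  simp only [Circle.coe_exp]
  rw [mul_pow, ← Complex.exp_nat_mul, ← Complex.exp_nat_mul, mul_assoc, ← Complex.exp_add]
  congr 2
  have h' : (5 * a + k * j : ℂ) = 1 := by exact_mod_cast h
  push_cast
  linear_combination (θ * I : ℂ) * h'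

theorem P_add_theta (k : ℕ) (a j : ℤ) (ρ θ s : ℝ) :
    P k a j ρ (θ + 2 * π) s = P k a j ρ θ s := by
  unfold P
  congr 1
  · congr 1
    have : ((a * (θ + 2 * π) - k * s : ℝ) : ℂ) * I
        = (a * θ - k * s : ℝ) * I + a * (2 * π * I) := by push_cast; ring
    rw [this, Complex.exp_add, Complex.exp_int_mul_two_pi_mul_I, mul_one]
  · rw [Circle.exp_eq_exp]
    exact ⟨j, by ring⟩

theorem P_add_int (k : ℕ) (a j : ℤ) (ρ θ s : ℝ) (n : ℤ) :
    P k a j ρ (θ + n * (2 * π)) s = P k a j ρ θ s := by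
  unfold P
  congr 1
  · congr 1
    have : ((a * (θ + n * (2 * π)) - k * s : ℝ) : ℂ) * I
        = (a * θ - k * s : ℝ) * I + ((a * n : ℤ) : ℂ) * (2 * π * I) := by push_cast; ring
    rw [this, Complex.exp_add, Complex.exp_int_mul_two_pi_mul_I, mul_one]
  · rw [Circle.exp_eq_exp]
    exact ⟨j * n, by push_cast; ring⟩

theorem P_add_s (k : ℕ) (a j : ℤ) (ρ θ s : ℝ) :
    P k a j ρ θ (s + 2 * π) = P k a j ρ θ s := by
  unfold P
  congr 1
  · congr 1
    have : ((a * θ - k * (s + 2 * π) : ℝ) : ℂ) * I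
        = (a * θ - k * s : ℝ) * I + ((-k : ℤ) : ℂ) * (2 * π * I) := by push_cast; ring
    rw [this, Complex.exp_add, Complex.exp_int_mul_two_pi_mul_I, mul_one]
  · rw [Circle.exp_eq_exp]
    exact ⟨5, by push_cast; ring⟩

/-- The boundary circles of `B`. -/
noncomputable def cv (i : Fin 3) (φ : ℝ) : ℂ :=
  if i = 0 then 1 + (1 / 2 : ℝ) * exp (φ * I)
  else if i = 1 then -(1 + (1 / 2 : ℝ) * exp (φ * I)) else 2 * exp (φ * I)

/-- The angle function along a boundary circle. -/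
noncomputable def th (i : Fin 3) (φ : ℝ) : ℝ :=
  if i = 0 then arg (1 + (1 / 2 : ℝ) * exp (φ * I))
  else if i = 1 then π + arg (1 + (1 / 2 : ℝ) * exp (φ * I)) else φ

/-- The fifth root of the modulus along a boundary circle. -/
noncomputable def rh (i : Fin 3) (φ : ℝ) : ℝ := ‖cv i φ‖ ^ (1 / 5 : ℝ)

/-- The parametrisation of a boundary torus. -/
noncomputable def Q (k : ℕ) (a j : ℤ) (i : Fin 3) (φ s : ℝ) : ℂ × Circle :=
  P k a j (rh i φ) (th i φ) s

/-- The normalised coordinate of a boundary circle. -/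
noncomputable def xi (i : Fin 3) (v : ℂ) : ℂ :=
  if i = 0 then 2 * (v - 1) else if i = 1 then -2 * (v + 1) else v / 2

theorem xi_cv (i : Fin 3) (φ : ℝ) : xi i (cv i φ) = exp (φ * I) := by
  fin_cases i <;> simp [xi, cv]

theorem eq_cv_of_xi {i : Fin 3} {v : ℂ} {φ : ℝ} (h : xi i v = exp (φ * I)) : v = cv i φ := by
  rw [← xi_cv i φ] at h
  fin_cases i <;> simp [xi] at h <;> exact h

theorem continuous_xi (i : Fin 3) : Continuous (xi i) := by
  unfold xi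
  split_ifs <;> fun_prop

theorem slit (φ : ℝ) : 1 + ((1 / 2 : ℝ) : ℂ) * exp (φ * I) ∈ slitPlane := by
  apply mem_slitPlane_of_norm_lt_one
  rw [norm_mul, norm_exp_tI, mul_one, norm_real]
  norm_num

theorem continuous_cv (i : Fin 3) : Continuous (cv i) := by
  unfold cv
  split_ifs <;> fun_prop

theorem continuous_th (i : Fin 3) : Continuous (th i) := by
  have h : Continuous (fun φ : ℝ => arg (1 + (1 / 2 : ℝ) * exp (φ * I))) := by
    rw [continuous_iff_continuousAt]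
    intro φ
    have h1 := continuousAt_arg (slit φ)
    have h2 : ContinuousAt (fun φ : ℝ => (1 + (1 / 2 : ℝ) * exp (φ * I) : ℂ)) φ := by fun_prop
    exact ContinuousAt.comp (f := fun φ : ℝ => (1 + (1 / 2 : ℝ) * exp (φ * I) : ℂ)) (x := φ) h1 h2
  unfold th
  split_ifs
  · exact h
  · exact continuous_const.add h
  · exact continuous_id

theorem cv_per (i : Fin 3) (φ : ℝ) : cv i (φ + 2 * π) = cv i φ := by
  unfold cv
  rw [exp_per]

theorem cv_ne (i : Fin 3) (φ : ℝ) : cv i φ ≠ 0 := by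
  have := slitPlane_ne_zero (slit φ)
  unfold cv
  split_ifs
  · exact this
  · exact neg_ne_zero.2 this
  · exact mul_ne_zero two_ne_zero (exp_ne_zero _)

theorem continuous_rh (i : Fin 3) : Continuous (rh i) := by
  unfold rh
  have := continuous_cv i
  have h2 : ∀ φ, ‖cv i φ‖ ≠ 0 := fun φ => norm_ne_zero_iff.2 (cv_ne i φ)
  apply this.norm.rpow_const
  intro φ; left; exact h2 φ

theorem rh_pow (i : Fin 3) (φ : ℝ) : rh i φ ^ 5 = ‖cv i φ‖ := by
  unfold rh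
  rw [← Real.rpow_natCast, ← Real.rpow_mul (norm_nonneg _)]
  norm_num

theorem rh_pos (i : Fin 3) (φ : ℝ) : 0 < rh i φ :=
  Real.rpow_pos_of_pos (norm_pos_iff.2 (cv_ne i φ)) _

theorem rh_per (i : Fin 3) (φ : ℝ) : rh i (φ + 2 * π) = rh i φ := by
  unfold rh; rw [cv_per]

/-- `th` is the argument of `cv`. -/
theorem cv_eq (i : Fin 3) (φ : ℝ) : cv i φ = ‖cv i φ‖ * exp (th i φ * I) := by
  unfold cv th
  split_ifs
  · rw [Complex.norm_mul_exp_arg_mul_I]
  · have := Complex.norm_mul_exp_arg_mul_I (1 + ((1 / 2 : ℝ) : ℂ) * exp (φ * I))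
    have e : (((π + arg (1 + (1 / 2 : ℝ) * exp (φ * I)) : ℝ) : ℂ)) * I
      = π * I + (arg (1 + (1 / 2 : ℝ) * exp (φ * I)) : ℝ) * I := by push_cast; ring
    rw [e, exp_add, exp_pi_mul_I, norm_neg]
    linear_combination this
  · rw [norm_mul, norm_exp_tI, mul_one]
    norm_num

/-- The winding of `th`. -/
def del (i : Fin 3) : ℤ := if i = 2 then 1 else 0

theorem th_per (i : Fin 3) (φ : ℝ) : th i (φ + 2 * π) = th i φ + del i * (2 * π) := by
  fin_cases i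
  · simp only [th, del]
    simp
    rw [show ((φ : ℂ) + 2 * π) * I = ((φ + 2 * π : ℝ) : ℂ) * I by push_cast; ring, exp_per]
  · simp only [th, del]
    simp
    rw [show ((φ : ℂ) + 2 * π) * I = ((φ + 2 * π : ℝ) : ℂ) * I by push_cast; ring, exp_per]
  · simp [th, del]

theorem val_Q {k : ℕ} {a j : ℤ} (h : 5 * a + k * j = 1) (i : Fin 3) (φ s : ℝ) :
    val k (Q k a j i φ s) = cv i φ := by
  unfold Q
  rw [val_P h, ← ofReal_pow, rh_pow, ← cv_eq]

theorem Q_per1 (k : ℕ) (a j : ℤ) (i : Fin 3) (φ s : ℝ) :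
    Q k a j i (φ + 2 * π) s = Q k a j i φ s := by
  unfold Q
  rw [rh_per, th_per, P_add_int]

theorem Q_per2 (k : ℕ) (a j : ℤ) (i : Fin 3) (φ s : ℝ) :
    Q k a j i φ (s + 2 * π) = Q k a j i φ s := by
  unfold Q
  rw [P_add_s]

theorem continuous_Q (k : ℕ) (a j : ℤ) (i : Fin 3) :
    Continuous (fun q : ℝ × ℝ => Q k a j i q.1 q.2) := by
  unfold Q
  have h1 := continuous_rh i
  have h2 := continuous_th i
  exact (continuous_P k a j).comp
    (f := fun q : ℝ × ℝ => (rh i q.1, th i q.1, q.2)) (by fun_prop)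

theorem cv_mem_B (i : Fin 3) (φ : ℝ) : cv i φ ∈ B := by
  have hn : ‖((1 / 2 : ℝ) : ℂ) * exp (φ * I)‖ = 1 / 2 := by
    rw [norm_mul, norm_exp_tI, mul_one, norm_real]; norm_num
  have h2 : ‖(2 : ℂ) * exp (φ * I)‖ = 2 := by
    rw [norm_mul, norm_exp_tI, mul_one]; norm_num
  set e : ℂ := ((1 / 2 : ℝ) : ℂ) * exp (φ * I) with he
  fin_cases i
  · simp only [cv, Fin.zero_eta, if_true, ← he]
    refine ⟨?_, ?_, ?_⟩
    · calc ‖1 + e‖ ≤ ‖(1 : ℂ)‖ + ‖e‖ := norm_add_le _ _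
        _ ≤ 2 := by rw [hn]; norm_num
    · rw [add_sub_cancel_left, hn]
    · calc 1 / 2 ≤ ‖(2 : ℂ)‖ - ‖-e‖ := by rw [norm_neg, hn]; norm_num
        _ ≤ ‖2 - -e‖ := norm_sub_norm_le _ _
        _ = ‖1 + e + 1‖ := by congr 1; ring
  · simp only [cv, Fin.mk_one, Fin.isValue, one_ne_zero, if_false, if_true, ← he]
    refine ⟨?_, ?_, ?_⟩
    · rw [norm_neg]
      calc ‖1 + e‖ ≤ ‖(1 : ℂ)‖ + ‖e‖ := norm_add_le _ _
        _ ≤ 2 := by rw [hn]; norm_num
    · calc 1 / 2 ≤ ‖(-2 : ℂ)‖ - ‖e‖ := by rw [norm_neg, hn]; norm_num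
        _ ≤ ‖-2 - e‖ := norm_sub_norm_le _ _
        _ = ‖-(1 + e) - 1‖ := by congr 1; ring
    · rw [show -(1 + e) + 1 = -e by ring, norm_neg, hn]
  · simp only [cv, Fin.reduceFinMk, Fin.isValue, Fin.reduceEq, if_false]
    refine ⟨h2.le, ?_, ?_⟩
    · calc 1 / 2 ≤ ‖(2 : ℂ) * exp (φ * I)‖ - ‖(1 : ℂ)‖ := by rw [h2]; norm_num
        _ ≤ _ := norm_sub_norm_le _ _
    · calc 1 / 2 ≤ ‖(2 : ℂ) * exp (φ * I)‖ - ‖(-1 : ℂ)‖ := by rw [h2, norm_neg]; norm_num
        _ ≤ ‖(2 : ℂ) * exp (φ * I) - (-1)‖ := norm_sub_norm_le _ _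
        _ = _ := by congr 1; ring

theorem Q_mem {k : ℕ} {a j : ℤ} (h : 5 * a + k * j = 1) (i : Fin 3) (φ s : ℝ) :
    Q k a j i φ s ∈ X k := by
  change val k _ ∈ B
  rw [val_Q h]
  exact cv_mem_B i φ

/-- The fibre coordinate. -/
noncomputable def yc (a j : ℤ) (p : ℂ × Circle) : ℂ := (p.1 / ‖p.1‖) ^ (-j) * (p.2 : ℂ) ^ a

/-- The boundary tori. -/
def T (k : ℕ) (i : Fin 3) : Set (ℂ × Circle) := {p | ‖xi i (val k p)‖ = 1}

theorem Q_mem_T {k : ℕ} {a j : ℤ} (h : 5 * a + k * j = 1) (i : Fin 3) (φ s : ℝ) :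
    Q k a j i φ s ∈ T k i := by
  change ‖xi i (val k _)‖ = 1
  rw [val_Q h, xi_cv, norm_exp_tI]

theorem xi_norm_eq {i : Fin 3} {v : ℂ} (h : ‖xi i v‖ = 1) : ∃ φ : ℝ, xi i v = exp (φ * I) := by
  refine ⟨arg (xi i v), ?_⟩
  have := Complex.norm_mul_exp_arg_mul_I (xi i v)
  rw [h, ofReal_one, one_mul] at this
  exact this.symm

theorem T_sub_X (k : ℕ) (i : Fin 3) : T k i ⊆ X k := by
  intro p hp
  obtain ⟨φ, hφ⟩ := xi_norm_eq hp
  change val k p ∈ B
  rw [eq_cv_of_xi hφ]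
  exact cv_mem_B i φ

theorem fst_ne_of_T {k : ℕ} {i : Fin 3} {p : ℂ × Circle} (hp : p ∈ T k i) : p.1 ≠ 0 := by
  obtain ⟨φ, hφ⟩ := xi_norm_eq hp
  have h1 := eq_cv_of_xi hφ
  intro h0
  have : val k p = 0 := by simp [val, h0]
  rw [this] at h1
  exact cv_ne i φ h1.symm

theorem circle_alg {k : ℕ} {a j : ℤ} (h : 5 * a + k * j = 1) (o u : Circle) :
    (o ^ (5 : ℤ) * u ^ (k : ℤ)) ^ a * (o ^ (-j) * u ^ a) ^ (-(k : ℤ)) = o := by
  rw [mul_zpow, mul_zpow, ← zpow_mul, ← zpow_mul, ← zpow_mul, ← zpow_mul, mul_mul_mul_comm,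
    ← zpow_add, ← zpow_add]
  have e1 : 5 * a + -j * -(k : ℤ) = 1 := by linarith
  have e2 : (k : ℤ) * a + a * -(k : ℤ) = 0 := by ring
  rw [e1, e2]; simp

theorem circle_alg2 {k : ℕ} {a j : ℤ} (h : 5 * a + k * j = 1) (o u : Circle) :
    (o ^ (5 : ℤ) * u ^ (k : ℤ)) ^ j * (o ^ (-j) * u ^ a) ^ (5 : ℤ) = u := by
  rw [mul_zpow, mul_zpow, ← zpow_mul, ← zpow_mul, ← zpow_mul, ← zpow_mul, mul_mul_mul_comm,
    ← zpow_add, ← zpow_add]
  have e1 : 5 * j + -j * 5 = 0 := by ring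
  have e2 : (k : ℤ) * j + a * 5 = 1 := by linarith
  rw [e1, e2]; simp

/-- Reconstruction of a point of a boundary torus from its coordinates. -/
theorem eq_Q {k : ℕ} {a j : ℤ} (h : 5 * a + k * j = 1) {i : Fin 3} {p : ℂ × Circle} {φ s : ℝ}
    (h1 : xi i (val k p) = exp (φ * I)) (h2 : yc a j p = exp (s * I)) :
    p = Q k a j i φ s := by
  have hv := eq_cv_of_xi h1
  have hT : p ∈ T k i := by
    change ‖xi i (val k p)‖ = 1
    rw [h1, norm_exp_tI]
  have hw := fst_ne_of_T hT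
  have hwn : ‖p.1‖ ≠ 0 := norm_ne_zero_iff.2 hw
  have hrho : rh i φ = ‖p.1‖ := by
    unfold rh
    rw [← hv, norm_val, ← Real.rpow_natCast, ← Real.rpow_mul (norm_nonneg _)]
    norm_num
  -- the unit part of `p.1`
  have hon : ‖p.1 / ‖p.1‖‖ = 1 := by
    rw [norm_div, norm_real, norm_norm, div_self hwn]
  let o : Circle := ⟨p.1 / ‖p.1‖, by simpa [Submonoid.unitSphere] using hon⟩
  have ho : (o : ℂ) = p.1 / ‖p.1‖ := rfl
  have hwn' : ((‖p.1‖ : ℝ) : ℂ) ≠ 0 := by exact_mod_cast hwn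
  have e1 : o ^ (5 : ℤ) * p.2 ^ (k : ℤ) = Circle.exp (th i φ) := by
    ext
    simp only [Circle.coe_mul, Circle.coe_zpow, ho, Circle.coe_exp]
    have hc := cv_eq i φ
    rw [← hv] at hc
    have hval : val k p = p.1 ^ 5 * (p.2 : ℂ) ^ k := rfl
    rw [norm_val, hval] at hc
    push_cast at hc
    rw [zpow_natCast, show (5 : ℤ) = ((5 : ℕ) : ℤ) by norm_num, zpow_natCast, div_pow,
      div_mul_eq_mul_div, hc]
    field_simp
  have e2 : o ^ (-j) * p.2 ^ a = Circle.exp s := by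
    ext
    simp only [Circle.coe_mul, Circle.coe_zpow, ho, Circle.coe_exp]
    exact h2
  have e3 := circle_alg h o p.2
  have e4 := circle_alg2 h o p.2
  rw [e1, e2] at e3 e4
  unfold Q P
  have hfst : p.1 = (rh i φ : ℂ) * exp ((a * th i φ - k * s : ℝ) * I) := by
    have : exp ((a * th i φ - k * s : ℝ) * I) = (o : ℂ) := by
      rw [← e3, Circle.coe_mul, Circle.coe_zpow, Circle.coe_zpow, Circle.coe_exp, Circle.coe_exp,
        ← exp_int_mul, ← exp_int_mul, ← exp_add]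
      congr 1
      push_cast; ring
    rw [this, ho, hrho]
    field_simp
  have hsnd : p.2 = Circle.exp (j * th i φ + 5 * s) := by
    rw [← e4]
    ext
    rw [Circle.coe_mul, Circle.coe_zpow, Circle.coe_zpow, Circle.coe_exp, Circle.coe_exp,
        ← exp_int_mul, ← exp_int_mul, ← exp_add, Circle.coe_exp]
    congr 1
    push_cast; ring
  exact Prod.ext hfst hsnd

theorem yc_Q {k : ℕ} {a j : ℤ} (h : 5 * a + k * j = 1) (i : Fin 3) (φ s : ℝ) :
    yc a j (Q k a j i φ s) = exp (s * I) := by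
  unfold yc Q P
  have hr := rh_pos i φ
  have hr' : (rh i φ : ℂ) ≠ 0 := by exact_mod_cast hr.ne'
  dsimp only
  rw [norm_mul, norm_exp_tI, mul_one, norm_real, Real.norm_of_nonneg hr.le,
    mul_div_cancel_left₀ _ hr', Circle.coe_exp, ← exp_int_mul, ← exp_int_mul, ← exp_add]
  congr 1
  have h' : (5 * a + k * j : ℂ) = 1 := by exact_mod_cast h
  push_cast
  linear_combination (s * I : ℂ) * h'

end Pool.Agent.N492
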