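import Mathlib
import Pool.Agent.N492.Param

/-!
# The relation between the degrees on the three boundary tori
-/

set_option autoImplicit false

open Complex Set Topology Metric
open scoped Real

namespace Pool.Agent.N492

open Deg

/-- The invariants of a nowhere vanishing function on `X k`. -/
def Inv (k : ℕ) (a j : ℤ) (α : ℂ × Circle → ℂ) (d e₁ e₂ : ℤ) : Prop :=
  HasDeg (fun t => α (0, Circle.exp t)) d ∧
  HasBideg (fun φ s => α (Q k a j 0 φ s)) e₁ (5 * d) ∧
  HasBideg (fun φ s => α (Q k a j 1 φ s)) e₂ (5 * d) ∧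
  HasBideg (fun φ s => α (Q k a j 2 φ s)) (e₁ + e₂ + j * d) (5 * d)

theorem small_mem_B {v : ℂ} (h : ‖v‖ ≤ 1 / 2) : v ∈ B := by
  refine ⟨by linarith, ?_, ?_⟩
  · have := norm_sub_norm_le (1 : ℂ) v
    rw [norm_one] at this
    rw [norm_sub_rev]; linarith
  · have := norm_sub_norm_le (1 : ℂ) (-v)
    rw [norm_one, norm_neg, sub_neg_eq_add, add_comm] at this
    linarith

theorem center_mem (k : ℕ) (u : Circle) : ((0 : ℂ), u) ∈ X k := by
  change val k _ ∈ B
  apply small_mem_B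
  simp [val]

/-- Base angles on the boundary circles. -/
noncomputable def ba (i : Fin 3) : ℝ := if i = 2 then π / 2 else π

theorem cv_ba (i : Fin 3) : cv i (ba i) = if i = 0 then 1 / 2 else if i = 1 then -(1 / 2) else 2 * I := by
  fin_cases i
  · simp [cv, ba, exp_pi_mul_I]; norm_num
  · simp [cv, ba, exp_pi_mul_I]; norm_num
  · simp [cv, ba, Complex.exp_pi_div_two_mul_I]

theorem star (i : Fin 3) {t : ℝ} (h0 : 0 ≤ t) (h1 : t ≤ 1) : (t : ℂ) * cv i (ba i) ∈ B := by
  rw [cv_ba]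
  fin_cases i
  · apply small_mem_B
    simp only [Fin.zero_eta, if_true, norm_mul, norm_real, Real.norm_of_nonneg h0]
    norm_num; linarith
  · apply small_mem_B
    simp only [Fin.mk_one, Fin.isValue, one_ne_zero, if_false, if_true, norm_mul, norm_real,
      Real.norm_of_nonneg h0, norm_neg]
    norm_num; linarith
  · simp only [Fin.reduceFinMk, Fin.isValue, Fin.reduceEq, if_false]
    refine ⟨?_, ?_, ?_⟩
    · simp [Real.norm_of_nonneg h0]; linarith
    · have := Complex.abs_re_le_norm ((t : ℂ) * (2 * I) - 1)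
      simp at this
      linarith
    · have := Complex.abs_re_le_norm ((t : ℂ) * (2 * I) + 1)
      simp at this
      linarith

theorem P_zero (k : ℕ) (a j : ℤ) (θ s : ℝ) : P k a j 0 θ s = (0, Circle.exp (j * θ + 5 * s)) := by
  simp [P]

/-- The degree along the fibres of the boundary tori. -/
theorem fibre_deg {k : ℕ} {a j : ℤ} (h : 5 * a + k * j = 1) {α : ℂ × Circle → ℂ}
    (hα : ContinuousOn α (X k)) (hα0 : ∀ p ∈ X k, α p ≠ 0) {d : ℤ}
    (hd : HasDeg (fun t => α (0, Circle.exp t)) d) (i : Fin 3) :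
    HasDeg (fun s => α (Q k a j i (ba i) s)) (5 * d) := by
  have hr := rh_pos i (ba i)
  have hmem : ∀ r ∈ Icc (0 : ℝ) (rh i (ba i)), ∀ s, P k a j r (th i (ba i)) s ∈ X k := by
    intro r hr1 s
    change val k _ ∈ B
    rw [val_P h]
    have hc := cv_eq i (ba i)
    have hn : (‖cv i (ba i)‖ : ℂ) ≠ 0 := by
      exact_mod_cast norm_ne_zero_iff.2 (cv_ne i (ba i))
    have e : (r : ℂ) ^ 5 * exp (th i (ba i) * I)
        = ((r ^ 5 / ‖cv i (ba i)‖ : ℝ) : ℂ) * cv i (ba i) := by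
      rw [hc]
      rw [← hc]
      push_cast
      field_simp
      rw [mul_assoc, mul_comm (exp _), ← hc]
    rw [e]
    apply star i
    · apply div_nonneg (pow_nonneg hr1.1 _) (norm_nonneg _)
    · rw [div_le_one (norm_pos_iff.2 (cv_ne i _)), ← rh_pow]
      exact pow_le_pow_left₀ hr1.1 hr1.2 _
  have h0 : HasDeg (fun s => α (P k a j 0 (th i (ba i)) s)) (5 * d) := by
    have := hd.reparam 5 (j * th i (ba i))
    refine this.congr fun s => ?_
    rw [P_zero]; push_cast; rfl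
  refine HasDeg.homotopy_Icc (a := 0) (b := rh i (ba i)) hr.le
    (H := fun r s => α (P k a j r (th i (ba i)) s)) ?_ ?_ ?_ (r₀ := 0) (r₁ := rh i (ba i))
    ⟨le_rfl, hr.le⟩ ⟨hr.le, le_rfl⟩ h0
  · apply hα.comp (t := X k)
    · have := continuous_P k a j
      exact (this.comp (f := fun q : ℝ × ℝ => (q.1, th i (ba i), q.2)) (by fun_prop)).continuousOn
    · rintro ⟨r, s⟩ ⟨hr1, -⟩
      exact hmem r hr1 s
  · intro r hr1 s; exact hα0 _ (hmem r hr1 s)
  · intro r _ s
    rw [P_add_s]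

theorem hasBideg_Q {k : ℕ} {a j : ℤ} (h : 5 * a + k * j = 1) {α : ℂ × Circle → ℂ} {i : Fin 3}
    (hα : ContinuousOn α (T k i)) (hα0 : ∀ p ∈ T k i, α p ≠ 0) :
    ∃ e c, HasBideg (fun φ s => α (Q k a j i φ s)) e c := by
  apply exists_hasBideg
  · exact hα.comp_continuous (continuous_Q k a j i) (fun q => Q_mem_T h i _ _)
  · intro φ s; exact hα0 _ (Q_mem_T h i _ _)
  · intro φ s; rw [Q_per1]
  · intro φ s; rw [Q_per2]

theorem bideg_exists {k : ℕ} {a j : ℤ} (h : 5 * a + k * j = 1) {α : ℂ × Circle → ℂ}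
    (hα : ContinuousOn α (X k)) (hα0 : ∀ p ∈ X k, α p ≠ 0) {d : ℤ}
    (hd : HasDeg (fun t => α (0, Circle.exp t)) d) (i : Fin 3) :
    ∃ e, HasBideg (fun φ s => α (Q k a j i φ s)) e (5 * d) := by
  obtain ⟨e, c, hec⟩ := hasBideg_Q h (hα.mono (T_sub_X k i)) (fun p hp => hα0 p (T_sub_X k i hp))
  refine ⟨e, ?_⟩
  have h1 := hec.right (ba i)
  have h2 := fibre_deg h hα hα0 hd i
  rwa [h1.unique h2] at hec

end Pool.Agent.N492
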