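import Mathlib
import Pool.Agent.N492.Rel

/-!
# The planar relation
-/

set_option autoImplicit false

open Complex Set Topology Metric
open scoped Real

namespace Pool.Agent.N492

open Deg

theorem exp_arg {v : ℂ} (hv : v ≠ 0) : exp (arg v * I) = v / ‖v‖ := by
  have := Complex.norm_mul_exp_arg_mul_I v
  have hn : (‖v‖ : ℂ) ≠ 0 := by exact_mod_cast norm_ne_zero_iff.2 hv
  rw [eq_div_iff hn, mul_comm]; exact this

theorem circle_inducing : Topology.IsInducing (fun u : Circle => (u : ℂ)) := ⟨rfl⟩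

/-- A section of `val` away from zero. -/
noncomputable def sec (k : ℕ) (a j : ℤ) (v : ℂ) : ℂ × Circle :=
  P k a j (‖v‖ ^ (1 / 5 : ℝ)) (arg v) 0

theorem val_sec {k : ℕ} {a j : ℤ} (h : 5 * a + k * j = 1) (v : ℂ) :
    val k (sec k a j v) = v := by
  unfold sec
  rw [val_P h, ← ofReal_pow, ← Real.rpow_natCast, ← Real.rpow_mul (norm_nonneg _)]
  norm_num

theorem sec_eq (k : ℕ) (a j : ℤ) {v : ℂ} {ρ θ : ℝ} (hρ : 0 < ρ) (hv : v = ρ ^ 5 * exp (θ * I)) :
    sec k a j v = P k a j ρ θ 0 := by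
  have hn : ‖v‖ = ρ ^ 5 := by
    rw [hv, norm_mul, norm_exp_tI, mul_one, ← ofReal_pow, norm_real,
      Real.norm_of_nonneg (pow_nonneg hρ.le _)]
  have hv0 : v ≠ 0 := by
    rw [← norm_ne_zero_iff, hn]; exact pow_ne_zero _ hρ.ne'
  unfold sec
  have e1 : ‖v‖ ^ (1 / 5 : ℝ) = ρ := by
    rw [hn, ← Real.rpow_natCast, ← Real.rpow_mul hρ.le]; norm_num
  rw [e1]
  have e2 : exp (arg v * I) = exp (θ * I) := by
    rw [exp_arg hv0, hn, hv]
    have : (ρ : ℂ) ≠ 0 := by exact_mod_cast hρ.ne'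
    push_cast
    field_simp
  obtain ⟨n, hn⟩ := Complex.exp_eq_exp_iff_exists_int.1 e2
  have e3 : arg v = θ + n * (2 * π) := by
    have : ((arg v : ℝ) : ℂ) * I = ((θ + n * (2 * π) : ℝ) : ℂ) * I := by
      rw [hn]; push_cast; ring
    exact_mod_cast mul_right_cancel₀ I_ne_zero this
  rw [e3, P_add_int]

theorem sec_cv (k : ℕ) (a j : ℤ) (i : Fin 3) (φ : ℝ) : sec k a j (cv i φ) = Q k a j i φ 0 := by
  unfold Q
  apply sec_eq k a j (rh_pos i φ)
  rw [← ofReal_pow, rh_pow, ← cv_eq]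

theorem continuousOn_sec (k : ℕ) (a j : ℤ) : ContinuousOn (sec k a j) {v | v ≠ 0} := by
  have hn : ContinuousOn (fun v : ℂ => v / (‖v‖ : ℂ)) {v | v ≠ 0} := by
    apply ContinuousOn.div continuousOn_id (by fun_prop)
    intro v hv; exact_mod_cast norm_ne_zero_iff.2 hv
  have hn0 : ∀ v ∈ {v : ℂ | v ≠ 0}, v / (‖v‖ : ℂ) ≠ 0 := fun v hv =>
    div_ne_zero hv (by exact_mod_cast norm_ne_zero_iff.2 hv)
  have hz : ∀ m : ℤ, ContinuousOn (fun v : ℂ => (v / (‖v‖ : ℂ)) ^ m) {v | v ≠ 0} := fun m =>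
    ContinuousOn.zpow₀ hn m (fun v hv => Or.inl (hn0 v hv))
  apply ContinuousOn.prodMk
  · have e : EqOn (fun v : ℂ => (sec k a j v).1)
      (fun v => ((‖v‖ ^ (1 / 5 : ℝ) : ℝ) : ℂ) * (v / (‖v‖ : ℂ)) ^ a) {v | v ≠ 0} := by
      intro v hv
      simp only [sec, P]
      rw [← exp_arg hv, ← exp_int_mul]
      congr 2
      push_cast; ring
    refine ContinuousOn.congr ?_ e
    apply ContinuousOn.mul _ (hz a)
    apply Complex.continuous_ofReal.comp_continuousOn
    apply ContinuousOn.rpow_const (by fun_prop)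
    intro v _; right; norm_num
  · rw [circle_inducing.continuousOn_iff]
    have e : EqOn (fun v : ℂ => (((sec k a j v).2 : Circle) : ℂ))
      (fun v => (v / (‖v‖ : ℂ)) ^ j) {v | v ≠ 0} := by
      intro v hv
      simp only [sec, P]
      rw [← exp_arg hv, ← exp_int_mul, Circle.coe_exp]
      congr 1
      push_cast; ring
    exact ContinuousOn.congr (hz j) e

theorem planar {k : ℕ} {a j : ℤ} (h : 5 * a + k * j = 1) {α : ℂ × Circle → ℂ}
    (hα : ContinuousOn α (X k)) (hα0 : ∀ p ∈ X k, α p ≠ 0) {d e₁ e₂ e₃ : ℤ}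
    (hd : HasDeg (fun t => α (0, Circle.exp t)) d)
    (h1 : HasDeg (fun φ => α (Q k a j 0 φ 0)) e₁) (h2 : HasDeg (fun φ => α (Q k a j 1 φ 0)) e₂)
    (h3 : HasDeg (fun φ => α (Q k a j 2 φ 0)) e₃) : e₃ = e₁ + e₂ + j * d := by
  let f : ℂ → ℂ := fun v =>
    α (sec k a j v) * v ^ (-(j * d)) * (v - 1) ^ (-e₁) * (v - (-1)) ^ (-e₂)
  let S : Set ℂ := {v | v ∈ B ∧ 1 / 4 ≤ ‖v‖}
  have hSne : ∀ v ∈ S, v ≠ 0 := by
    rintro v ⟨-, hv⟩ rfl
    rw [norm_zero] at hv; linarith
  have hS1 : ∀ v ∈ S, v - 1 ≠ 0 := by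
    rintro v ⟨⟨-, hv, -⟩, -⟩ h0
    rw [h0, norm_zero] at hv; linarith
  have hS2 : ∀ v ∈ S, v - (-1) ≠ 0 := by
    rintro v ⟨⟨-, -, hv⟩, -⟩ h0
    rw [sub_neg_eq_add] at h0
    rw [h0, norm_zero] at hv; linarith
  have hsm : ∀ v ∈ S, sec k a j v ∈ X k := by
    rintro v ⟨hv, -⟩
    change val k _ ∈ B
    rwa [val_sec h]
  have hSc : IsClosed S := isClosed_B.inter (isClosed_le continuous_const continuous_norm)
  have hf : ContinuousOn f S := by
    apply ContinuousOn.mul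
    apply ContinuousOn.mul
    apply ContinuousOn.mul
    · exact hα.comp ((continuousOn_sec k a j).mono hSne) hsm
    · exact continuousOn_id.zpow₀ _ (fun v hv => Or.inl (hSne v hv))
    · exact ContinuousOn.zpow₀ (by fun_prop) _ (fun v hv => Or.inl (hS1 v hv))
    · exact ContinuousOn.zpow₀ (by fun_prop) _ (fun v hv => Or.inl (hS2 v hv))
  have hf0 : ∀ v ∈ S, f v ≠ 0 := by
    intro v hv
    apply mul_ne_zero
    apply mul_ne_zero
    apply mul_ne_zero
    · exact hα0 _ (hsm v hv)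
    · exact zpow_ne_zero _ (hSne v hv)
    · exact zpow_ne_zero _ (hS1 v hv)
    · exact zpow_ne_zero _ (hS2 v hv)
  -- loops
  have loop : ∀ (c : ℂ) (r : ℝ) (m n0 n1 n2 : ℤ),
      HasDeg (fun t : ℝ => α (sec k a j (c + r * exp (t * I)))) m →
      HasDeg (fun t : ℝ => c + r * exp (t * I) - 0) n0 →
      HasDeg (fun t : ℝ => c + r * exp (t * I) - 1) n1 →
      HasDeg (fun t : ℝ => c + r * exp (t * I) - (-1)) n2 →
      HasDeg (fun t : ℝ => f (c + r * exp (t * I)))
        (m + (-(j * d)) * n0 + (-e₁) * n1 + (-e₂) * n2) := by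
    intro c r m n0 n1 n2 a0 a1 a2 a3
    refine ((((a0.mul (a1.zpow (-(j * d)))).mul (a2.zpow (-e₁))).mul (a3.zpow (-e₂)))).congr
      fun t => ?_
    simp only [f, sub_zero]
  -- around 1
  have d1 : HasDeg (fun t : ℝ => f (1 + (1 / 2 : ℝ) * exp (t * I))) 0 := by
    have := loop 1 (1 / 2) e₁ 0 1 0 (h1.congr fun t => by
        rw [← sec_cv]; simp [cv])
      (hasDeg_outside (by norm_num) (by norm_num)) (hasDeg_inside (by norm_num))
      (hasDeg_outside (by norm_num) (by norm_num))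
    simpa using this
  have d2 : HasDeg (fun t : ℝ => f (-1 + (1 / 2 : ℝ) * exp (t * I))) 0 := by
    have := loop (-1) (1 / 2) e₂ 0 0 1 ((h2.shift π).congr fun t => by
        rw [← sec_cv]
        congr 2
        simp only [cv, one_ne_zero, if_false, if_true, Fin.isValue]
        have : ((π + t : ℝ) : ℂ) * I = π * I + t * I := by push_cast; ring
        rw [this, exp_add, exp_pi_mul_I]; ring)
      (hasDeg_outside (by norm_num) (by norm_num)) (hasDeg_outside (by norm_num) (by norm_num))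
      (hasDeg_inside (by norm_num))
    simpa using this
  have d0 : HasDeg (fun t : ℝ => f (0 + (1 / 4 : ℝ) * exp (t * I))) 0 := by
    set R : ℝ := (1 / 4 : ℝ) ^ (1 / 5 : ℝ) with hR
    have hRpos : 0 < R := Real.rpow_pos_of_pos (by norm_num) _
    have hR5 : R ^ 5 = 1 / 4 := by
      rw [hR, ← Real.rpow_natCast, ← Real.rpow_mul (by norm_num)]; norm_num
    have hm : ∀ r ∈ Icc (0 : ℝ) R, ∀ t, P k a j r t 0 ∈ X k := by
      intro r hr t
      change val k _ ∈ B
      rw [val_P h]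
      apply small_mem_B
      rw [norm_mul, norm_exp_tI, mul_one, ← ofReal_pow, norm_real,
        Real.norm_of_nonneg (pow_nonneg hr.1 _)]
      calc r ^ 5 ≤ R ^ 5 := pow_le_pow_left₀ hr.1 hr.2 _
        _ ≤ 1 / 2 := by rw [hR5]; norm_num
    have hz : HasDeg (fun t => α (P k a j 0 t 0)) (j * d) := by
      have := hd.reparam j 0
      refine this.congr fun t => ?_
      rw [P_zero]; simp
    have hz2 : HasDeg (fun t => α (P k a j R t 0)) (j * d) := by
      refine HasDeg.homotopy_Icc (a := 0) (b := R) hRpos.le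
        (H := fun r t => α (P k a j r t 0)) ?_ ?_ ?_ (r₀ := 0) (r₁ := R)
        ⟨le_rfl, hRpos.le⟩ ⟨hRpos.le, le_rfl⟩ hz
      · apply hα.comp (t := X k)
        · have := continuous_P k a j
          exact (this.comp (f := fun q : ℝ × ℝ => (q.1, q.2, (0 : ℝ))) (by fun_prop)).continuousOn
        · rintro ⟨r, t⟩ ⟨hr1, -⟩
          exact hm r hr1 t
      · intro r hr1 t; exact hα0 _ (hm r hr1 t)
      · intro r _ t
        rw [P_add_theta]
    have := loop 0 (1 / 4) (j * d) 1 0 0 (hz2.congr fun t => by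
        congr 1
        apply sec_eq k a j hRpos
        rw [← ofReal_pow, hR5]; push_cast; ring)
      (hasDeg_inside (by norm_num)) (hasDeg_outside (by norm_num) (by norm_num))
      (hasDeg_outside (by norm_num) (by norm_num))
    simpa using this
  have d3 : HasDeg (fun t : ℝ => f (0 + (2 : ℝ) * exp (t * I))) (e₃ - j * d - e₁ - e₂) := by
    have := loop 0 2 e₃ 1 1 1 (h3.congr fun t => by
        rw [← sec_cv]; simp [cv])
      (hasDeg_inside (by norm_num)) (hasDeg_inside (by norm_num))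
      (hasDeg_inside (by norm_num))
    convert this using 1
    ring
  -- memberships
  have hS0 : ∀ t : ℝ, (0 : ℂ) + (1 / 4 : ℝ) * exp (t * I) ∈ S := by
    intro t
    have hn : ‖(0 : ℂ) + (1 / 4 : ℝ) * exp (t * I)‖ = 1 / 4 := by
      rw [zero_add, norm_mul, norm_exp_tI, mul_one, norm_real]; norm_num
    exact ⟨small_mem_B (by rw [hn]; norm_num), hn.ge⟩
  have hSm : ∀ t : ℝ, (-1 : ℂ) + (1 / 2 : ℝ) * exp (t * I) ∈ S := by
    intro t
    have e : (-1 : ℂ) + (1 / 2 : ℝ) * exp (t * I) = cv 1 (π + t) := by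
      simp only [cv, one_ne_zero, if_false, if_true, Fin.isValue]
      have : ((π + t : ℝ) : ℂ) * I = π * I + t * I := by push_cast; ring
      rw [this, exp_add, exp_pi_mul_I]; ring
    refine ⟨e ▸ cv_mem_B 1 (π + t), ?_⟩
    have hn : ‖((1 / 2 : ℝ) : ℂ) * exp (t * I)‖ = 1 / 2 := by
      rw [norm_mul, norm_exp_tI, mul_one, norm_real]; norm_num
    have := norm_sub_norm_le (-1 : ℂ) (-(((1 / 2 : ℝ) : ℂ) * exp (t * I)))
    rw [norm_neg, norm_one, norm_neg, hn, sub_neg_eq_add] at this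
    linarith
  have hSo : ∀ t : ℝ, (0 : ℂ) + (2 : ℝ) * exp (t * I) ∈ S := by
    intro t
    have e : (0 : ℂ) + (2 : ℝ) * exp (t * I) = cv 2 t := by
      simp [cv]
    refine ⟨e ▸ cv_mem_B 2 t, ?_⟩
    rw [zero_add, norm_mul, norm_exp_tI, mul_one, norm_real]; norm_num
  -- first fill
  obtain ⟨g1, hg1c, hg1n, hg1e⟩ := fill (c := 1) (r := 1 / 2) (by norm_num) hSc hf hf0
    (by
      rintro z hz ⟨⟨-, hb, -⟩, -⟩
      rw [mem_ball, dist_eq_norm] at hz; linarith) d1
  have hS1c : IsClosed (S ∪ closedBall 1 (1 / 2)) := hSc.union isClosed_closedBall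
  -- second fill
  obtain ⟨g2, hg2c, hg2n, hg2e⟩ := fill (c := -1) (r := 1 / 2) (by norm_num) hS1c hg1c hg1n
    (by
      rintro z hz hz'
      rw [mem_ball, dist_eq_norm, sub_neg_eq_add] at hz
      rcases hz' with ⟨⟨-, -, hb⟩, -⟩ | hb
      · linarith
      · rw [mem_closedBall, dist_eq_norm] at hb
        have := norm_sub_le (z + 1) (z - 1)
        rw [show z + 1 - (z - 1) = 2 by ring] at this
        norm_num at this
        linarith)
    (d2.congr fun t => hg1e (hSm t))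
  have hS2c : IsClosed (S ∪ closedBall 1 (1 / 2) ∪ closedBall (-1) (1 / 2)) :=
    hS1c.union isClosed_closedBall
  have hg2e' : EqOn g2 f S := fun z hz => by
    rw [hg2e (Or.inl hz), hg1e hz]
  -- third fill
  obtain ⟨g3, hg3c, hg3n, hg3e⟩ := fill (c := 0) (r := 1 / 4) (by norm_num) hS2c hg2c hg2n
    (by
      rintro z hz hz'
      rw [mem_ball, dist_eq_norm, sub_zero] at hz
      rcases hz' with (⟨-, hb⟩ | hb) | hb
      · linarith
      · rw [mem_closedBall, dist_eq_norm] at hb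
        have := norm_sub_norm_le (1 : ℂ) z
        rw [norm_one, norm_sub_rev] at this
        linarith
      · rw [mem_closedBall, dist_eq_norm] at hb
        have := norm_sub_norm_le (-1 : ℂ) z
        rw [norm_neg, norm_one, norm_sub_rev] at this
        linarith)
    (d0.congr fun t => hg2e' (hS0 t))
  have hcov : closedBall (0 : ℂ) 2
      ⊆ S ∪ closedBall 1 (1 / 2) ∪ closedBall (-1) (1 / 2) ∪ closedBall 0 (1 / 4) := by
    intro z hz
    rw [mem_closedBall, dist_eq_norm, sub_zero] at hz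
    by_cases c1 : ‖z - 1‖ ≤ 1 / 2
    · left; left; right; rw [mem_closedBall, dist_eq_norm]; exact c1
    by_cases c2 : ‖z + 1‖ ≤ 1 / 2
    · left; right; rw [mem_closedBall, dist_eq_norm, sub_neg_eq_add]; exact c2
    by_cases c3 : ‖z‖ ≤ 1 / 4
    · right; rw [mem_closedBall, dist_eq_norm, sub_zero]; exact c3
    push Not at c1 c2 c3
    left; left; left
    exact ⟨⟨hz, c1.le, c2.le⟩, c3.le⟩
  have hmem : ∀ r ∈ Icc (0 : ℝ) 2, ∀ t : ℝ, (0 : ℂ) + (r : ℝ) * exp (t * I) ∈ closedBall (0 : ℂ) 2 := by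
    intro r hr t
    rw [mem_closedBall, dist_eq_norm, sub_zero, zero_add, norm_mul, norm_exp_tI, mul_one,
      norm_real, Real.norm_of_nonneg hr.1]
    exact hr.2
  have hfin : HasDeg (fun t : ℝ => g3 (0 + (2 : ℝ) * exp (t * I))) 0 := by
    refine HasDeg.homotopy_Icc (a := 0) (b := 2) (by norm_num)
      (H := fun r t => g3 (0 + (r : ℝ) * exp (t * I))) ?_ ?_ ?_ (r₀ := 0) (r₁ := 2)
      ⟨le_rfl, by norm_num⟩ ⟨by norm_num, le_rfl⟩ ?_
    · apply hg3c.comp (by fun_prop)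
      rintro ⟨r, t⟩ ⟨hr1, -⟩
      exact hcov (hmem r hr1 t)
    · intro r hr1 t; exact hg3n _ (hcov (hmem r hr1 t))
    · intro r _ t
      rw [exp_per]
    · have h0 : g3 0 ≠ 0 := hg3n 0 (Or.inr (by simp))
      refine (hasDeg_const h0).congr fun t => ?_
      simp
  have hlast : HasDeg (fun t : ℝ => f (0 + (2 : ℝ) * exp (t * I))) 0 := by
    refine hfin.congr fun t => ?_
    rw [hg3e (Or.inl (Or.inl (hSo t))), hg2e' (hSo t)]
  have := hlast.unique d3
  linarith

/-- Every nowhere vanishing function on `X k` has invariants. -/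
theorem exists_inv {k : ℕ} {a j : ℤ} (h : 5 * a + k * j = 1) {α : ℂ × Circle → ℂ}
    (hα : ContinuousOn α (X k)) (hα0 : ∀ p ∈ X k, α p ≠ 0) :
    ∃ d e₁ e₂, Inv k a j α d e₁ e₂ := by
  obtain ⟨d, hd⟩ := exists_hasDeg (fun t => α (0, Circle.exp t))
    (hα.comp_continuous (by fun_prop) (fun t => center_mem k _)) (fun t => hα0 _ (center_mem k _))
    (fun t => by
      congr 2
      rw [Circle.exp_eq_exp]
      exact ⟨1, by ring⟩)
  obtain ⟨e₁, h1⟩ := bideg_exists h hα hα0 hd 0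
  obtain ⟨e₂, h2⟩ := bideg_exists h hα hα0 hd 1
  obtain ⟨e₃, h3⟩ := bideg_exists h hα hα0 hd 2
  refine ⟨d, e₁, e₂, hd, h1, h2, ?_⟩
  rw [← planar h hα hα0 hd (h1.left 0) (h2.left 0) (h3.left 0)]
  exact h3

end Pool.Agent.N492
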