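import Mathlib
import Pool.Agent.N492.Planar

/-!
# Loops on the boundary tori and invariants of standard functions
-/

set_option autoImplicit false

open Complex Set Topology Metric
open scoped Real

namespace Pool.Agent.N492

open Deg

theorem continuous_cc : Continuous (fun u : Circle => (u : ℂ)) := circle_inducing.continuous

theorem continuous_uc : Continuous (fun p : ℂ × Circle => (p.2 : ℂ)) :=
  continuous_cc.comp continuous_snd

/-- A loop in the unit circle has a real lift. -/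
theorem real_lift {f : ℝ → ℂ} {n : ℤ} (h : HasDeg f n) (h1 : ∀ t, ‖f t‖ = 1) :
    ∃ φ : ℝ → ℝ, Continuous φ ∧ (∀ t, f t = exp (φ t * I)) ∧
      ∀ t, φ (t + 2 * π) = φ t + n * (2 * π) := by
  obtain ⟨F, hF, hFe, hFp⟩ := h
  refine ⟨fun t => (F t).im, Complex.continuous_im.comp hF, fun t => ?_, fun t => ?_⟩
  · have hre : (F t).re = 0 := by
      have := Complex.norm_exp (F t)
      rw [hFe, h1] at this
      rw [← Real.exp_eq_one_iff]; exact this.symm
    rw [← hFe]
    congr 1
    conv_lhs => rw [← Complex.re_add_im (F t), hre]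
    simp
  · dsimp only
    rw [hFp]
    simp

/-- Degree of a function along a loop on a boundary torus. -/
theorem torus_loop {k : ℕ} {a j : ℤ} (h : 5 * a + k * j = 1) {i : Fin 3} {α : ℂ × Circle → ℂ}
    {A C : ℤ} (hα : HasBideg (fun φ s => α (Q k a j i φ s)) A C) {γ : ℝ → ℂ × Circle}
    (hγ : ∀ t, γ t ∈ T k i) {p q : ℤ} (hp : HasDeg (fun t => xi i (val k (γ t))) p)
    (hq : HasDeg (fun t => yc a j (γ t)) q) : HasDeg (fun t => α (γ t)) (A * p + C * q) := by
  obtain ⟨φ, hφ, hφe, hφp⟩ := real_lift hp (fun t => hγ t)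
  have hn : ∀ t, ‖yc a j (γ t)‖ = 1 := by
    intro t
    unfold yc
    have := fst_ne_of_T (hγ t)
    have h0 : ‖(γ t).1‖ ≠ 0 := norm_ne_zero_iff.2 this
    rw [norm_mul, norm_zpow, norm_zpow, norm_div, norm_real, norm_norm, div_self h0,
      Circle.norm_coe]
    simp
  obtain ⟨s, hs, hse, hsp⟩ := real_lift hq hn
  refine (hα.comp hφ hs hφp hsp).congr fun t => ?_
  rw [← eq_Q h (hφe t) (hse t)]

/-- Bidegree of the pull back of a function under a map between boundary tori. -/
theorem pullback {k l : ℕ} {a j b m : ℤ} (h : 5 * a + k * j = 1) (h' : 5 * b + l * m = 1)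
    {i i' : Fin 3} {H : ℂ × Circle → ℂ × Circle} (hH : ContinuousOn H (T k i))
    (hm : MapsTo H (T k i) (T l i')) :
    ∃ p r q s : ℤ, ∀ (α : ℂ × Circle → ℂ) (A C : ℤ),
      HasBideg (fun φ s => α (Q l b m i' φ s)) A C →
      ∀ (E D : ℤ), HasBideg (fun φ s => α (H (Q k a j i φ s))) E D →
        E = A * p + C * r ∧ D = A * q + C * s := by
  have hxi : ContinuousOn (fun p => xi i' (val l (H p))) (T k i) :=
    ((continuous_xi i').comp (continuous_val l)).comp_continuousOn hH
  have hxi0 : ∀ p ∈ T k i, xi i' (val l (H p)) ≠ 0 := by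
    intro p hp h0
    have : ‖xi i' (val l (H p))‖ = 1 := hm hp
    rw [h0, norm_zero] at this; norm_num at this
  have hyc : ContinuousOn (fun p => yc b m (H p)) (T k i) := by
    have hfst : ContinuousOn (fun p => (H p).1) (T k i) := continuous_fst.comp_continuousOn hH
    have hsnd : ContinuousOn (fun p => ((H p).2 : ℂ)) (T k i) :=
      continuous_uc.comp_continuousOn hH
    have hn : ∀ p ∈ T k i, ((‖(H p).1‖ : ℝ) : ℂ) ≠ 0 := fun p hp => by
      exact_mod_cast norm_ne_zero_iff.2 (fst_ne_of_T (hm hp))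
    unfold yc
    apply ContinuousOn.mul
    · apply ContinuousOn.zpow₀
      · apply ContinuousOn.div hfst _ hn
        exact Complex.continuous_ofReal.comp_continuousOn hfst.norm
      · intro p hp; left
        exact div_ne_zero (fst_ne_of_T (hm hp)) (hn p hp)
    · apply ContinuousOn.zpow₀ hsnd
      intro p hp; left; exact Circle.coe_ne_zero _
  have hyc0 : ∀ p ∈ T k i, yc b m (H p) ≠ 0 := by
    intro p hp
    unfold yc
    have h0 := fst_ne_of_T (hm hp)
    have hn : ((‖(H p).1‖ : ℝ) : ℂ) ≠ 0 := by exact_mod_cast norm_ne_zero_iff.2 h0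
    exact mul_ne_zero (zpow_ne_zero _ (div_ne_zero h0 hn)) (zpow_ne_zero _ (Circle.coe_ne_zero _))
  obtain ⟨p, q, hpq⟩ := hasBideg_Q h hxi hxi0
  obtain ⟨r, s, hrs⟩ := hasBideg_Q h hyc hyc0
  refine ⟨p, r, q, s, fun α A C hα E D hED => ⟨?_, ?_⟩⟩
  · exact (hED.left 0).unique (torus_loop h' (γ := fun φ => H (Q k a j i φ 0)) hα
      (fun t => hm (Q_mem_T h i _ _)) (hpq.left 0) (hrs.left 0))
  · exact (hED.right 0).unique (torus_loop h' (γ := fun s => H (Q k a j i 0 s)) hα
      (fun t => hm (Q_mem_T h i _ _)) (hpq.right 0) (hrs.right 0))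

theorem bideg_xi {k : ℕ} {a j : ℤ} (h : 5 * a + k * j = 1) (i : Fin 3) :
    HasBideg (fun φ s => xi i (val k (Q k a j i φ s))) 1 0 := by
  refine ⟨fun p => p.1 * I, by fun_prop, fun φ s => ?_, fun φ s => ?_, fun φ s => ?_⟩
  · dsimp only; rw [val_Q h, xi_cv]
  · push_cast; ring
  · push_cast; ring

theorem bideg_yc {k : ℕ} {a j : ℤ} (h : 5 * a + k * j = 1) (i : Fin 3) :
    HasBideg (fun φ s => yc a j (Q k a j i φ s)) 0 1 := by
  refine ⟨fun p => p.2 * I, by fun_prop, fun φ s => ?_, fun φ s => ?_, fun φ s => ?_⟩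
  · dsimp only; rw [yc_Q h]
  · push_cast; ring
  · push_cast; ring

/-- Invariants of the coordinate function `u`. -/
theorem inv_u {k : ℕ} {a j : ℤ} (h : 5 * a + k * j = 1) :
    Inv k a j (fun p => (p.2 : ℂ)) 1 0 0 := by
  obtain ⟨d, e₁, e₂, hi⟩ := exists_inv h (α := fun p => (p.2 : ℂ))
    continuous_uc.continuousOn (fun p _ => Circle.coe_ne_zero _)
  have hd : d = 1 := by
    refine hi.1.unique ((hasDeg_exp 1).congr fun t => ?_)
    simp
  have hu : ∀ i : Fin 3, i ≠ 2 → HasDeg (fun t => ((Q k a j i t 0).2 : ℂ)) 0 := by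
    intro i hi2
    refine ⟨fun t => (j * th i t : ℝ) * I, ?_, fun t => ?_, fun t => ?_⟩
    · have := continuous_th i
      fun_prop
    · simp only [Q, P, Circle.coe_exp]
      congr 1
      push_cast; ring
    · dsimp only
      rw [th_per]
      simp [del, hi2]
  have h1 : e₁ = 0 := (hi.2.1.left 0).unique (hu 0 (by decide))
  have h2 : e₂ = 0 := (hi.2.2.1.left 0).unique (hu 1 (by decide))
  rw [hd, h1, h2] at hi
  exact hi

theorem inv_sub {k : ℕ} {a j : ℤ} (h : 5 * a + k * j = 1) :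
    Inv k a j (fun p => val k p - 1) 0 1 0 := by
  obtain ⟨d, e₁, e₂, hi⟩ := exists_inv h (α := fun p => val k p - 1)
    ((continuous_val k).sub continuous_const).continuousOn (fun p hp h0 => by
      have hp' : val k p ∈ B := hp
      have := hp'.2.1
      rw [h0, norm_zero] at this; norm_num at this)
  have hd : d = 0 := by
    refine hi.1.unique ((hasDeg_const (c := (-1 : ℂ)) (by norm_num)).congr fun t => ?_)
    simp [val]
  have h1 : e₁ = 1 := (hi.2.1.left 0).unique
    ((hasDeg_inside (c := 1) (p := 1) (r := 1 / 2) (by norm_num)).congr fun t => by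
      dsimp only; rw [val_Q h]; simp [cv])
  have h2 : e₂ = 0 := (hi.2.2.1.left 0).unique
    (((hasDeg_outside (c := -1) (p := 1) (r := 1 / 2) (by norm_num) (by norm_num)).shift π).congr
      fun t => by
        dsimp only
        rw [val_Q h]
        simp only [cv, one_ne_zero, if_false, if_true, Fin.isValue]
        have : ((π + t : ℝ) : ℂ) * I = π * I + t * I := by push_cast; ring
        rw [this, exp_add, exp_pi_mul_I]; ring)
  rw [hd, h1, h2] at hi
  exact hi

theorem inv_add {k : ℕ} {a j : ℤ} (h : 5 * a + k * j = 1) :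
    Inv k a j (fun p => val k p + 1) 0 0 1 := by
  obtain ⟨d, e₁, e₂, hi⟩ := exists_inv h (α := fun p => val k p + 1)
    ((continuous_val k).add continuous_const).continuousOn (fun p hp h0 => by
      have hp' : val k p ∈ B := hp
      have := hp'.2.2
      rw [h0, norm_zero] at this; norm_num at this)
  have hd : d = 0 := by
    refine hi.1.unique ((hasDeg_const (c := (1 : ℂ)) (by norm_num)).congr fun t => ?_)
    simp [val]
  have h1 : e₁ = 0 := (hi.2.1.left 0).unique
    ((hasDeg_outside (c := 1) (p := -1) (r := 1 / 2) (by norm_num) (by norm_num)).congr fun t => by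
      dsimp only; rw [val_Q h]; simp [cv])
  have h2 : e₂ = 1 := (hi.2.2.1.left 0).unique
    (((hasDeg_inside (c := -1) (p := -1) (r := 1 / 2) (by norm_num)).shift π).congr
      fun t => by
        dsimp only
        rw [val_Q h]
        simp only [cv, one_ne_zero, if_false, if_true, Fin.isValue]
        have : ((π + t : ℝ) : ℂ) * I = π * I + t * I := by push_cast; ring
        rw [this, exp_add, exp_pi_mul_I]; ring)
  rw [hd, h1, h2] at hi
  exact hi

/-- The third winding number. -/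
def third (j : ℤ) (d e₁ e₂ : ℤ) (i : Fin 3) : ℤ :=
  if i = 0 then e₁ else if i = 1 then e₂ else e₁ + e₂ + j * d

theorem Inv.bideg {k : ℕ} {a j : ℤ} {α : ℂ × Circle → ℂ} {d e₁ e₂ : ℤ}
    (h : Inv k a j α d e₁ e₂) (i : Fin 3) :
    HasBideg (fun φ s => α (Q k a j i φ s)) (third j d e₁ e₂ i) (5 * d) := by
  fin_cases i
  · exact h.2.1
  · exact h.2.2.1
  · exact h.2.2.2

theorem arith (σ : Fin 3 → Fin 3) (hσ : Function.Injective σ) (p r q s : Fin 3 → ℤ)
    (hinv : ∀ i, (∃ A C : ℤ, 1 = A * p i + C * r i ∧ 0 = A * q i + C * s i) ∧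
      (∃ A C : ℤ, 0 = A * p i + C * r i ∧ 1 = A * q i + C * s i))
    (d e f d' e' f' d'' e'' f'' : ℤ)
    (hA : ∀ i, third 1 d e f i = third 3 1 0 0 (σ i) * p i + (5 * 1) * r i ∧
      5 * d = third 3 1 0 0 (σ i) * q i + (5 * 1) * s i)
    (hB : ∀ i, third 1 d' e' f' i = third 3 0 1 0 (σ i) * p i + (5 * 0) * r i ∧
      5 * d' = third 3 0 1 0 (σ i) * q i + (5 * 0) * s i)
    (hC : ∀ i, third 1 d'' e'' f'' i = third 3 0 0 1 (σ i) * p i + (5 * 0) * r i ∧
      5 * d'' = third 3 0 0 1 (σ i) * q i + (5 * 0) * s i) : False := by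
  have h01 : σ 0 ≠ σ 1 := fun h => by have := hσ h; simp at this
  have h02 : σ 0 ≠ σ 2 := fun h => by have := hσ h; simp at this
  have h12 : σ 1 ≠ σ 2 := fun h => by have := hσ h; simp at this
  have A0 := hA 0
  have A1 := hA 1
  have A2 := hA 2
  have B0 := hB 0
  have B1 := hB 1
  have B2 := hB 2
  have C0 := hC 0
  have C1 := hC 1
  have C2 := hC 2
  have hq : q 0 = 0 ∧ q 1 = 0 ∧ q 2 = 0 := by
    generalize σ 0 = x0 at *
    generalize σ 1 = x1 at *
    generalize σ 2 = x2 at *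
    fin_cases x0 <;> fin_cases x1 <;> simp at h01 <;> fin_cases x2 <;> simp at h02 h12 <;>
      simp [third] at A0 A1 A2 B0 B1 B2 C0 C1 C2 <;> omega
  have hunit : ∀ i, q i = 0 → (p i = 1 ∨ p i = -1) ∧ (s i = 1 ∨ s i = -1) := by
    intro i hi
    obtain ⟨⟨A, C, e1, e2⟩, ⟨A', C', e3, e4⟩⟩ := hinv i
    rw [hi] at e2 e4
    have hs : s i = 1 ∨ s i = -1 := by
      have : C' * s i = 1 := by linarith
      exact Int.isUnit_iff.1 (IsUnit.of_mul_eq_one_right _ this)
    refine ⟨?_, hs⟩
    have hC0 : C = 0 := by rcases hs with h | h <;> rw [h] at e2 <;> omega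
    rw [hC0] at e1
    have : A * p i = 1 := by linarith
    exact Int.isUnit_iff.1 (IsUnit.of_mul_eq_one_right _ this)
  obtain ⟨q0, q1, q2⟩ := hq
  obtain ⟨hp0, hs0⟩ := hunit 0 q0
  obtain ⟨hp1, hs1⟩ := hunit 1 q1
  obtain ⟨hp2, hs2⟩ := hunit 2 q2
  rw [q0] at A0 B0 C0
  rw [q1] at A1 B1 C1
  rw [q2] at A2 B2 C2
  generalize σ 0 = x0 at *
  generalize σ 1 = x1 at *
  generalize σ 2 = x2 at *
  generalize p 0 = p0 at *
  generalize p 1 = p1 at *
  generalize p 2 = p2 at *
  fin_cases x0 <;> fin_cases x1 <;> simp at h01 <;> fin_cases x2 <;> simp at h02 h12 <;>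
      simp [third] at A0 A1 A2 B0 B1 B2 C0 C1 C2 <;>
      rcases hp0 with rfl | rfl <;> rcases hp1 with rfl | rfl <;> rcases hp2 with rfl | rfl <;>
      omega

/-- No homeomorphism, given that it permutes the boundary tori. -/
theorem no_homeo {H G : ℂ × Circle → ℂ × Circle} (hH : ContinuousOn H (X 1))
    (hG : ContinuousOn G (X 2)) (hHm : MapsTo H (X 1) (X 2)) (hGm : MapsTo G (X 2) (X 1))
    (hGH : ∀ p ∈ X 1, G (H p) = p) (hHG : ∀ p ∈ X 2, H (G p) = p)
    (σ : Fin 3 → Fin 3) (hσ : Function.Injective σ)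
    (hσm : ∀ i, MapsTo H (T 1 i) (T 2 (σ i))) (hσm' : ∀ i, MapsTo G (T 2 (σ i)) (T 1 i)) :
    False := by
  have c1 : (5 : ℤ) * 0 + ((1 : ℕ) : ℤ) * 1 = 1 := by norm_num
  have c2 : (5 : ℤ) * (-1) + ((2 : ℕ) : ℤ) * 3 = 1 := by norm_num
  -- matrices
  have hmat : ∀ i, ∃ p r q s : ℤ, ∀ (α : ℂ × Circle → ℂ) (A C : ℤ),
      HasBideg (fun φ s => α (Q 2 (-1) 3 (σ i) φ s)) A C →
      ∀ (E D : ℤ), HasBideg (fun φ s => α (H (Q 1 0 1 i φ s))) E D →
        E = A * p + C * r ∧ D = A * q + C * s := fun i =>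
    pullback c1 c2 (hH.mono (T_sub_X 1 i)) (hσm i)
  choose p r q s hM using hmat
  -- invertibility
  have hinv : ∀ i, (∃ A C : ℤ, 1 = A * p i + C * r i ∧ 0 = A * q i + C * s i) ∧
      (∃ A C : ℤ, 0 = A * p i + C * r i ∧ 1 = A * q i + C * s i) := by
    intro i
    have hGc : ContinuousOn G (T 2 (σ i)) := hG.mono (T_sub_X 2 _)
    constructor
    · obtain ⟨A, C, hAC⟩ := hasBideg_Q c2 (i := σ i) (α := fun x => xi i (val 1 (G x)))
        (((continuous_xi i).comp (continuous_val 1)).comp_continuousOn hGc) (fun x hx h0 => by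
          have : ‖xi i (val 1 (G x))‖ = 1 := hσm' i hx
          rw [h0, norm_zero] at this; norm_num at this)
      refine ⟨A, C, hM i (fun x => xi i (val 1 (G x))) A C hAC 1 0
        ((bideg_xi c1 i).congr fun φ s => ?_)⟩
      rw [hGH _ (Q_mem c1 i φ s)]
    · obtain ⟨A, C, hAC⟩ : ∃ A C, HasBideg (fun φ s => yc 0 1 (G (Q 2 (-1) 3 (σ i) φ s))) A C := by
        have hfst : ContinuousOn (fun p => (G p).1) (T 2 (σ i)) :=
          continuous_fst.comp_continuousOn hGc
        have hsnd : ContinuousOn (fun p => ((G p).2 : ℂ)) (T 2 (σ i)) :=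
          continuous_uc.comp_continuousOn hGc
        have hn : ∀ p ∈ T 2 (σ i), ((‖(G p).1‖ : ℝ) : ℂ) ≠ 0 := fun p hp => by
          exact_mod_cast norm_ne_zero_iff.2 (fst_ne_of_T (hσm' i hp))
        apply hasBideg_Q c2 (i := σ i) (α := fun x => yc 0 1 (G x))
        · unfold yc
          apply ContinuousOn.mul
          · apply ContinuousOn.zpow₀
            · apply ContinuousOn.div hfst _ hn
              exact Complex.continuous_ofReal.comp_continuousOn hfst.norm
            · intro p hp; left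
              exact div_ne_zero (fst_ne_of_T (hσm' i hp)) (hn p hp)
          · apply ContinuousOn.zpow₀ hsnd
            intro p hp; left; exact Circle.coe_ne_zero _
        · intro p hp
          unfold yc
          exact mul_ne_zero (zpow_ne_zero _ (div_ne_zero (fst_ne_of_T (hσm' i hp)) (hn p hp)))
            (zpow_ne_zero _ (Circle.coe_ne_zero _))
      refine ⟨A, C, hM i (fun x => yc 0 1 (G x)) A C hAC 0 1 ((bideg_yc c1 i).congr fun φ s => ?_)⟩
      rw [hGH _ (Q_mem c1 i φ s)]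
  -- pulled back invariants
  have hpull : ∀ (α : ℂ × Circle → ℂ) (d' e₁' e₂' : ℤ), ContinuousOn α (X 2) →
      (∀ p ∈ X 2, α p ≠ 0) → Inv 2 (-1) 3 α d' e₁' e₂' → ∃ d e₁ e₂ : ℤ, ∀ i,
        third 1 d e₁ e₂ i = third 3 d' e₁' e₂' (σ i) * p i + (5 * d') * r i ∧
        5 * d = third 3 d' e₁' e₂' (σ i) * q i + (5 * d') * s i := by
    intro α d' e₁' e₂' hα hα0 hi
    obtain ⟨d, e₁, e₂, hi2⟩ := exists_inv c1 (α := fun p => α (H p)) (hα.comp hH hHm)
      (fun p hp => hα0 _ (hHm hp))
    exact ⟨d, e₁, e₂, fun i => hM i α _ _ (hi.bideg (σ i)) _ _ (hi2.bideg i)⟩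
  obtain ⟨d, e, f, hA⟩ := hpull _ 1 0 0
    continuous_uc.continuousOn (fun p _ => Circle.coe_ne_zero _)
    (inv_u c2)
  obtain ⟨d', e', f', hB⟩ := hpull (fun p => val 2 p - 1) 0 1 0
    ((continuous_val 2).sub continuous_const).continuousOn (fun p hp h0 => by
      have hp' : val 2 p ∈ B := hp
      have := hp'.2.1
      rw [h0, norm_zero] at this; norm_num at this) (inv_sub c2)
  obtain ⟨d'', e'', f'', hC⟩ := hpull (fun p => val 2 p + 1) 0 0 1
    ((continuous_val 2).add continuous_const).continuousOn (fun p hp h0 => by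
      have hp' : val 2 p ∈ B := hp
      have := hp'.2.2
      rw [h0, norm_zero] at this; norm_num at this) (inv_add c2)
  exact arith σ hσ p r q s hinv d e f d' e' f' d'' e'' f'' hA hB hC

end Pool.Agent.N492
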