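import Mathlib
import Pool.Agent.N492.Torus
import Pool.Agent.Helper514.IoD

/-!
# Invariance of the boundary
-/

set_option autoImplicit false

open Complex Set Topology Metric Filter
open scoped Real

namespace Pool.Agent.N492

open Deg

/-- Invariance of domain in a finite dimensional real normed space. -/
theorem iod {E : Type} [NormedAddCommGroup E] [NormedSpace ℝ E] [FiniteDimensional ℝ E]
    {U : Set E} (hU : IsOpen U) {f : E → E} (hf : ContinuousOn f U) (hi : InjOn f U) {x : E}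
    (hx : x ∈ U) : f '' U ∈ 𝓝 (f x) := by
  let L : E ≃L[ℝ] EuclideanSpace ℝ (Fin (Module.finrank ℝ E)) := toEuclidean
  have hU' : IsOpen (L.symm ⁻¹' U) := hU.preimage L.symm.continuous
  obtain ⟨r, hr, hb⟩ := Metric.isOpen_iff.1 hU' (L x) (by simpa using hx)
  have hcb : closedBall (L x) (r / 2) ⊆ L.symm ⁻¹' U :=
    (closedBall_subset_ball (by linarith)).trans hb
  have key := Pool.Agent.Helper514.IoD.image_mem_nhds (fun y => L (f (L.symm y))) (L x) (r / 2)
    (by linarith)
    (L.continuous.comp_continuousOn (hf.comp L.symm.continuous.continuousOn hcb))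
    (fun y hy z hz hyz => by
      have := hi (hcb hy) (hcb hz) (L.injective hyz)
      exact L.symm.injective this)
  have h2 : L ⁻¹' ((fun y => L (f (L.symm y))) '' closedBall (L x) (r / 2)) ∈ 𝓝 (f x) := by
    apply L.continuous.continuousAt.preimage_mem_nhds
    simpa using key
  refine mem_of_superset h2 ?_
  rintro y ⟨z, hz, hzy⟩
  exact ⟨L.symm z, hcb hz, L.injective hzy⟩

theorem mem_T_iff (k : ℕ) (p : ℂ × Circle) :
    (p ∈ T k 0 ↔ ‖val k p - 1‖ = 1 / 2) ∧ (p ∈ T k 1 ↔ ‖val k p + 1‖ = 1 / 2) ∧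
      (p ∈ T k 2 ↔ ‖val k p‖ = 2) := by
  refine ⟨?_, ?_, ?_⟩
  · simp only [T, xi, if_true, mem_ofPred_eq, norm_mul, Complex.norm_ofNat]
    constructor <;> intro h <;> linarith
  · simp only [T, xi, one_ne_zero, if_false, if_true, Fin.isValue, mem_ofPred_eq, norm_mul,
      norm_neg, Complex.norm_ofNat]
    constructor <;> intro h <;> linarith
  · simp only [T, xi, Fin.reduceEq, if_false, Fin.isValue, mem_ofPred_eq, norm_div,
      Complex.norm_ofNat]
    constructor <;> intro h <;> linarith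

/-- Interior points have a full neighbourhood. -/
theorem nhds_of_interior {k : ℕ} {p : ℂ × Circle} (hp : p ∈ X k) (h : ∀ i, p ∉ T k i) :
    X k ∈ 𝓝 p := by
  obtain ⟨h0, h1, h2⟩ := mem_T_iff k p
  obtain ⟨b0, b1, b2⟩ : val k p ∈ B := hp
  have c0 : ‖val k p‖ < 2 := lt_of_le_of_ne b0 fun e => h 2 (h2.2 e)
  have c1 : 1 / 2 < ‖val k p - 1‖ := lt_of_le_of_ne b1 fun e => h 0 (h0.2 e.symm)
  have c2 : 1 / 2 < ‖val k p + 1‖ := lt_of_le_of_ne b2 fun e => h 1 (h1.2 e.symm)
  have hc := continuous_val k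
  have e0 : ∀ᶠ q in 𝓝 p, ‖val k q‖ < 2 :=
    (hc.norm.tendsto p).eventually (gt_mem_nhds c0)
  have e1 : ∀ᶠ q in 𝓝 p, 1 / 2 < ‖val k q - 1‖ :=
    ((hc.sub continuous_const).norm.tendsto p).eventually (lt_mem_nhds c1)
  have e2 : ∀ᶠ q in 𝓝 p, 1 / 2 < ‖val k q + 1‖ :=
    ((hc.add continuous_const).norm.tendsto p).eventually (lt_mem_nhds c2)
  filter_upwards [e0, e1, e2] with q q0 q1 q2
  exact ⟨q0.le, q1.le, q2.le⟩

/-- Boundary points have no full neighbourhood. -/
theorem not_nhds_of_T {k : ℕ} {i : Fin 3} {p : ℂ × Circle} (hp : p ∈ T k i) : X k ∉ 𝓝 p := by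
  intro hn
  have hw := fst_ne_of_T hp
  obtain ⟨w, u⟩ := p
  have hw' : w ≠ 0 := hw
  set v := val k (w, u) with hv
  have hv0 : v ≠ 0 := by
    rw [hv]; exact mul_ne_zero (pow_ne_zero _ hw') (pow_ne_zero _ (Circle.coe_ne_zero _))
  -- the direction
  let δ : ℂ := if i = 0 then 1 - v else if i = 1 then -1 - v else v
  let z : ℝ → ℂ := fun t => (1 + t * δ / v) ^ (1 / 5 : ℂ)
  have hz5 : ∀ t, z t ^ 5 = 1 + t * δ / v := by
    intro t
    have := Complex.cpow_nat_inv_pow (1 + t * δ / v) (n := 5) (by norm_num)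
    simp only [z]
    convert this using 3
    norm_num
  have hval : ∀ t, val k (w * z t, u) = v + t * δ := by
    intro t
    have : val k (w * z t, u) = v * z t ^ 5 := by
      simp only [hv, val]; ring
    rw [this, hz5]
    field_simp
  have hzc : ContinuousAt z 0 := by
    apply ContinuousAt.cpow (by fun_prop) continuousAt_const
    simp
  have hz0 : z 0 = 1 := by simp [z]
  have hc : ContinuousAt (fun t : ℝ => ((w * z t, u) : ℂ × Circle)) 0 := by
    apply ContinuousAt.prodMk _ continuousAt_const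
    exact continuousAt_const.mul hzc
  have ht : Tendsto (fun t : ℝ => ((w * z t, u) : ℂ × Circle)) (𝓝[>] 0) (𝓝 (w, u)) := by
    have := hc.tendsto
    rw [hz0, mul_one] at this
    exact this.mono_left nhdsWithin_le_nhds
  have hev := ht.eventually hn
  have hsm : ∀ᶠ t : ℝ in 𝓝[>] 0, t < 1 := by
    apply mem_nhdsWithin_of_mem_nhds
    exact gt_mem_nhds (by norm_num)
  obtain ⟨t, ⟨ht1, ht2⟩, ht0⟩ := (hev.and hsm).and self_mem_nhdsWithin |>.exists
  have ht0' : 0 < t := ht0
  have hB : v + t * δ ∈ B := by rw [← hval]; exact ht1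
  obtain ⟨h0, h1, h2⟩ := mem_T_iff k (w, u)
  have hn1 : ‖((1 - t : ℝ) : ℂ)‖ = 1 - t := by
    rw [norm_real, Real.norm_of_nonneg (by linarith)]
  fin_cases i
  · have e := h0.1 hp
    have hδ : δ = 1 - v := by simp [δ]
    have b := hB.2.1
    have : v + t * δ - 1 = ((1 - t : ℝ) : ℂ) * (v - 1) := by rw [hδ]; push_cast; ring
    rw [this, norm_mul, hn1] at b
    rw [← hv] at e
    rw [e] at b
    nlinarith
  · have e := h1.1 hp
    have hδ : δ = -1 - v := by simp [δ]
    have b := hB.2.2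
    have : v + t * δ + 1 = ((1 - t : ℝ) : ℂ) * (v + 1) := by rw [hδ]; push_cast; ring
    rw [this, norm_mul, hn1] at b
    rw [← hv] at e
    rw [e] at b
    nlinarith
  · have e := h2.1 hp
    have hδ : δ = v := by simp [δ]
    have b := hB.1
    have : v + t * δ = ((1 + t : ℝ) : ℂ) * v := by rw [hδ]; push_cast; ring
    rw [this, norm_mul, norm_real, Real.norm_of_nonneg (by linarith)] at b
    rw [← hv] at e
    rw [e] at b
    nlinarith

theorem slit_circle {z : ℂ} (h : ‖z - 1‖ < 1) : z ∈ slitPlane := by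
  have := mem_slitPlane_of_norm_lt_one (z := z - 1) h
  simpa using this

/-- Locally, the circle factor can be unrolled. -/
theorem circle_arg {u u₀ : Circle} : u = u₀ * Circle.exp (arg ((u / u₀ : Circle) : ℂ)) := by
  rw [Circle.exp_arg]
  simp

/-- Interior points are mapped to interior points. -/
theorem local_iod {S S' : Set (ℂ × Circle)} {G : ℂ × Circle → ℂ × Circle}
    (hG : ContinuousOn G S') (hGm : MapsTo G S' S) (hGi : InjOn G S') {q : ℂ × Circle}
    (hq : S' ∈ 𝓝 q) : S ∈ 𝓝 (G q) := by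
  have hqS : q ∈ S' := mem_of_mem_nhds hq
  set p := G q with hp
  -- unrolling at `q`
  let ψ : ℂ × ℝ → ℂ × Circle := fun x => (x.1, q.2 * Circle.exp x.2)
  have hψ : Continuous ψ := by fun_prop
  have hψ0 : ψ (q.1, 0) = q := by simp [ψ]
  have hGc : ContinuousAt G q := hG.continuousAt hq
  -- smallness
  have hd : ContinuousAt (fun x : ℂ × Circle => (((G x).2 / p.2 : Circle) : ℂ)) q := by
    have h1 : ContinuousAt (fun x : ℂ × Circle => (G x).2) q := continuousAt_snd.comp hGc
    have h2 : ContinuousAt (fun x : ℂ × Circle => ((G x).2 / p.2 : Circle)) q :=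
      h1.div' continuousAt_const
    exact continuous_cc.continuousAt.comp h2
  have hev : ∀ᶠ x in 𝓝 q, x ∈ S' ∧ ‖(((G x).2 / p.2 : Circle) : ℂ) - 1‖ < 1 := by
    refine (eventually_mem_set.2 hq).and ?_
    have h3 : ContinuousAt (fun x : ℂ × Circle => ‖(((G x).2 / p.2 : Circle) : ℂ) - 1‖) q :=
      (hd.sub continuousAt_const).norm
    apply h3.eventually (gt_mem_nhds _)
    simp [← hp]
  have hev2 : ∀ᶠ x in 𝓝 ((q.1, 0) : ℂ × ℝ), ψ x ∈ S' ∧
      ‖(((G (ψ x)).2 / p.2 : Circle) : ℂ) - 1‖ < 1 := by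
    have := hψ.tendsto (q.1, 0)
    rw [hψ0] at this
    exact this.eventually hev
  have hev3 : ∀ᶠ x in 𝓝 ((q.1, 0) : ℂ × ℝ), |x.2| < 1 := by
    have : ContinuousAt (fun x : ℂ × ℝ => |x.2|) (q.1, 0) := by fun_prop
    apply this.eventually (gt_mem_nhds _)
    simp
  obtain ⟨U, hU, hUo, hxU⟩ := _root_.eventually_nhds_iff.1 (hev2.and hev3)
  -- the map
  let f : ℂ × ℝ → ℂ × ℝ := fun x => ((G (ψ x)).1, arg (((G (ψ x)).2 / p.2 : Circle) : ℂ))
  have hrec : ∀ x, G (ψ x) = ((f x).1, p.2 * Circle.exp (f x).2) := fun x =>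
    Prod.ext rfl circle_arg
  have hGψ : ContinuousOn (fun x => G (ψ x)) U :=
    hG.comp hψ.continuousOn (fun x hx => (hU x hx).1.1)
  have hfc : ContinuousOn f U := by
    apply ContinuousOn.prodMk
    · exact continuous_fst.comp_continuousOn hGψ
    · have h1 : ContinuousOn (fun x => (((G (ψ x)).2 / p.2 : Circle) : ℂ)) U := by
        apply continuous_cc.comp_continuousOn
        exact (continuous_snd.comp_continuousOn hGψ).div' continuousOn_const
      intro x hx
      apply ContinuousAt.comp_continuousWithinAt (g := arg)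
      · exact continuousAt_arg (slit_circle (hU x hx).1.2)
      · exact h1 x hx
  have hfi : InjOn f U := by
    intro x hx y hy hxy
    have h1 : G (ψ x) = G (ψ y) := by rw [hrec x, hrec y, hxy]
    have h2 := hGi (hU x hx).1.1 (hU y hy).1.1 h1
    have h3 : x.1 = y.1 := (Prod.mk.inj h2).1
    have h4 : q.2 * Circle.exp x.2 = q.2 * Circle.exp y.2 := (Prod.mk.inj h2).2
    have h5 := mul_left_cancel h4
    rw [Circle.exp_eq_exp] at h5
    obtain ⟨m, hm⟩ := h5
    have hx1 := abs_lt.1 (hU x hx).2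
    have hy1 := abs_lt.1 (hU y hy).2
    have hpi := Real.pi_gt_three
    have hm0 : m = 0 := by
      have h6 : |(m : ℝ) * (2 * π)| < 2 := by
        rw [show (m : ℝ) * (2 * π) = x.2 - y.2 by rw [hm]; ring, abs_lt]
        constructor <;> linarith [hx1.1, hx1.2, hy1.1, hy1.2]
      by_contra hne
      have h7 : (1 : ℝ) ≤ |(m : ℝ)| := by
        have := Int.one_le_abs hne
        exact_mod_cast this
      rw [abs_mul, abs_of_pos Real.two_pi_pos] at h6
      nlinarith
    rw [hm0] at hm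
    ext1
    · exact h3
    · simpa using hm
  have key := iod hUo hfc hfi hxU
  have hf0 : f (q.1, 0) = (p.1, 0) := by
    simp only [f, hψ0, ← hp]
    simp
  rw [hf0] at key
  -- unrolling at `p`
  have hback : ContinuousAt (fun x : ℂ × Circle => (x.1, arg ((x.2 / p.2 : Circle) : ℂ))) p := by
    apply ContinuousAt.prodMk continuousAt_fst
    apply ContinuousAt.comp (g := arg)
    · apply continuousAt_arg
      simp
    · apply continuous_cc.continuousAt.comp
      exact continuousAt_snd.div' continuousAt_const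
  have h8 : (fun x : ℂ × Circle => (x.1, arg ((x.2 / p.2 : Circle) : ℂ))) p = (p.1, 0) := by simp
  have h9 : (fun x : ℂ × Circle => (x.1, arg ((x.2 / p.2 : Circle) : ℂ))) ⁻¹' (f '' U) ∈ 𝓝 p := by
    apply hback.preimage_mem_nhds
    have h8' : ((p.1, arg ((p.2 / p.2 : Circle) : ℂ)) : ℂ × ℝ) = (p.1, 0) := h8
    exact h8' ▸ key
  refine mem_of_superset h9 ?_
  rintro y ⟨x, hx, hxy⟩
  have h10 : G (ψ x) = y := by
    rw [hrec x, hxy]
    exact Prod.ext rfl circle_arg.symm
  rw [← h10]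
  exact hGm (hU x hx).1.1

/-- The boundary is preserved. -/
theorem bdry_map {k l : ℕ} {H G : ℂ × Circle → ℂ × Circle} (hG : ContinuousOn G (X l))
    (hHm : MapsTo H (X k) (X l)) (hGm : MapsTo G (X l) (X k))
    (hGH : ∀ p ∈ X k, G (H p) = p) (hHG : ∀ p ∈ X l, H (G p) = p) {i : Fin 3} {p : ℂ × Circle}
    (hp : p ∈ T k i) : ∃ i', H p ∈ T l i' := by
  by_contra hno
  push Not at hno
  have hpX := T_sub_X k i hp
  have h1 := nhds_of_interior (hHm hpX) hno
  have h2 := local_iod hG hGm (fun x hx y hy hxy => by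
    rw [← hHG x hx, ← hHG y hy, hxy]) h1
  rw [hGH p hpX] at h2
  exact not_nhds_of_T hp h2

theorem T_closed (k : ℕ) (i : Fin 3) : IsClosed (T k i) :=
  isClosed_eq ((continuous_xi i).comp (continuous_val k)).norm continuous_const

theorem T_disj {k : ℕ} {i i' : Fin 3} {p : ℂ × Circle} (h : p ∈ T k i) (h' : p ∈ T k i') :
    i = i' := by
  obtain ⟨h0, h1, h2⟩ := mem_T_iff k p
  have b1 := norm_sub_le (val k p + 1) (val k p - 1)
  rw [show val k p + 1 - (val k p - 1) = 2 by ring, Complex.norm_ofNat] at b1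
  have b2 := norm_add_le (val k p - 1) 1
  rw [sub_add_cancel, norm_one] at b2
  have b3 := norm_sub_le (val k p + 1) 1
  rw [add_sub_cancel_right, norm_one] at b3
  fin_cases i <;> fin_cases i' <;> simp only [Fin.zero_eta, Fin.mk_one, Fin.reduceFinMk] at h h' ⊢
  all_goals exfalso
  all_goals first
    | (have e1 := h0.1 h; have e2 := h1.1 h'; linarith)
    | (have e1 := h0.1 h; have e2 := h2.1 h'; linarith)
    | (have e1 := h1.1 h; have e2 := h2.1 h'; linarith)
    | (have e1 := h0.1 h'; have e2 := h1.1 h; linarith)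
    | (have e1 := h0.1 h'; have e2 := h2.1 h; linarith)
    | (have e1 := h1.1 h'; have e2 := h2.1 h; linarith)

theorem T_preconnected {k : ℕ} {a j : ℤ} (h : 5 * a + k * j = 1) (i : Fin 3) :
    IsPreconnected (T k i) := by
  have : T k i = (fun q : ℝ × ℝ => Q k a j i q.1 q.2) '' univ := by
    ext p
    constructor
    · intro hp
      obtain ⟨φ, hφ⟩ := xi_norm_eq hp
      have hn : ‖yc a j p‖ = 1 := by
        unfold yc
        have h0 : ‖p.1‖ ≠ 0 := norm_ne_zero_iff.2 (fst_ne_of_T hp)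
        rw [norm_mul, norm_zpow, norm_zpow, norm_div, norm_real, norm_norm, div_self h0,
          Circle.norm_coe]
        simp
      have hy := Complex.norm_mul_exp_arg_mul_I (yc a j p)
      rw [hn, ofReal_one, one_mul] at hy
      exact ⟨(φ, arg (yc a j p)), mem_univ _, (eq_Q h hφ hy.symm).symm⟩
    · rintro ⟨q, -, rfl⟩
      exact Q_mem_T h i _ _
  rw [this]
  exact isPreconnected_univ.image _ (continuous_Q k a j i).continuousOn

theorem preconn_three {S : Set (ℂ × Circle)} (hS : IsPreconnected S) {A : Fin 3 → Set (ℂ × Circle)}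
    (hA : ∀ i, IsClosed (A i)) (hd : ∀ i i' p, p ∈ A i → p ∈ A i' → i = i')
    (hc : ∀ p ∈ S, ∃ i, p ∈ A i) : ∃ i, S ⊆ A i := by
  rcases S.eq_empty_or_nonempty with rfl | ⟨x, hx⟩
  · exact ⟨0, empty_subset _⟩
  obtain ⟨i, hi⟩ := hc x hx
  refine ⟨i, ?_⟩
  let R : Set (ℂ × Circle) := ⋃ i' : {i' : Fin 3 // i' ≠ i}, A i'
  have hR : IsClosed R := isClosed_iUnion_of_finite fun i' => hA i'
  have hcov : S ⊆ A i ∪ R := by
    intro p hp
    obtain ⟨i', hi'⟩ := hc p hp
    by_cases e : i' = i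
    · left; rwa [← e]
    · right; exact mem_iUnion.2 ⟨⟨i', e⟩, hi'⟩
  rcases (isPreconnected_iff_subset_of_disjoint_closed.1 hS (A i) R (hA i) hR hcov (by
    ext p
    simp only [mem_inter_iff, mem_empty_iff_false, iff_false]
    rintro ⟨-, h1, h2⟩
    obtain ⟨⟨i', hne⟩, h3⟩ := mem_iUnion.1 h2
    exact hne (hd _ _ _ h3 h1))) with h | h
  · exact h
  · exfalso
    obtain ⟨⟨i', hne⟩, h3⟩ := mem_iUnion.1 (h hx)
    exact hne (hd _ _ _ h3 hi)

theorem not_homeo : IsEmpty (X 1 ≃ₜ X 2) := by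
  classical
  constructor
  intro e
  have c1 : (5 : ℤ) * 0 + ((1 : ℕ) : ℤ) * 1 = 1 := by norm_num
  have c2 : (5 : ℤ) * (-1) + ((2 : ℕ) : ℤ) * 3 = 1 := by norm_num
  let H : ℂ × Circle → ℂ × Circle := fun p => if h : p ∈ X 1 then (e ⟨p, h⟩ : ℂ × Circle) else p
  let G : ℂ × Circle → ℂ × Circle := fun p => if h : p ∈ X 2 then (e.symm ⟨p, h⟩ : ℂ × Circle) else p
  have hHe : ∀ p (h : p ∈ X 1), H p = e ⟨p, h⟩ := fun p h => by simp [H, h]
  have hGe : ∀ p (h : p ∈ X 2), G p = e.symm ⟨p, h⟩ := fun p h => by simp [G, h]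
  have hH : ContinuousOn H (X 1) := by
    rw [continuousOn_iff_continuous_domRestrict]
    have : (X 1).domRestrict H = fun p => (e p : ℂ × Circle) := by
      ext1 p; exact hHe p.1 p.2
    rw [this]
    exact continuous_subtype_val.comp e.continuous
  have hG : ContinuousOn G (X 2) := by
    rw [continuousOn_iff_continuous_domRestrict]
    have : (X 2).domRestrict G = fun p => (e.symm p : ℂ × Circle) := by
      ext1 p; exact hGe p.1 p.2
    rw [this]
    exact continuous_subtype_val.comp e.symm.continuous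
  have hHm : MapsTo H (X 1) (X 2) := fun p hp => by rw [hHe p hp]; exact (e ⟨p, hp⟩).2
  have hGm : MapsTo G (X 2) (X 1) := fun p hp => by rw [hGe p hp]; exact (e.symm ⟨p, hp⟩).2
  have hGH : ∀ p ∈ X 1, G (H p) = p := fun p hp => by
    rw [hGe _ (hHm hp)]
    have : (⟨H p, hHm hp⟩ : X 2) = e ⟨p, hp⟩ := Subtype.ext (hHe p hp)
    rw [this, e.symm_apply_apply]
  have hHG : ∀ p ∈ X 2, H (G p) = p := fun p hp => by
    rw [hHe _ (hGm hp)]
    have : (⟨G p, hGm hp⟩ : X 1) = e.symm ⟨p, hp⟩ := Subtype.ext (hGe p hp)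
    rw [this, e.apply_symm_apply]
  have s1 : ∀ i, ∃ i', MapsTo H (T 1 i) (T 2 i') := by
    intro i
    obtain ⟨i', hi'⟩ := preconn_three (S := H '' T 1 i)
      ((T_preconnected c1 i).image _ (hH.mono (T_sub_X 1 i))) (A := T 2) (T_closed 2)
      (fun _ _ _ => T_disj) (by
        rintro _ ⟨p, hp, rfl⟩
        exact bdry_map hG hHm hGm hGH hHG hp)
    exact ⟨i', fun p hp => hi' (mem_image_of_mem _ hp)⟩
  have s2 : ∀ i, ∃ i', MapsTo G (T 2 i) (T 1 i') := by
    intro i
    obtain ⟨i', hi'⟩ := preconn_three (S := G '' T 2 i)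
      ((T_preconnected c2 i).image _ (hG.mono (T_sub_X 2 i))) (A := T 1) (T_closed 1)
      (fun _ _ _ => T_disj) (by
        rintro _ ⟨p, hp, rfl⟩
        exact bdry_map hH hGm hHm hHG hGH hp)
    exact ⟨i', fun p hp => hi' (mem_image_of_mem _ hp)⟩
  choose σ hσ using s1
  choose τ hτ using s2
  have hτσ : ∀ i, τ (σ i) = i := by
    intro i
    have h1 : Q 1 0 1 i 0 0 ∈ T 1 i := Q_mem_T c1 i 0 0
    have h2 := hτ _ (hσ i h1)
    rw [hGH _ (T_sub_X 1 i h1)] at h2
    exact T_disj h2 h1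
  have hinj : Function.Injective σ := fun x y hxy => by rw [← hτσ x, ← hτσ y, hxy]
  exact no_homeo hH hG hHm hGm hGH hHG σ hinj hσ (fun i => by
    have := hτ (σ i)
    rwa [hτσ] at this)

end Pool.Agent.N492
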