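import Mathlib
import Pool.Agent.N492.Bdry

/-!
# The spaces `X k` are topological 3-manifolds with boundary
-/

set_option autoImplicit false

open Complex Set Topology Metric Filter
open scoped Real Manifold

namespace Pool.Agent.N492

/-- Coordinates into the half space. -/
noncomputable def inH (x : ℂ × ℝ) : EuclideanHalfSpace 3 :=
  ⟨!₂[max x.1.re 0, x.1.im, x.2], by simp⟩

/-- Coordinates out of the half space. -/
noncomputable def outH (y : EuclideanHalfSpace 3) : ℂ × ℝ :=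
  (((y.1 0 : ℝ) : ℂ) + ((y.1 1 : ℝ) : ℂ) * I, y.1 2)

theorem continuous_inH : Continuous inH := by
  refine Continuous.subtype_mk ?_ _
  apply (PiLp.continuous_toLp 2 _).comp
  apply continuous_pi
  intro i
  fin_cases i
  · simp; fun_prop
  · simp; fun_prop
  · simp; fun_prop

theorem continuous_outH : Continuous outH := by
  unfold outH
  have h : Continuous (fun y : EuclideanHalfSpace 3 => y.1) := continuous_subtype_val
  have h' : ∀ i, Continuous (fun y : EuclideanHalfSpace 3 => (y.1 i : ℝ)) := fun i =>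
    (PiLp.continuous_apply 2 _ i).comp h
  have h0 := h' 0
  have h1 := h' 1
  have h2 := h' 2
  fun_prop

theorem outH_inH (x : ℂ × ℝ) (hx : 0 ≤ x.1.re) : outH (inH x) = x := by
  obtain ⟨z, s⟩ := x
  simp only [outH, inH, Prod.mk.injEq]
  simp only at hx
  constructor
  · simp [max_eq_left hx]
  · simp

theorem inH_outH (y : EuclideanHalfSpace 3) : inH (outH y) = y := by
  apply Subtype.ext
  have hy := y.2
  ext i
  fin_cases i
  · simp [inH, outH, hy]
  · simp [inH, outH]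
  · simp [inH, outH]

theorem outH_re (y : EuclideanHalfSpace 3) : 0 ≤ (outH y).1.re := by
  have hy := y.2
  simp [outH, hy]

open Classical in
/-- A chart of a subset `S` from a straightening of `S`. -/
theorem chart_of {S : Set (ℂ × Circle)} (Θ : OpenPartialHomeomorph (ℂ × Circle) (ℂ × ℝ))
    {p : ℂ × Circle} (hpS : p ∈ S) (hp : p ∈ Θ.source)
    (h : ∀ x ∈ Θ.source, x ∈ S ↔ 0 ≤ (Θ x).1.re) :
    ∃ e : OpenPartialHomeomorph S (EuclideanHalfSpace 3), (⟨p, hpS⟩ : S) ∈ e.source := by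
  have hmem : ∀ y : EuclideanHalfSpace 3, outH y ∈ Θ.target → Θ.symm (outH y) ∈ S := by
    intro y hy
    rw [h _ (Θ.map_target hy), Θ.right_inv hy]
    exact outH_re y
  refine ⟨{
    toFun := fun x => inH (Θ x.1)
    invFun := fun y => if hy : Θ.symm (outH y) ∈ S then ⟨Θ.symm (outH y), hy⟩ else ⟨p, hpS⟩
    source := Subtype.val ⁻¹' Θ.source
    target := outH ⁻¹' Θ.target
    map_source' := ?_
    map_target' := ?_
    left_inv' := ?_
    right_inv' := ?_
    open_source := Θ.open_source.preimage continuous_subtype_val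
    open_target := Θ.open_target.preimage continuous_outH
    continuousOn_toFun := ?_
    continuousOn_invFun := ?_ }, hp⟩
  · intro x hx
    change outH (inH (Θ x.1)) ∈ Θ.target
    rw [outH_inH _ ((h _ hx).1 x.2)]
    exact Θ.map_source hx
  · intro y hy
    simp only [mem_preimage]
    rw [dif_pos (hmem y hy)]
    exact Θ.map_target hy
  · intro x hx
    have e : outH (inH (Θ x.1)) = Θ x.1 := outH_inH _ ((h _ hx).1 x.2)
    have e2 : Θ.symm (outH (inH (Θ x.1))) = x.1 := by rw [e, Θ.left_inv hx]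
    have e3 : Θ.symm (outH (inH (Θ x.1))) ∈ S := by rw [e2]; exact x.2
    rw [dif_pos e3]
    exact Subtype.ext e2
  · intro y hy
    rw [dif_pos (hmem y hy)]
    dsimp only
    rw [Θ.right_inv hy, inH_outH]
  · apply continuous_inH.comp_continuousOn
    exact Θ.continuousOn_toFun.comp continuous_subtype_val.continuousOn (fun x hx => hx)
  · rw [Topology.IsInducing.subtypeVal.continuousOn_iff]
    have : ContinuousOn (fun y => Θ.symm (outH y)) (outH ⁻¹' Θ.target) :=
      Θ.continuousOn_symm.comp continuous_outH.continuousOn (fun x hx => hx)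
    apply this.congr
    intro y hy
    simp only [Function.comp_apply]
    rw [dif_pos (hmem y hy)]

/-- A local coordinate on the circle. -/
theorem circle_chart (u : Circle) : ∃ e : OpenPartialHomeomorph Circle ℝ, u ∈ e.source := by
  obtain ⟨e, he, hee⟩ := isLocalHomeomorph_circleExp (arg (u : ℂ))
  refine ⟨e.symm, ?_⟩
  have : e (arg (u : ℂ)) = u := by rw [← hee]; exact Circle.exp_arg u
  rw [← this]
  exact e.map_source he

theorem chart_interior {k : ℕ} {p : ℂ × Circle} (hp : p ∈ X k) (hn : X k ∈ 𝓝 p) :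
    ∃ e : OpenPartialHomeomorph (X k) (EuclideanHalfSpace 3), (⟨p, hp⟩ : X k) ∈ e.source := by
  obtain ⟨c, hc⟩ := circle_chart p.2
  let Θ₀ : OpenPartialHomeomorph (ℂ × Circle) (ℂ × ℝ) :=
    (Homeomorph.addRight (1 - p.1)).toOpenPartialHomeomorph.prod c
  let U : Set (ℂ × Circle) := interior (X k) ∩ {x | ‖x.1 - p.1‖ < 1}
  have hU : IsOpen U := isOpen_interior.inter
    (isOpen_lt (by fun_prop) continuous_const)
  have hpU : p ∈ U := ⟨mem_interior_iff_mem_nhds.2 hn, by simp⟩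
  refine chart_of (Θ₀.restrOpen U hU) hp ⟨⟨mem_univ _, hc⟩, hpU⟩ ?_
  rintro x ⟨hx1, hx2, hx3⟩
  have e1 : x ∈ X k := interior_subset hx2
  have e2 : ((Θ₀.restrOpen U hU) x).1 = x.1 + (1 - p.1) := rfl
  rw [e2]
  refine ⟨fun _ => ?_, fun _ => e1⟩
  have := (abs_re_le_norm (x.1 - p.1)).trans_lt hx3
  rw [abs_lt] at this
  simp only [sub_re, add_re, one_re] at this ⊢
  linarith

/-- The fifth power map is a local homeomorphism off zero. -/
theorem pow_chart {w : ℂ} (hw : w ≠ 0) :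
    ∃ e : OpenPartialHomeomorph ℂ ℂ, w ∈ e.source ∧ ∀ z, e z = z ^ 5 := by
  have h := hasStrictDerivAt_pow 5 w
  have h5 : ((5 : ℕ) : ℂ) * w ^ (5 - 1) ≠ 0 := by
    apply mul_ne_zero (by norm_num) (pow_ne_zero _ hw)
  have h2 := h.hasStrictFDerivAt_equiv h5
  exact ⟨h2.toOpenPartialHomeomorph _, h2.mem_toOpenPartialHomeomorph_source, fun z => rfl⟩

/-- The twist `(z, u) ↦ (z uᵏ, u)`. -/
noncomputable def twist (k : ℕ) : (ℂ × Circle) ≃ₜ (ℂ × Circle) where
  toFun p := (p.1 * (p.2 : ℂ) ^ k, p.2)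
  invFun p := (p.1 * ((p.2⁻¹ : Circle) : ℂ) ^ k, p.2)
  left_inv p := by
    have : (p.2 : ℂ) ≠ 0 := Circle.coe_ne_zero _
    ext1
    · simp only [Circle.coe_inv, mul_assoc, ← mul_pow, mul_inv_cancel₀ this, one_pow, mul_one]
    · rfl
  right_inv p := by
    have : (p.2 : ℂ) ≠ 0 := Circle.coe_ne_zero _
    ext1
    · simp only [Circle.coe_inv, mul_assoc, ← mul_pow, inv_mul_cancel₀ this, one_pow, mul_one]
    · rfl
  continuous_toFun := by fun_prop
  continuous_invFun := by fun_prop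

/-- Affine normalisation. -/
noncomputable def aff (c d : ℂ) (hd : d ≠ 0) : ℂ ≃ₜ ℂ where
  toFun v := (v - c) / d
  invFun z := z * d + c
  left_inv v := by field_simp; ring
  right_inv z := by field_simp; ring
  continuous_toFun := by fun_prop
  continuous_invFun := by fun_prop

/-- Sign change. -/
noncomputable def sgn (σ : ℝ) (hσ : σ * σ = 1) : ℂ ≃ₜ ℂ where
  toFun v := σ * v
  invFun z := σ * z
  left_inv v := by
    simp only
    rw [← mul_assoc, ← ofReal_mul, hσ, ofReal_one, one_mul]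
  right_inv z := by
    simp only
    rw [← mul_assoc, ← ofReal_mul, hσ, ofReal_one, one_mul]
  continuous_toFun := by fun_prop
  continuous_invFun := by fun_prop

theorem chart_boundary {k : ℕ} {p : ℂ × Circle} (hp : p ∈ X k) (hw : p.1 ≠ 0) (c : ℂ) (σ : ℝ)
    (hσ : σ * σ = 1) (hc : val k p - c ≠ 0)
    (h : ∀ᶠ v in 𝓝 (val k p), (v ∈ B ↔ 0 ≤ σ * Real.log ‖(v - c) / (val k p - c)‖)) :
    ∃ e : OpenPartialHomeomorph (X k) (EuclideanHalfSpace 3), (⟨p, hp⟩ : X k) ∈ e.source := by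
  obtain ⟨a, ha, haa⟩ := pow_chart hw
  obtain ⟨b, hb⟩ := circle_chart p.2
  let A : OpenPartialHomeomorph (ℂ × Circle) (ℂ × Circle) :=
    a.prod (OpenPartialHomeomorph.refl Circle)
  let C : OpenPartialHomeomorph ℂ ℂ :=
    ((aff c (val k p - c) hc).toOpenPartialHomeomorph.trans expOpenPartialHomeomorph.symm).trans
      (sgn σ hσ).toOpenPartialHomeomorph
  let Θ₀ : OpenPartialHomeomorph (ℂ × Circle) (ℂ × ℝ) :=
    (A.trans (twist k).toOpenPartialHomeomorph).trans (C.prod b)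
  have hval : ∀ x, (twist k) (A x) = (val k x, x.2) := by
    intro x
    change ((a x.1) * (x.2 : ℂ) ^ k, x.2) = _
    rw [haa]
    rfl
  have hΘ : ∀ x, (Θ₀ x).1 = σ * Complex.log ((val k x - c) / (val k p - c)) := by
    intro x
    have : (Θ₀ x) = (C (twist k (A x)).1, b (twist k (A x)).2) := rfl
    rw [this, hval]
    rfl
  have hpsrc : p ∈ Θ₀.source := by
    refine ⟨⟨⟨ha, mem_univ _⟩, mem_univ _⟩, ?_⟩
    change (twist k (A p)).1 ∈ C.source ∧ (twist k (A p)).2 ∈ b.source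
    rw [hval]
    refine ⟨⟨⟨mem_univ _, ?_⟩, mem_univ _⟩, hb⟩
    change (val k p - c) / (val k p - c) ∈ slitPlane
    rw [div_self hc]
    exact one_mem_slitPlane
  obtain ⟨V, hV, hVo, hpV⟩ := _root_.eventually_nhds_iff.1 h
  let U : Set (ℂ × Circle) := val k ⁻¹' V
  have hU : IsOpen U := hVo.preimage (continuous_val k)
  refine chart_of (Θ₀.restrOpen U hU) hp ⟨hpsrc, hpV⟩ ?_
  rintro x ⟨hx1, hx2⟩
  have e2 : ((Θ₀.restrOpen U hU) x).1 = (Θ₀ x).1 := rfl
  rw [e2, hΘ]
  have e3 : (x ∈ X k) ↔ val k x ∈ B := Iff.rfl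
  rw [e3, hV _ hx2]
  simp [Complex.log_re]

theorem T_near (v₀ : ℂ) :
    (‖v₀ - 1‖ = 1 / 2 → ∀ᶠ v in 𝓝 v₀, (v ∈ B ↔ 1 / 2 ≤ ‖v - 1‖)) ∧
    (‖v₀ + 1‖ = 1 / 2 → ∀ᶠ v in 𝓝 v₀, (v ∈ B ↔ 1 / 2 ≤ ‖v + 1‖)) ∧
    (‖v₀‖ = 2 → ∀ᶠ v in 𝓝 v₀, (v ∈ B ↔ ‖v‖ ≤ 2)) := by
  have c0 : Continuous (fun v : ℂ => ‖v‖) := continuous_norm
  have c1 : Continuous (fun v : ℂ => ‖v - 1‖) := by fun_prop
  have c2 : Continuous (fun v : ℂ => ‖v + 1‖) := by fun_prop
  refine ⟨fun h => ?_, fun h => ?_, fun h => ?_⟩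
  · have h1 : ‖v₀‖ < 2 := by
      calc ‖v₀‖ = ‖(v₀ - 1) + 1‖ := by ring_nf
        _ ≤ ‖v₀ - 1‖ + ‖(1 : ℂ)‖ := norm_add_le _ _
        _ < 2 := by rw [h]; norm_num
    have h2 : 1 / 2 < ‖v₀ + 1‖ := by
      have : ‖(2 : ℂ)‖ ≤ ‖v₀ + 1‖ + ‖v₀ - 1‖ := by
        calc ‖(2 : ℂ)‖ = ‖(v₀ + 1) - (v₀ - 1)‖ := by ring_nf
          _ ≤ _ := norm_sub_le _ _
      rw [h, Complex.norm_ofNat] at this
      linarith
    filter_upwards [c0.continuousAt.eventually (gt_mem_nhds h1),
      c2.continuousAt.eventually (lt_mem_nhds h2)] with v v1 v2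
    exact ⟨fun hv => hv.2.1, fun hv => ⟨v1.le, hv, v2.le⟩⟩
  · have h1 : ‖v₀‖ < 2 := by
      calc ‖v₀‖ = ‖(v₀ + 1) - 1‖ := by ring_nf
        _ ≤ ‖v₀ + 1‖ + ‖(1 : ℂ)‖ := norm_sub_le _ _
        _ < 2 := by rw [h]; norm_num
    have h2 : 1 / 2 < ‖v₀ - 1‖ := by
      have : ‖(2 : ℂ)‖ ≤ ‖v₀ + 1‖ + ‖v₀ - 1‖ := by
        calc ‖(2 : ℂ)‖ = ‖(v₀ + 1) - (v₀ - 1)‖ := by ring_nf
          _ ≤ _ := norm_sub_le _ _
      rw [h, Complex.norm_ofNat] at this
      linarith
    filter_upwards [c0.continuousAt.eventually (gt_mem_nhds h1),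
      c1.continuousAt.eventually (lt_mem_nhds h2)] with v v1 v2
    exact ⟨fun hv => hv.2.2, fun hv => ⟨v1.le, v2.le, hv⟩⟩
  · have h1 : 1 / 2 < ‖v₀ - 1‖ := by
      have : ‖v₀‖ ≤ ‖v₀ - 1‖ + ‖(1 : ℂ)‖ := by
        calc ‖v₀‖ = ‖(v₀ - 1) + 1‖ := by ring_nf
          _ ≤ _ := norm_add_le _ _
      rw [h, norm_one] at this
      linarith
    have h2 : 1 / 2 < ‖v₀ + 1‖ := by
      have : ‖v₀‖ ≤ ‖v₀ + 1‖ + ‖(1 : ℂ)‖ := by
        calc ‖v₀‖ = ‖(v₀ + 1) - 1‖ := by ring_nf
          _ ≤ _ := norm_sub_le _ _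
      rw [h, norm_one] at this
      linarith
    filter_upwards [c1.continuousAt.eventually (lt_mem_nhds h1),
      c2.continuousAt.eventually (lt_mem_nhds h2)] with v v1 v2
    exact ⟨fun hv => hv.1, fun hv => ⟨hv, v1.le, v2.le⟩⟩

theorem exists_chart {k : ℕ} (p : X k) :
    ∃ e : OpenPartialHomeomorph (X k) (EuclideanHalfSpace 3), p ∈ e.source := by
  obtain ⟨p, hp⟩ := p
  by_cases hT : ∀ i, p ∉ T k i
  · exact chart_interior hp (nhds_of_interior hp hT)
  push Not at hT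
  obtain ⟨i, hi⟩ := hT
  have hw := fst_ne_of_T hi
  obtain ⟨h0, h1, h2⟩ := mem_T_iff k p
  obtain ⟨n0, n1, n2⟩ := T_near (val k p)
  fin_cases i
  · have e := h0.1 hi
    have hne : val k p - 1 ≠ 0 := by
      intro hh; rw [hh, norm_zero] at e; norm_num at e
    refine chart_boundary hp hw 1 1 (by norm_num) hne ?_
    have hc : ∀ᶠ v in 𝓝 (val k p), v - 1 ≠ 0 :=
      (continuous_id.sub continuous_const).continuousAt.eventually_ne hne
    filter_upwards [n0 e, hc] with v hv hv1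
    rw [hv, norm_div, e, one_mul, Real.log_nonneg_iff (by positivity),
      le_div_iff₀ (by norm_num), one_mul]
  · have e := h1.1 hi
    have hne : val k p - (-1) ≠ 0 := by
      intro hh; rw [sub_neg_eq_add] at hh; rw [hh, norm_zero] at e; norm_num at e
    refine chart_boundary hp hw (-1) 1 (by norm_num) hne ?_
    have hc : ∀ᶠ v in 𝓝 (val k p), v - (-1) ≠ 0 :=
      (continuous_id.sub continuous_const).continuousAt.eventually_ne hne
    filter_upwards [n1 e, hc] with v hv hv1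
    rw [sub_neg_eq_add] at hv1 ⊢
    rw [hv, sub_neg_eq_add, norm_div, e, one_mul, Real.log_nonneg_iff (by positivity),
      le_div_iff₀ (by norm_num), one_mul]
  · have e := h2.1 hi
    have hne : val k p - 0 ≠ 0 := by
      intro hh; rw [sub_zero] at hh; rw [hh, norm_zero] at e; norm_num at e
    refine chart_boundary hp hw 0 (-1) (by norm_num) hne ?_
    have hc : ∀ᶠ v in 𝓝 (val k p), v - 0 ≠ 0 :=
      (continuous_id.sub continuous_const).continuousAt.eventually_ne hne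
    filter_upwards [n2 e, hc] with v hv hv1
    rw [sub_zero] at hv1 ⊢
    rw [hv, sub_zero, norm_div, e, neg_mul, one_mul, Left.nonneg_neg_iff,
      Real.log_nonpos_iff (by positivity), div_le_one (by norm_num)]

/-- `X k` is a topological 3-manifold with boundary. -/
@[implicit_reducible]
noncomputable def chartedSpace (k : ℕ) : ChartedSpace (EuclideanHalfSpace 3) (X k) where
  atlas := univ
  chartAt p := Classical.choose (exists_chart p)
  mem_chart_source p := Classical.choose_spec (exists_chart p)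
  chart_mem_atlas _ := mem_univ _

end Pool.Agent.N492
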