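import Mathlib
import Pool.Agent.N492.Space

/-!
# The spaces `X k` are path connected
-/

set_option autoImplicit false

open Complex Set Topology
open scoped Real

namespace Pool.Agent.N492

theorem normsq_sub_one (v : ℂ) : ‖v - 1‖ ^ 2 = ‖v‖ ^ 2 - 2 * v.re + 1 := by
  rw [← normSq_eq_norm_sq, ← normSq_eq_norm_sq, normSq_apply, normSq_apply]
  simp
  ring

theorem normsq_add_one (v : ℂ) : ‖v + 1‖ ^ 2 = ‖v‖ ^ 2 + 2 * v.re + 1 := by
  rw [← normSq_eq_norm_sq, ← normSq_eq_norm_sq, normSq_apply, normSq_apply]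
  simp
  ring

theorem half_le_of_sq {x : ℝ} (hx : 0 ≤ x) (h : 1 / 4 ≤ x ^ 2) : 1 / 2 ≤ x := by
  by_contra hlt
  push Not at hlt
  nlinarith

theorem mem_B_iff (v : ℂ) : v ∈ B ↔ ‖v‖ ≤ 2 ∧ 1 / 4 ≤ ‖v‖ ^ 2 - 2 * |v.re| + 1 := by
  constructor
  · rintro ⟨h0, h1, h2⟩
    refine ⟨h0, ?_⟩
    have e1 := normsq_sub_one v
    have e2 := normsq_add_one v
    rcases abs_cases v.re with ⟨h, -⟩ | ⟨h, -⟩ <;> rw [h] <;> nlinarith
  · rintro ⟨h0, h1⟩
    refine ⟨h0, ?_, ?_⟩
    · apply half_le_of_sq (norm_nonneg _)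
      rw [normsq_sub_one]
      have := le_abs_self v.re
      linarith
    · apply half_le_of_sq (norm_nonneg _)
      rw [normsq_add_one]
      have := neg_abs_le v.re
      linarith

theorem mem_B_of_rotate {v v' : ℂ} (hv : v ∈ B) (hn : ‖v'‖ = ‖v‖) (hr : |v'.re| ≤ |v.re|) :
    v' ∈ B := by
  rw [mem_B_iff] at hv ⊢
  rw [hn]
  exact ⟨hv.1, by linarith [hv.2]⟩

theorem mem_B_of_imag {v : ℂ} (hn : ‖v‖ ≤ 2) (hr : v.re = 0) : v ∈ B := by
  rw [mem_B_iff, hr, abs_zero]
  exact ⟨hn, by nlinarith [sq_nonneg ‖v‖]⟩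

/-- An angle by which one rotates to the imaginary axis, with the real part shrinking. -/
theorem exists_rot (v : ℂ) : ∃ β : ℝ, (∀ s ∈ Icc (0 : ℝ) 1,
    |(v * exp ((s * β : ℝ) * I)).re| ≤ |v.re|) ∧ (v * exp ((β : ℝ) * I)).re = 0 := by
  have key : ∀ x : ℝ, (v * exp ((x : ℝ) * I)).re = ‖v‖ * Real.cos (arg v + x) := by
    intro x
    conv_lhs => rw [← norm_mul_exp_arg_mul_I v]
    rw [mul_assoc, ← Complex.exp_add, ← add_mul, ← ofReal_add, re_ofReal_mul, exp_ofReal_mul_I_re]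
  have keyv : v.re = ‖v‖ * Real.cos (arg v) := by
    have := key 0
    simpa using this
  have hpi := Real.pi_pos
  have h1 := neg_pi_lt_arg v
  have h2 := arg_le_pi v
  -- general fact on sines
  have hs : ∀ β : ℝ, |β| ≤ π / 2 → ∀ s ∈ Icc (0 : ℝ) 1, |Real.sin ((1 - s) * β)| ≤ |Real.sin β| := by
    intro β hβ s hs
    have e1 : |Real.sin ((1 - s) * β)| = Real.sin ((1 - s) * |β|) := by
      rcases abs_cases β with ⟨h, h'⟩ | ⟨h, h'⟩
      · rw [h, abs_of_nonneg]
        apply Real.sin_nonneg_of_nonneg_of_le_pi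
        · exact mul_nonneg (by linarith [hs.2]) h'
        · rw [h] at hβ; nlinarith [hs.1, hs.2]
      · rw [h, mul_neg, Real.sin_neg, abs_of_nonpos]
        apply Real.sin_nonpos_of_nonpos_of_neg_pi_le
        · nlinarith [hs.1, hs.2]
        · rw [h] at hβ; nlinarith [hs.1, hs.2]
    have e2 : |Real.sin β| = Real.sin |β| := by
      rcases abs_cases β with ⟨h, h'⟩ | ⟨h, h'⟩
      · rw [h, abs_of_nonneg]
        apply Real.sin_nonneg_of_nonneg_of_le_pi h'
        rw [h] at hβ; linarith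
      · rw [h, Real.sin_neg, abs_of_nonpos]
        apply Real.sin_nonpos_of_nonpos_of_neg_pi_le h'.le
        rw [h] at hβ; linarith
    rw [e1, e2]
    apply Real.sin_le_sin_of_le_of_le_pi_div_two
    · nlinarith [hs.1, hs.2, abs_nonneg β]
    · exact hβ
    · nlinarith [hs.1, hs.2, abs_nonneg β]
  rcases le_total 0 (arg v) with h0 | h0
  · refine ⟨π / 2 - arg v, ?_, ?_⟩
    · intro s hs'
      rw [key, keyv, abs_mul, abs_mul]
      apply mul_le_mul_of_nonneg_left _ (abs_nonneg _)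
      have e1 : Real.cos (arg v + s * (π / 2 - arg v)) =
          Real.sin ((1 - s) * (π / 2 - arg v)) := by
        rw [← Real.cos_pi_div_two_sub]; congr 1; ring
      have e2 : Real.cos (arg v) = Real.sin (π / 2 - arg v) := (Real.sin_pi_div_two_sub _).symm
      rw [e1, e2]
      exact hs _ (abs_le.2 ⟨by linarith, by linarith⟩) s hs'
    · rw [key, add_sub_cancel, Real.cos_pi_div_two, mul_zero]
  · refine ⟨-(π / 2) - arg v, ?_, ?_⟩
    · intro s hs'
      rw [key, keyv, abs_mul, abs_mul]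
      apply mul_le_mul_of_nonneg_left _ (abs_nonneg _)
      have e1 : Real.cos (arg v + s * (-(π / 2) - arg v)) =
          - Real.sin ((1 - s) * (-(π / 2) - arg v)) := by
        rw [← Real.sin_neg, ← Real.cos_pi_div_two_sub, ← Real.cos_neg]; congr 1; ring
      have e2 : Real.cos (arg v) = - Real.sin (-(π / 2) - arg v) := by
        rw [← Real.sin_neg, ← Real.cos_pi_div_two_sub, ← Real.cos_neg]; congr 1; ring
      rw [e1, e2, abs_neg, abs_neg]
      exact hs _ (abs_le.2 ⟨by linarith, by linarith⟩) s hs'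
    · rw [key, add_sub_cancel, Real.cos_neg, Real.cos_pi_div_two, mul_zero]

theorem isPathConnected_X (k : ℕ) : IsPathConnected (X k) := by
  have h0B : (0 : ℂ) ∈ B := mem_B_of_imag (by simp) (by simp)
  refine ⟨(0, 1), ?_, ?_⟩
  · change val k (0, 1) ∈ B
    simpa [val] using h0B
  rintro ⟨w, u⟩ hp
  -- along the core circle
  have j1 : JoinedIn (X k) (0, 1) (0, u) := by
    refine JoinedIn.ofLine (f := fun t : ℝ => ((0, Circle.exp (t * arg (u : ℂ))) : ℂ × Circle))
      (by fun_prop) (by simp) (by simp [Circle.exp_arg]) ?_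
    rintro _ ⟨t, -, rfl⟩
    change val k _ ∈ B
    simpa [val] using h0B
  obtain ⟨β, hβ, hβ1⟩ := exists_rot (val k (w, u))
  -- rotate
  have hrot : ∀ s : ℝ, val k (w * exp ((s * β : ℝ) * I / 5), u) =
      val k (w, u) * exp ((s * β : ℝ) * I) := by
    intro s
    simp only [val, mul_pow, ← Complex.exp_nat_mul]
    rw [show ((5 : ℕ) : ℂ) * ((s * β : ℝ) * I / 5) = (s * β : ℝ) * I by push_cast; ring]
    ring
  have hnorm : ∀ x : ℝ, ‖exp ((x : ℝ) * I)‖ = 1 := fun x => norm_exp_ofReal_mul_I x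
  have j2 : JoinedIn (X k) (w, u) (w * exp ((β : ℝ) * I / 5), u) := by
    refine JoinedIn.ofLine
      (f := fun s : ℝ => ((w * exp ((s * β : ℝ) * I / 5), u) : ℂ × Circle))
      (by fun_prop) (by simp) (by simp) ?_
    rintro _ ⟨s, hs, rfl⟩
    change val k _ ∈ B
    rw [hrot]
    exact mem_B_of_rotate hp (by rw [norm_mul, hnorm, mul_one]) (hβ s hs)
  have j3 : JoinedIn (X k) (w * exp ((β : ℝ) * I / 5), u) (0, u) := by
    refine JoinedIn.ofLine
      (f := fun s : ℝ => ((((1 - s : ℝ) : ℂ) * (w * exp ((β : ℝ) * I / 5)), u) : ℂ × Circle))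
      (by fun_prop) (by simp) (by simp) ?_
    rintro _ ⟨s, hs, rfl⟩
    change val k _ ∈ B
    have e : val k (((1 - s : ℝ) : ℂ) * (w * exp ((β : ℝ) * I / 5)), u) =
        (((1 - s) ^ 5 : ℝ) : ℂ) * (val k (w, u) * exp ((β : ℝ) * I)) := by
      have := hrot 1
      rw [one_mul] at this
      rw [← this]
      simp only [val]
      push_cast
      ring
    have hs0 : 0 ≤ 1 - s := by linarith [hs.2]
    have hs1 : 1 - s ≤ 1 := by linarith [hs.1]
    rw [e]
    apply mem_B_of_imag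
    · rw [norm_mul, norm_mul, hnorm, mul_one, norm_real, Real.norm_of_nonneg (by positivity)]
      have h1 : (1 - s) ^ 5 ≤ 1 := pow_le_one₀ hs0 hs1
      have h2 : ‖val k (w, u)‖ ≤ 2 := hp.1
      have h3 : 0 ≤ ‖val k (w, u)‖ := norm_nonneg _
      nlinarith
    · rw [re_ofReal_mul, hβ1, mul_zero]
  exact j1.trans (j2.trans j3).symm

end Pool.Agent.N492
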