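import Mathlib
import Pool.Agent.N492.Space

/-!
# The spaces `X k` embed in Euclidean 3-space
-/

set_option autoImplicit false

open Complex Set Topology
open scoped Real

namespace Pool.Agent.N492

/-- The standard solid torus around the circle of radius 3. -/
noncomputable def emb (p : ℂ × Circle) : EuclideanSpace ℝ (Fin 3) :=
  !₂[((3 + p.1.re) * (p.2 : ℂ).re : ℝ), (3 + p.1.re) * (p.2 : ℂ).im, p.1.im]

theorem continuous_emb : Continuous emb := by
  apply (PiLp.continuous_toLp 2 _).comp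
  apply continuous_pi
  intro i
  fin_cases i
  · simp; fun_prop
  · simp; fun_prop
  · simp; fun_prop

theorem emb_inj {p q : ℂ × Circle} (hp : -3 < p.1.re) (hq : -3 < q.1.re) (h : emb p = emb q) :
    p = q := by
  have h0 : (3 + p.1.re) * (p.2 : ℂ).re = (3 + q.1.re) * (q.2 : ℂ).re := by
    have := congrArg (fun x : EuclideanSpace ℝ (Fin 3) => x 0) h
    simpa [emb] using this
  have h1 : (3 + p.1.re) * (p.2 : ℂ).im = (3 + q.1.re) * (q.2 : ℂ).im := by
    have := congrArg (fun x : EuclideanSpace ℝ (Fin 3) => x 1) h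
    simpa [emb] using this
  have h2 : p.1.im = q.1.im := by
    have := congrArg (fun x : EuclideanSpace ℝ (Fin 3) => x 2) h
    simpa [emb] using this
  have np : (p.2 : ℂ).re ^ 2 + (p.2 : ℂ).im ^ 2 = 1 := by
    have := Circle.normSq_coe p.2
    rw [normSq_apply] at this
    linarith
  have nq : (q.2 : ℂ).re ^ 2 + (q.2 : ℂ).im ^ 2 = 1 := by
    have := Circle.normSq_coe q.2
    rw [normSq_apply] at this
    linarith
  have hsq : (3 + p.1.re) ^ 2 = (3 + q.1.re) ^ 2 := by
    calc (3 + p.1.re) ^ 2 = ((3 + p.1.re) * (p.2 : ℂ).re) ^ 2 + ((3 + p.1.re) * (p.2 : ℂ).im) ^ 2 := by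
          rw [mul_pow, mul_pow, ← mul_add, np, mul_one]
      _ = ((3 + q.1.re) * (q.2 : ℂ).re) ^ 2 + ((3 + q.1.re) * (q.2 : ℂ).im) ^ 2 := by rw [h0, h1]
      _ = (3 + q.1.re) ^ 2 := by rw [mul_pow, mul_pow, ← mul_add, nq, mul_one]
  have hre : 3 + p.1.re = 3 + q.1.re := by
    rcases sq_eq_sq_iff_eq_or_eq_neg.1 hsq with h | h
    · exact h
    · linarith
  have hne : 3 + q.1.re ≠ 0 := by linarith
  rw [hre] at h0 h1
  have e0 := mul_left_cancel₀ hne h0
  have e1 := mul_left_cancel₀ hne h1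
  apply Prod.ext
  · exact Complex.ext (by linarith) h2
  · exact Circle.ext (Complex.ext e0 e1)

theorem norm_lt_of_mem_X {k : ℕ} {p : ℂ × Circle} (hp : p ∈ X k) : ‖p.1‖ < 2 := by
  have h : ‖val k p‖ ≤ 2 := hp.1
  rw [norm_val] at h
  by_contra hlt
  push Not at hlt
  have : (2 : ℝ) ^ 5 ≤ ‖p.1‖ ^ 5 := pow_le_pow_left₀ (by norm_num) hlt _
  linarith

theorem re_gt_of_mem_X {k : ℕ} {p : ℂ × Circle} (hp : p ∈ X k) : -3 < p.1.re := by
  have h1 := norm_lt_of_mem_X hp
  have h2 := (abs_le.1 (abs_re_le_norm p.1)).1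
  linarith

theorem isEmbedding_emb (k : ℕ) : IsEmbedding (fun p : X k => emb p) := by
  have : CompactSpace (X k) := isCompact_iff_compactSpace.1 (isCompact_X k)
  have hc : Continuous (fun p : X k => emb p) := continuous_emb.comp continuous_subtype_val
  refine (hc.isClosedEmbedding ?_).isEmbedding
  intro p q h
  exact Subtype.ext (emb_inj (re_gt_of_mem_X p.2) (re_gt_of_mem_X q.2) h)

end Pool.Agent.N492
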