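import Pool.Agent.N56.SZ_LOWQ
import Pool.Agent.N906.FH.Stm

/-!
# FH/LOW3: many curves with prescribed `q` and no additive reduction at the large primes
-/

set_option autoImplicit false

namespace Pool.Agent.N492.FH

open Finset Pool.Agent.N906.SZ Pool.Agent.N906.FH Pool.Agent.N56.SZ.LQ

/-- the sieve -/
theorem sieve3 {X z P : ℝ} {m : ℕ} {T : Finset ℕ} (hm : m.Coprime 6) (hm0 : 1 ≤ m)
    (hz : 6400 ≤ z) (hzP : z ≤ P) (hP : 1280 * (m : ℝ) * P ^ 2 ≤ X)
    (hT : ∀ p ∈ T, p.Prime ∧ p ∣ m ∧ (p : ℝ) ≤ P) (hTs : ∑ p ∈ T, (1 : ℝ) / p ≤ 1 / 1000)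
    (hphi : (m : ℝ) ≤ 2 * m.totient) :
    ∃ F : Finset (ℤ × ℤ), (∀ x ∈ F, |(x.1 : ℝ)| ≤ X ^ 2 ∧ |(x.2 : ℝ)| ≤ X ^ 3 ∧
      x.1 ≡ 1 [ZMOD 6] ∧ IsCoprime x.1 m ∧ (m : ℤ) ∣ Dd x.1 x.2 ∧
      (∀ p ∈ T, ¬ ((m * p : ℕ) : ℤ) ∣ Dd x.1 x.2) ∧
      (∀ p : ℕ, p.Prime → z < (p : ℝ) → (p : ℝ) ≤ P → ¬ p ∣ m →
        ¬ (p : ℤ) ∣ x.1 → ¬ (p : ℤ) ^ 2 ∣ Dd x.1 x.2) ∧
      (∀ p : ℕ, p.Prime → 6400 ≤ p → ¬ p ∣ m → ¬ ((p : ℤ) ∣ x.1 ∧ (p : ℤ) ∣ x.2)) ∧
      (∀ p : ℕ, p.Prime → 5 ≤ p → p < 6400 → ¬ p ∣ m →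
        ¬ ((p : ℤ) ^ 4 ∣ x.1 ∧ (p : ℤ) ^ 6 ∣ x.2))) ∧
    X ^ 5 / (24 * m) ≤ F.card := by
  classical
  have hmr : (1 : ℝ) ≤ m := by exact_mod_cast hm0
  have hm0r : (0 : ℝ) < m := by linarith
  have hP1 : (6400 : ℝ) ≤ P := hz.trans hzP
  have hP2 : (6400 : ℝ) ^ 2 ≤ P ^ 2 := by gcongr
  -- size of `X`
  have hmP : (m : ℝ) * P ^ 2 ≤ X := by
    have h1 : 0 ≤ (m : ℝ) * P ^ 2 := by positivity
    linarith
  have hmX : 1280 * (m : ℝ) * 6400 ^ 2 ≤ X := le_trans (by gcongr) hP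
  have hX6 : (6400 : ℝ) ^ 2 ≤ X := by
    have : (6400 : ℝ) ^ 2 ≤ 1280 * (m : ℝ) * 6400 ^ 2 := by nlinarith
    linarith
  have hX1 : (1 : ℝ) ≤ X := by linarith [show (1 : ℝ) ≤ 6400 ^ 2 by norm_num]
  have hX0 : (0 : ℝ) < X := by linarith
  have hmX1 : (m : ℝ) * 1000 ≤ X := by linarith
  have hXX2 : X ≤ X ^ 2 := by nlinarith
  have hX23 : X ^ 2 ≤ X ^ 3 := pow_le_pow_right₀ hX1 (by norm_num)
  set A : Finset (ℤ × ℤ) := (Bx (X ^ 2) ×ˢ Bx (X ^ 3)).filter fun x =>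
    x.1 ≡ 1 [ZMOD 6] ∧ IsCoprime x.1 m ∧ (m : ℤ) ∣ Dd x.1 x.2 with hA
  have memA : ∀ x, x ∈ A ↔ (|(x.1 : ℝ)| ≤ X ^ 2 ∧ |(x.2 : ℝ)| ≤ X ^ 3) ∧
      x.1 ≡ 1 [ZMOD 6] ∧ IsCoprime x.1 m ∧ (m : ℤ) ∣ Dd x.1 x.2 := by
    intro x
    rw [hA, Finset.mem_filter, Finset.mem_product, mem_Bx, mem_Bx]
  set Q : ℝ := m.totient * X ^ 5 / m ^ 2 with hQ
  have hQ0 : 0 ≤ Q := by positivity
  have hQ1 : X ^ 5 / (2 * m) ≤ Q := by
    rw [hQ, div_le_div_iff₀ (by positivity) (by positivity)]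
    have : X ^ 5 * (m : ℝ) ^ 2 ≤ X ^ 5 * (2 * m.totient * m) := by
      apply mul_le_mul_of_nonneg_left _ (by positivity)
      rw [sq]
      exact mul_le_mul_of_nonneg_right hphi hm0r.le
    linarith
  have hw12 : 6 * (m : ℝ) + 1 ≤ X ^ 2 := by linarith
  have hw18 : (m : ℝ) + 1 ≤ X ^ 3 := by linarith
  -- lower bound
  have hlo : Q / 6 ≤ A.card := by
    have e1 : X ^ 2 / (6 * m) ≤ (2 * X ^ 2 - 1) / (6 * m) - 1 := by
      rw [div_sub_one (by positivity)]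
      gcongr
      linarith
    have e2 : X ^ 3 / m ≤ (2 * X ^ 3 - 1) / m - 1 := by
      rw [div_sub_one (by positivity)]
      gcongr
      linarith
    have h1 := lo (Y1 := X ^ 2) (Y2 := X ^ 3) hm hm0 A (by
      intro a b h1 h2 h3 h4 h5
      rw [memA]
      exact ⟨⟨h1, h2⟩, h3, h4, h5⟩) (le_trans (by positivity) e2)
    refine le_trans ?_ h1
    calc Q / 6 = m.totient * ((X ^ 2 / (6 * m)) * (X ^ 3 / m)) := by
          rw [hQ]; field_simp
      _ ≤ _ := by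
        apply mul_le_mul_of_nonneg_left _ (Nat.cast_nonneg _)
        exact mul_le_mul e1 e2 (by positivity) (le_trans (by positivity) e1)
  -- the bad sets
  let B1 : ℕ → Finset (ℤ × ℤ) := fun p => A.filter fun x => ((m * p : ℕ) : ℤ) ∣ Dd x.1 x.2
  let B2 : ℕ → Finset (ℤ × ℤ) := fun p => A.filter fun x => ¬ (p : ℤ) ∣ x.1 ∧
    (p : ℤ) ^ 2 ∣ Dd x.1 x.2
  let B3 : ℕ → Finset (ℤ × ℤ) := fun p => A.filter fun x => (p : ℤ) ∣ x.1 ∧ (p : ℤ) ∣ x.2
  let B4 : ℕ → Finset (ℤ × ℤ) := fun p => A.filter fun x => (p : ℤ) ^ 4 ∣ x.1 ∧ (p : ℤ) ^ 6 ∣ x.2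
  let P2 : Finset ℕ := (Finset.range (⌊P⌋₊ + 1)).filter fun p => p.Prime ∧ z < (p : ℝ) ∧
    (p : ℝ) ≤ P ∧ ¬ p ∣ m
  let P3 : Finset ℕ := (Finset.range (⌊X ^ 2⌋₊ + 1)).filter fun p => p.Prime ∧ 6400 ≤ p ∧ ¬ p ∣ m ∧
    (p : ℝ) ≤ X ^ 2
  let P3a : Finset ℕ := P3.filter fun p => (m : ℝ) * p ≤ X ^ 2
  let P3b : Finset ℕ := P3.filter fun p => ¬ (m : ℝ) * p ≤ X ^ 2
  let P4 : Finset ℕ := (Finset.range 6400).filter fun p => p.Prime ∧ 5 ≤ p ∧ ¬ p ∣ m
  -- the bounds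
  have hb1 : ∀ p ∈ T, ((B1 p).card : ℝ) ≤ 16 * Q * (1 / p) := by
    intro p hp
    obtain ⟨hpp, hpm, hpP⟩ := hT p hp
    have hp1 : (1 : ℝ) ≤ p := by exact_mod_cast hpp.one_le
    have hmp : ((m * p : ℕ) : ℝ) ≤ X ^ 2 := by
      push_cast
      refine le_trans ?_ (hmP.trans hXX2)
      have : (p : ℝ) ≤ P ^ 2 := by nlinarith
      gcongr
    have hcop6 : (m * p).Coprime 6 := Nat.Coprime.mul_left hm (hm.coprime_dvd_left hpm)
    have h := up (M := m * p) (M1 := m * p) (M2 := m * p) hcop6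
      (Nat.mul_pos hm0 hpp.pos) (Nat.mul_pos hm0 hpp.pos) (Nat.mul_pos hm0 hpp.pos)
      (Y1 := X ^ 2) (Y2 := X ^ 3) hmp
      (hmp.trans hX23) (B1 p) (by
        intro x hx
        simp only [B1, Finset.mem_filter, memA] at hx
        refine ⟨hx.1.1.1, hx.1.1.2, ?_, hx.2⟩
        push_cast
        have h5 : IsCoprime x.1 (p : ℤ) :=
          IsCoprime.of_isCoprime_of_dvd_right hx.1.2.2.1 (by exact_mod_cast hpm)
        exact hx.1.2.2.1.mul_right h5) (fun _ _ _ _ h => h) (fun _ _ _ _ h => h)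
    refine h.trans (le_of_eq ?_)
    rw [mul_comm m p, Nat.totient_mul_of_prime_of_dvd hpp hpm, hQ]
    push_cast
    have : (p : ℝ) ≠ 0 := by positivity
    field_simp
  have hb2 : ∀ p ∈ P2, ((B2 p).card : ℝ) ≤ 16 * Q * (1 / (p : ℝ) ^ 2) := by
    intro p hp
    simp only [P2, Finset.mem_filter] at hp
    obtain ⟨-, hpp, hzp, hpP, hpm⟩ := hp
    have hp1 : (1 : ℝ) ≤ p := by exact_mod_cast hpp.one_le
    have hpc : m.Coprime p := ((Nat.Prime.coprime_iff_not_dvd hpp).2 hpm).symm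
    have hmp : ((m * p ^ 2 : ℕ) : ℝ) ≤ X ^ 2 := by
      push_cast
      refine le_trans ?_ (hmP.trans hXX2)
      gcongr
    have hp6 : (p ^ 2).Coprime 6 := by
      apply Nat.Coprime.pow_left
      rw [Nat.Prime.coprime_iff_not_dvd hpp]
      intro h6
      have := Nat.le_of_dvd (by norm_num) h6
      have h7 : (p : ℝ) ≤ 6 := by exact_mod_cast this
      linarith
    have h := up (M := m * p ^ 2) (M1 := m * p ^ 2) (M2 := m * p ^ 2) (Nat.Coprime.mul_left hm hp6)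
      (Nat.mul_pos hm0 (pow_pos hpp.pos 2)) (Nat.mul_pos hm0 (pow_pos hpp.pos 2))
      (Nat.mul_pos hm0 (pow_pos hpp.pos 2))
      (Y1 := X ^ 2) (Y2 := X ^ 3) hmp
      (hmp.trans hX23) (B2 p) (by
        intro x hx
        simp only [B2, Finset.mem_filter, memA] at hx
        refine ⟨hx.1.1.1, hx.1.1.2, ?_, ?_⟩
        · push_cast
          have h5 : IsCoprime x.1 ((p : ℤ) ^ 2) :=
            ((Prime.coprime_iff_not_dvd (Nat.prime_iff_prime_int.1 hpp)).2 hx.2.1).symm.pow_right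
          exact hx.1.2.2.1.mul_right h5
        · push_cast
          have h5 : IsCoprime (m : ℤ) ((p : ℤ) ^ 2) := (Nat.isCoprime_iff_coprime.2 hpc).pow_right
          exact h5.mul_dvd hx.1.2.2.2 hx.2.2) (fun _ _ _ _ h => h) (fun _ _ _ _ h => h)
    have hphi2 : (((m * p ^ 2).totient : ℕ) : ℝ) ≤ m.totient * (p : ℝ) ^ 2 := by
      rw [Nat.totient_mul (hpc.pow_right 2)]
      have : (p ^ 2).totient ≤ p ^ 2 := Nat.totient_le _
      have h7 : (((p ^ 2).totient : ℕ) : ℝ) ≤ (p : ℝ) ^ 2 := by exact_mod_cast this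
      push_cast
      gcongr
    calc ((B2 p).card : ℝ) ≤ _ := h
      _ ≤ (m.totient * (p : ℝ) ^ 2) *
          (16 * (X ^ 2 * X ^ 3) / (((m * p ^ 2 : ℕ) : ℝ) * ((m * p ^ 2 : ℕ) : ℝ))) := by gcongr
      _ = 16 * Q * (1 / (p : ℝ) ^ 2) := by
        rw [hQ]
        push_cast
        have : (p : ℝ) ≠ 0 := by positivity
        field_simp
  have hb3a : ∀ p ∈ P3a, ((B3 p).card : ℝ) ≤ 16 * Q * (1 / (p : ℝ) ^ 2) := by
    intro p hp
    simp only [P3a, P3, Finset.mem_filter] at hp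
    obtain ⟨⟨-, hpp, hp5, hpm, hpX⟩, hmp⟩ := hp
    have hpc : m.Coprime p := ((Nat.Prime.coprime_iff_not_dvd hpp).2 hpm).symm
    have hp1 : (1 : ℝ) ≤ p := by exact_mod_cast hpp.one_le
    have h := up (M := m) (M1 := m * p) (M2 := m * p) hm hm0
      (Nat.mul_pos hm0 hpp.pos) (Nat.mul_pos hm0 hpp.pos)
      (Y1 := X ^ 2) (Y2 := X ^ 3) (by push_cast; exact hmp)
      (by push_cast; exact hmp.trans hX23) (B3 p) (by
        intro x hx
        simp only [B3, Finset.mem_filter, memA] at hx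
        exact ⟨hx.1.1.1, hx.1.1.2, hx.1.2.2.1, hx.1.2.2.2⟩)
        (by
          intro x hx y hy h
          simp only [B3, Finset.mem_filter] at hx hy
          exact modEq_mul hpc h hx.2.1 hy.2.1)
        (by
          intro x hx y hy h
          simp only [B3, Finset.mem_filter] at hx hy
          exact modEq_mul hpc h hx.2.2 hy.2.2)
    calc ((B3 p).card : ℝ) ≤ _ := h
      _ = 16 * Q * (1 / (p : ℝ) ^ 2) := by
        rw [hQ]
        push_cast
        have : (p : ℝ) ≠ 0 := by positivity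
        field_simp
  have hb3b : ∀ p ∈ P3b, ((B3 p).card : ℝ) ≤ 32 * m * Q * (1 / (p : ℝ) ^ 2) := by
    intro p hp
    simp only [P3b, P3, Finset.mem_filter, not_le] at hp
    obtain ⟨⟨-, hpp, hp5, hpm, hpX⟩, hmp⟩ := hp
    have hp1 : (1 : ℝ) ≤ p := by exact_mod_cast hpp.one_le
    have h := up (M := 1) (M1 := p) (M2 := p) (by norm_num) le_rfl hpp.pos hpp.pos
      (Y1 := X ^ 2) (Y2 := X ^ 3) hpX (hpX.trans hX23) (B3 p) (by
        intro x hx
        simp only [B3, Finset.mem_filter, memA] at hx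
        exact ⟨hx.1.1.1, hx.1.1.2, by push_cast; exact isCoprime_one_right, by simp⟩)
        (by
          intro x hx y hy h
          simp only [B3, Finset.mem_filter] at hx hy
          exact Int.modEq_iff_dvd.2 (dvd_sub hy.2.1 hx.2.1))
        (by
          intro x hx y hy h
          simp only [B3, Finset.mem_filter] at hx hy
          exact Int.modEq_iff_dvd.2 (dvd_sub hy.2.2 hx.2.2))
    calc ((B3 p).card : ℝ) ≤ _ := h
      _ = 32 * m * (X ^ 5 / (2 * m)) * (1 / (p : ℝ) ^ 2) := by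
        have : (p : ℝ) ≠ 0 := by positivity
        simp only [Nat.totient_one, Nat.cast_one]
        field_simp
        ring
      _ ≤ 32 * m * Q * (1 / (p : ℝ) ^ 2) := by gcongr
  have hb4 : ∀ p ∈ P4, ((B4 p).card : ℝ) ≤ 16 * Q / 390625 * (1 / (p : ℝ) ^ 2) := by
    intro p hp
    simp only [P4, Finset.mem_filter, Finset.mem_range] at hp
    obtain ⟨hp64, hpp, hp5, hpm⟩ := hp
    have hp5r : (5 : ℝ) ≤ p := by exact_mod_cast hp5
    have hp64r : (p : ℝ) ≤ 6400 := by exact_mod_cast hp64.le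
    have hpc : m.Coprime p := ((Nat.Prime.coprime_iff_not_dvd hpp).2 hpm).symm
    have hp4 : (m : ℝ) * (p : ℝ) ^ 4 ≤ X ^ 2 := by
      calc (m : ℝ) * (p : ℝ) ^ 4 ≤ (m : ℝ) * 6400 ^ 4 := by gcongr
        _ = ((m : ℝ) * 6400 ^ 2) * 6400 ^ 2 := by ring
        _ ≤ X * X := by
          apply mul_le_mul _ hX6 (by positivity) hX0.le
          have : 0 ≤ (m : ℝ) * 6400 ^ 2 := by positivity
          linarith
        _ = X ^ 2 := by ring
    have hp6 : (m : ℝ) * (p : ℝ) ^ 6 ≤ X ^ 3 := by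
      calc (m : ℝ) * (p : ℝ) ^ 6 = (m * (p : ℝ) ^ 4) * (p : ℝ) ^ 2 := by ring
        _ ≤ X ^ 2 * X := by
          apply mul_le_mul hp4 _ (by positivity) (by positivity)
          refine le_trans ?_ hX6
          gcongr
        _ = X ^ 3 := by ring
    have h := up (M := m) (M1 := m * p ^ 4) (M2 := m * p ^ 6) hm hm0
      (Nat.mul_pos hm0 (pow_pos hpp.pos 4)) (Nat.mul_pos hm0 (pow_pos hpp.pos 6))
      (Y1 := X ^ 2) (Y2 := X ^ 3) (by push_cast; exact hp4)
      (by push_cast; exact hp6) (B4 p) (by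
        intro x hx
        simp only [B4, Finset.mem_filter, memA] at hx
        exact ⟨hx.1.1.1, hx.1.1.2, hx.1.2.2.1, hx.1.2.2.2⟩)
        (by
          intro x hx y hy h
          simp only [B4, Finset.mem_filter] at hx hy
          exact modEq_mul (hpc.pow_right 4) h (by push_cast; exact hx.2.1)
            (by push_cast; exact hy.2.1))
        (by
          intro x hx y hy h
          simp only [B4, Finset.mem_filter] at hx hy
          exact modEq_mul (hpc.pow_right 6) h (by push_cast; exact hx.2.2)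
            (by push_cast; exact hy.2.2))
    have h8 : (390625 : ℝ) ≤ (p : ℝ) ^ 8 := by
      calc (390625 : ℝ) = 5 ^ 8 := by norm_num
        _ ≤ (p : ℝ) ^ 8 := by gcongr
    calc ((B4 p).card : ℝ) ≤ _ := h
      _ = 16 * Q / (p : ℝ) ^ 8 * (1 / (p : ℝ) ^ 2) := by
        rw [hQ]
        push_cast
        have : (p : ℝ) ≠ 0 := by positivity
        field_simp
      _ ≤ 16 * Q / 390625 * (1 / (p : ℝ) ^ 2) := by gcongr
  -- the sums
  have hs1 : ∑ p ∈ T, ((B1 p).card : ℝ) ≤ 16 / 1000 * Q := by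
    calc _ ≤ ∑ p ∈ T, 16 * Q * (1 / (p : ℝ)) := Finset.sum_le_sum hb1
      _ = 16 * Q * ∑ p ∈ T, 1 / (p : ℝ) := by rw [Finset.mul_sum]
      _ ≤ 16 * Q * (1 / 1000) := by gcongr
      _ = _ := by ring
  have ht2 : ∑ p ∈ P2, 1 / (p : ℝ) ^ 2 ≤ 2 / z :=
    tail P2 (by linarith) (fun n hn => (Finset.mem_filter.1 hn).2.2.1)
  have hz2 : 2 / z ≤ 2 / 6400 := by gcongr
  have hs2 : ∑ p ∈ P2, ((B2 p).card : ℝ) ≤ 32 / 6400 * Q := by
    calc _ ≤ ∑ p ∈ P2, 16 * Q * (1 / (p : ℝ) ^ 2) := Finset.sum_le_sum hb2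
      _ = 16 * Q * ∑ p ∈ P2, 1 / (p : ℝ) ^ 2 := by rw [Finset.mul_sum]
      _ ≤ 16 * Q * (2 / 6400) := by gcongr; exact ht2.trans hz2
      _ = _ := by ring
  have hs3a : ∑ p ∈ P3a, ((B3 p).card : ℝ) ≤ 32 / 6399 * Q := by
    have ht : ∑ p ∈ P3a, 1 / (p : ℝ) ^ 2 ≤ 2 / 6399 :=
      tail P3a (by norm_num) (fun n hn => by
        have h5 : 6400 ≤ n := (Finset.mem_filter.1 (Finset.mem_filter.1 hn).1).2.2.1
        have : (6400 : ℝ) ≤ n := by exact_mod_cast h5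
        linarith)
    calc _ ≤ ∑ p ∈ P3a, 16 * Q * (1 / (p : ℝ) ^ 2) := Finset.sum_le_sum hb3a
      _ = 16 * Q * ∑ p ∈ P3a, 1 / (p : ℝ) ^ 2 := by rw [Finset.mul_sum]
      _ ≤ 16 * Q * (2 / 6399) := by gcongr
      _ = _ := by ring
  have hs3b : ∑ p ∈ P3b, ((B3 p).card : ℝ) ≤ 64 / 1000000 * Q := by
    have hw1 : 1 ≤ X ^ 2 / m := by
      rw [le_div_iff₀ hm0r]
      linarith
    have ht : ∑ p ∈ P3b, 1 / (p : ℝ) ^ 2 ≤ 2 / (X ^ 2 / m) :=
      tail P3b hw1 (fun n hn => by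
        have h5 : X ^ 2 < m * (n : ℝ) := not_le.1 (Finset.mem_filter.1 hn).2
        rw [div_lt_iff₀ hm0r]
        linarith)
    calc _ ≤ ∑ p ∈ P3b, 32 * m * Q * (1 / (p : ℝ) ^ 2) := Finset.sum_le_sum hb3b
      _ = 32 * m * Q * ∑ p ∈ P3b, 1 / (p : ℝ) ^ 2 := by rw [Finset.mul_sum]
      _ ≤ 32 * m * Q * (2 / (X ^ 2 / m)) := by gcongr
      _ = 64 * Q * (m ^ 2 / X ^ 2) := by field_simp; ring
      _ ≤ 64 * Q * (1 / 1000000) := by
        refine mul_le_mul_of_nonneg_left ?_ (by positivity)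
        rw [div_le_div_iff₀ (by positivity) (by norm_num)]
        nlinarith
      _ = _ := by ring
  have hs4 : ∑ p ∈ P4, ((B4 p).card : ℝ) ≤ 8 / 390625 * Q := by
    have ht : ∑ p ∈ P4, 1 / (p : ℝ) ^ 2 ≤ 2 / 4 :=
      tail P4 (by norm_num) (fun n hn => by
        have h5 : 5 ≤ n := (Finset.mem_filter.1 hn).2.2.1
        have : (5 : ℝ) ≤ n := by exact_mod_cast h5
        linarith)
    calc _ ≤ ∑ p ∈ P4, 16 * Q / 390625 * (1 / (p : ℝ) ^ 2) := Finset.sum_le_sum hb4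
      _ = 16 * Q / 390625 * ∑ p ∈ P4, 1 / (p : ℝ) ^ 2 := by rw [Finset.mul_sum]
      _ ≤ 16 * Q / 390625 * (2 / 4) := by gcongr
      _ = _ := by ring
  set F : Finset (ℤ × ℤ) := A \ (T.biUnion B1 ∪ P2.biUnion B2 ∪ P3a.biUnion B3 ∪
    P3b.biUnion B3 ∪ P4.biUnion B4) with hF
  refine ⟨F, ?_, ?_⟩
  · intro x hx
    rw [hF, Finset.mem_sdiff, memA] at hx
    simp only [Finset.mem_union, Finset.mem_biUnion, not_or] at hx
    obtain ⟨⟨⟨g1, g2⟩, g3, g4, g5⟩, ⟨⟨⟨n1, n2⟩, n3a⟩, n3b⟩, n4⟩ := hx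
    have hxA : x ∈ A := (memA x).2 ⟨⟨g1, g2⟩, g3, g4, g5⟩
    have hin2 : ∀ p : ℕ, p.Prime → z < (p : ℝ) → (p : ℝ) ≤ P → ¬ p ∣ m → p ∈ P2 := by
      intro p hpp h1 h2 h3
      simp only [P2, Finset.mem_filter, Finset.mem_range]
      refine ⟨?_, hpp, h1, h2, h3⟩
      have := Nat.le_floor h2
      omega
    refine ⟨g1, g2, g3, g4, g5, ?_, ?_, ?_, ?_⟩
    · intro p hp hd
      exact n1 ⟨p, hp, Finset.mem_filter.2 ⟨hxA, hd⟩⟩
    · intro p hpp h1 h2 h3 h4 h5
      exact n2 ⟨p, hin2 p hpp h1 h2 h3, Finset.mem_filter.2 ⟨hxA, h4, h5⟩⟩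
    · intro p hpp hp64 hpm ⟨h4, h5⟩
      have hx0 : x.1 ≠ 0 := by
        intro h0
        rw [h0] at g3
        have := g3.dvd
        omega
      have hpX : (p : ℝ) ≤ X ^ 2 := by
        refine le_trans ?_ g1
        have h6 : (p : ℤ) ≤ |x.1| := Int.le_of_dvd (abs_pos.2 hx0) ((dvd_abs _ _).2 h4)
        exact_mod_cast h6
      have hp3 : p ∈ P3 := by
        simp only [P3, Finset.mem_filter, Finset.mem_range]
        refine ⟨?_, hpp, hp64, hpm, hpX⟩
        have := Nat.le_floor hpX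
        omega
      by_cases h6 : (m : ℝ) * (p : ℝ) ≤ X ^ 2
      · exact n3a ⟨p, Finset.mem_filter.2 ⟨hp3, h6⟩, Finset.mem_filter.2 ⟨hxA, h4, h5⟩⟩
      · exact n3b ⟨p, Finset.mem_filter.2 ⟨hp3, h6⟩, Finset.mem_filter.2 ⟨hxA, h4, h5⟩⟩
    · intro p hpp hp5 hp64 hpm ⟨h4, h5⟩
      exact n4 ⟨p, Finset.mem_filter.2 ⟨Finset.mem_range.2 hp64, hpp, hp5, hpm⟩,
        Finset.mem_filter.2 ⟨hxA, h4, h5⟩⟩
  · have hc1 : A.card ≤ F.card + (∑ p ∈ T, (B1 p).card + ∑ p ∈ P2, (B2 p).card +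
        ∑ p ∈ P3a, (B3 p).card + ∑ p ∈ P3b, (B3 p).card + ∑ p ∈ P4, (B4 p).card) := by
      have h1 := Finset.card_le_card_sdiff_add_card (t := T.biUnion B1 ∪ P2.biUnion B2 ∪
        P3a.biUnion B3 ∪ P3b.biUnion B3 ∪ P4.biUnion B4) (s := A)
      have k1 : (T.biUnion B1).card ≤ ∑ p ∈ T, (B1 p).card := Finset.card_biUnion_le
      have k2 : (P2.biUnion B2).card ≤ ∑ p ∈ P2, (B2 p).card := Finset.card_biUnion_le
      have k3 : (P3a.biUnion B3).card ≤ ∑ p ∈ P3a, (B3 p).card := Finset.card_biUnion_le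
      have k4 : (P3b.biUnion B3).card ≤ ∑ p ∈ P3b, (B3 p).card := Finset.card_biUnion_le
      have k5 : (P4.biUnion B4).card ≤ ∑ p ∈ P4, (B4 p).card := Finset.card_biUnion_le
      have u1 := Finset.card_union_le (T.biUnion B1) (P2.biUnion B2)
      have u2 := Finset.card_union_le (T.biUnion B1 ∪ P2.biUnion B2) (P3a.biUnion B3)
      have u3 := Finset.card_union_le (T.biUnion B1 ∪ P2.biUnion B2 ∪ P3a.biUnion B3)
        (P3b.biUnion B3)
      have u4 := Finset.card_union_le (T.biUnion B1 ∪ P2.biUnion B2 ∪ P3a.biUnion B3 ∪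
        P3b.biUnion B3) (P4.biUnion B4)
      rw [← hF] at h1
      omega
    have hc2 : (A.card : ℝ) ≤ F.card + (∑ p ∈ T, ((B1 p).card : ℝ) + ∑ p ∈ P2, ((B2 p).card : ℝ) +
        ∑ p ∈ P3a, ((B3 p).card : ℝ) + ∑ p ∈ P3b, ((B3 p).card : ℝ) +
        ∑ p ∈ P4, ((B4 p).card : ℝ)) := by exact_mod_cast hc1
    have hfin : Q / 12 ≤ F.card := by linarith
    refine le_trans ?_ hfin
    calc X ^ 5 / (24 * m) = X ^ 5 / (2 * m) / 12 := by field_simp; ring
      _ ≤ Q / 12 := by gcongr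

theorem low3 : S_LOW3 := by
  refine ⟨1 / 1000, 1 / 120, 6400, by norm_num, by norm_num, by norm_num, ?_⟩
  intro X z P j q hq hz hzP hpr hsum hX
  classical
  have hq0 : q ≠ 0 := by omega
  -- primes are large
  have hbig : ∀ p : ℕ, z < (p : ℝ) → 5 < p := by
    intro p hp
    have : (5 : ℝ) < p := by linarith
    exact_mod_cast this
  have h5q : ∀ p ∈ q.primeFactors, 5 ≤ p := fun p hp => (hbig p (hpr p hp).1).le
  have h5nq : ¬ 5 ∣ q := by
    intro h
    have := hbig 5 (hpr 5 (Nat.mem_primeFactors.2 ⟨by norm_num, h, hq0⟩)).1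
    omega
  have hfq : ∀ p : ℕ, p.Prime → (rd q).factorization p = if p ∣ q then 1 else 0 :=
    fun p hp => fact_rd hq0 h5q hp
  have hrdq0 : 0 < rd q := rd_pos q
  set m := 5 ^ (j + 1) * q * rd q with hm
  have hm0 : m ≠ 0 := by
    rw [hm]
    exact mul_ne_zero (mul_ne_zero (pow_ne_zero _ (by norm_num)) hq0) hrdq0.ne'
  have hfm : ∀ p : ℕ, p.Prime → m.factorization p = (if p = 5 then j + 1 else 0) +
      q.factorization p + (if p ∣ q then 1 else 0) := by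
    intro p hp
    rw [hm, Nat.factorization_mul (mul_ne_zero (pow_ne_zero _ (by norm_num)) hq0)
      hrdq0.ne', Nat.factorization_mul (pow_ne_zero _ (by norm_num)) hq0, Nat.factorization_pow,
      Finsupp.add_apply, Finsupp.add_apply, Finsupp.smul_apply,
      hfq p hp, (show Nat.Prime 5 by norm_num).factorization, Finsupp.single_apply]
    by_cases h : p = 5
    · simp [h]
    · simp [h, Ne.symm h]
  have hpm : ∀ p : ℕ, p.Prime → (p ∣ m ↔ p = 5 ∨ p ∣ q) := by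
    intro p hp
    rw [hp.dvd_iff_one_le_factorization hm0, hfm p hp]
    constructor
    · intro h
      by_contra hcon
      push Not at hcon
      obtain ⟨g1, g2⟩ := hcon
      simp only [g1, g2, if_false, Nat.factorization_eq_zero_of_not_dvd g2] at h
      omega
    · rintro (h | h)
      · simp only [h, if_true]; omega
      · simp only [h, if_true]; omega
  have hm6 : m.Coprime 6 := by
    rw [Nat.coprime_iff_gcd_eq_one]
    by_contra hne
    obtain ⟨p, hp, hpd⟩ := Nat.exists_prime_and_dvd hne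
    have h1 : p ∣ m := hpd.trans (Nat.gcd_dvd_left _ _)
    have h2 : p ∣ 6 := hpd.trans (Nat.gcd_dvd_right _ _)
    rcases (hpm p hp).1 h1 with h | h
    · rw [h] at h2; norm_num at h2
    · have h3 := hbig p (hpr p (Nat.mem_primeFactors.2 ⟨hp, h, hq0⟩)).1
      have h4 := Nat.le_of_dvd (by norm_num) h2
      have h5 : p = 6 := by omega
      rw [h5] at hp; norm_num at hp
  have hmr : (m : ℝ) = 5 * ((5 : ℝ) ^ j * q * rd q) := by
    rw [hm]
    push_cast
    ring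
  have hphi : (m : ℝ) ≤ 2 * m.totient := by
    have h1 : (m.totient : ℝ) = m * ∏ p ∈ m.primeFactors, (1 - 1 / (p : ℝ)) := by
      have h2 := Nat.totient_eq_mul_prod_factors m
      have h3 : ((m.totient : ℚ) : ℝ) = ((m * ∏ p ∈ m.primeFactors, (1 - (p : ℚ)⁻¹) : ℚ) : ℝ) := by
        rw [h2]
      push_cast at h3
      simp only [one_div]
      exact h3
    have h4 : 1 - ∑ p ∈ m.primeFactors, 1 / (p : ℝ) ≤ ∏ p ∈ m.primeFactors, (1 - 1 / (p : ℝ)) := by
      apply one_sub_sum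
      · intro p _; positivity
      · intro p hp
        have : (1 : ℝ) ≤ p := by exact_mod_cast (Nat.prime_of_mem_primeFactors hp).one_le
        rw [div_le_one (by linarith)]
        exact this
    have h5 : ∑ p ∈ m.primeFactors, 1 / (p : ℝ) ≤ ∑ p ∈ insert 5 q.primeFactors, 1 / (p : ℝ) := by
      apply Finset.sum_le_sum_of_subset_of_nonneg
      · intro p hp
        obtain ⟨h6, h7, -⟩ := Nat.mem_primeFactors.1 hp
        rw [Finset.mem_insert, Nat.mem_primeFactors]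
        rcases (hpm p h6).1 h7 with h | h
        · exact Or.inl h
        · exact Or.inr ⟨h6, h, hq0⟩
      · intro p _ _; positivity
    have h6 : (5 : ℕ) ∉ q.primeFactors := by
      intro h
      have := hbig 5 (hpr 5 h).1
      omega
    rw [Finset.sum_insert h6] at h5
    have h7 : (1 / 2 : ℝ) ≤ ∏ p ∈ m.primeFactors, (1 - 1 / (p : ℝ)) := by
      push_cast at h5
      linarith
    rw [h1]
    have h8 : (0 : ℝ) ≤ m := Nat.cast_nonneg _
    nlinarith
  obtain ⟨F, hF, hcard⟩ := sieve3 (X := X) (z := z) (P := P) (m := m) (T := q.primeFactors)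
    hm6 (Nat.one_le_iff_ne_zero.2 hm0) hz hzP (by
      rw [hmr]
      calc 1280 * (5 * ((5 : ℝ) ^ j * q * rd q)) * P ^ 2 =
          6400 * ((5 : ℝ) ^ j * q * rd q) * P ^ 2 := by ring
        _ ≤ X := hX)
    (by
      intro p hp
      obtain ⟨h6, h7, -⟩ := Nat.mem_primeFactors.1 hp
      refine ⟨h6, ?_, (hpr p hp).2⟩
      rw [hpm p h6]
      exact Or.inr h7) hsum hphi
  refine ⟨F, ?_, ?_⟩
  swap
  · refine le_trans (le_of_eq ?_) hcard
    rw [hmr]
    have h3 : (0 : ℝ) < q := by exact_mod_cast Nat.pos_of_ne_zero hq0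
    have h5 : (0 : ℝ) < rd q := by exact_mod_cast hrdq0
    field_simp
    ring
  intro x hx
  obtain ⟨g1, g2, g3, g4, g5, g6, g7, g8, g9⟩ := hF x hx
  have hD0 : Dd x.1 x.2 ≠ 0 := by
    intro h0
    unfold Dd at h0
    have h1 : (3 : ℤ) ∣ 4 * x.1 ^ 3 := ⟨9 * x.2 ^ 2, by linarith⟩
    have h2 : (3 : ℤ) ∣ x.1 := by
      rcases Int.prime_three.dvd_or_dvd h1 with h | h
      · omega
      · exact Int.prime_three.dvd_of_dvd_pow h
    have h3 := g3.dvd
    omega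
  have hDn0 : (Dd x.1 x.2).natAbs ≠ 0 := Int.natAbs_ne_zero.2 hD0
  have hmD : m ∣ (Dd x.1 x.2).natAbs := Int.natCast_dvd.1 g5
  have hnx : ∀ p : ℕ, p.Prime → p ∣ m → ¬ (p : ℤ) ∣ x.1 := by
    intro p hp hpm' hpx
    have h1 : IsCoprime x.1 (p : ℤ) :=
      IsCoprime.of_isCoprime_of_dvd_right g4 (by exact_mod_cast hpm')
    have h2 : IsUnit (p : ℤ) := h1.isUnit_of_dvd' hpx dvd_rfl
    exact (Nat.prime_iff_prime_int.1 hp).not_unit h2
  have hDT : ∀ p : ℕ, p ∈ q.primeFactors →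
      (Dd x.1 x.2).natAbs.factorization p = m.factorization p := by
    intro p hp
    obtain ⟨h6, h7, -⟩ := Nat.mem_primeFactors.1 hp
    apply val_eq hm0 h6 hDn0 hmD
    · intro h
      exact g6 p hp (Int.natCast_dvd.2 h)
    · rw [hpm p h6]
      exact Or.inr h7
  refine ⟨⟨hD0, ?_⟩, g1, g2, ?_, ?_, ?_, ?_⟩
  · rintro p hp ⟨h4, h6⟩
    by_cases hpm' : p ∣ m
    · exact hnx p hp hpm' ((dvd_pow_self _ (by norm_num)).trans h4)
    · by_cases hp5 : 5 ≤ p
      · by_cases hp64 : p < 6400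
        · exact g9 p hp hp5 hp64 hpm' ⟨h4, h6⟩
        · exact g8 p hp (by omega) hpm' ⟨(dvd_pow_self _ (by norm_num)).trans h4,
            (dvd_pow_self _ (by norm_num)).trans h6⟩
      · have h3 : (p : ℤ) ∣ x.1 := (dvd_pow_self _ (by norm_num)).trans h4
        have h5 := g3.dvd
        have h6 := hp.two_le
        have h7 : p = 2 ∨ p = 3 ∨ p = 4 := by omega
        rcases h7 with h | h | h
        · subst h; push_cast at h3; omega
        · subst h; push_cast at h3; omega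
        · subst h; norm_num at hp
  · have := g3
    rw [Int.ModEq] at this
    omega
  · intro p hp hp64 h1 h2
    by_cases hpm' : p ∣ m
    · exact hnx p hp hpm' h1
    · exact g8 p hp (by exact_mod_cast hp64) hpm' ⟨h1, h2⟩
  · intro p hp
    obtain ⟨hpp, hpd, -⟩ := Nat.mem_primeFactors.1 hp
    have h5j : (5 : ℕ) ^ j ≠ 0 := pow_ne_zero _ (by norm_num)
    have hv : (5 ^ j * q).factorization p = (if p = 5 then j else 0) + q.factorization p := by
      rw [Nat.factorization_mul h5j hq0,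
        Nat.factorization_pow, Finsupp.add_apply, Finsupp.smul_apply,
        (show Nat.Prime 5 by norm_num).factorization, Finsupp.single_apply]
      by_cases h : p = 5
      · simp [h]
      · simp [h, Ne.symm h]
    have hpc : p = 5 ∨ p ∣ q := by
      rcases (Nat.Prime.dvd_mul hpp).1 hpd with h | h
      · exact Or.inl ((Nat.prime_dvd_prime_iff_eq hpp (by norm_num)).1
            (hpp.dvd_of_dvd_pow h))
      · exact Or.inr h
    have hp5 : 5 ≤ p := by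
      rcases hpc with h | h
      · omega
      · exact h5q p (Nat.mem_primeFactors.2 ⟨hpp, h, hq0⟩)
    have hpm' : p ∣ m := (hpm p hpp).2 hpc
    have hfe : fe p x.1 = 1 := by
      unfold fe
      rw [if_neg (by omega), if_neg (hnx p hpp hpm')]
    have hle : (5 ^ j * q).factorization p + fe p x.1 ≤
        (Dd x.1 x.2).natAbs.factorization p := by
      have h1 : m.factorization p ≤ (Dd x.1 x.2).natAbs.factorization p :=
        (Nat.factorization_le_iff_dvd hm0 hDn0).2 hmD p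
      rw [hv, hfe]
      rw [hfm p hpp] at h1
      rcases hpc with h | h
      · subst h
        simp only [h5nq, if_true, if_false] at h1 ⊢
        omega
      · have h3 : p ≠ 5 := by rintro rfl; exact h5nq h
        simp only [h, h3, if_true, if_false] at h1 ⊢
        omega
    have h1 : p ^ ((5 ^ j * q).factorization p + fe p x.1) ∣
        (Dd x.1 x.2).natAbs :=
      (pow_dvd_pow p hle).trans (Nat.ordProj_dvd _ _)
    have h2 := Int.natCast_dvd.2 h1
    push_cast at h2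
    exact h2
  · intro p hp hzp hpP
    have hp5 := hbig p hzp
    have hp5' : p ≠ 5 := by omega
    refine ⟨?_, ?_⟩
    · intro hpx
      by_cases h : p ∣ q
      · have h1 := hDT p (Nat.mem_primeFactors.2 ⟨hp, h, hq0⟩)
        rw [hfm p hp] at h1
        simp only [h, hp5', if_true, if_false] at h1
        omega
      · have hpm' : ¬ p ∣ m := by
          intro h2
          rcases (hpm p hp).1 h2 with h3 | h3
          · exact hp5' h3
          · exact h h3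
        rw [Nat.factorization_eq_zero_of_not_dvd h]
        have h8 : (Dd x.1 x.2).natAbs.factorization p < 2 := by
          by_contra h9
          push Not at h9
          have h10 : p ^ 2 ∣ (Dd x.1 x.2).natAbs :=
            (pow_dvd_pow p h9).trans (Nat.ordProj_dvd _ _)
          have h11 := Int.natCast_dvd.2 h10
          push_cast at h11
          exact g7 p hp hzp hpP hpm' hpx h11
        omega
    · intro hpx
      apply Nat.factorization_eq_zero_of_not_dvd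
      intro h
      exact hnx p hp ((hpm p hp).2 (Or.inr h)) hpx

end Pool.Agent.N492.FH
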