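import Pool.Agent.N652.OM.Defs
import Pool.Agent.N652.OM.Stm

/-!
# Project OM, CONJ and UNQ: conjugation by `h` and symbols
-/

set_option autoImplicit false

namespace Pool.Agent.N492.OMConj

open Pool.Agent.N652.OM

noncomputable section

lemma hM_single (w : ℤ × Bool) (c : F) :
    (hM : MM Bool) (Finsupp.single w c) = Finsupp.single (hv w) c := by
  show Finsupp.domLCongr hv (Finsupp.single w c) = _
  rw [Finsupp.domLCongr_single]

lemma hMinv_single (w : ℤ × Bool) (c : F) :
    ((hM⁻¹ : (MM Bool)ˣ) : MM Bool) (Finsupp.single w c) = Finsupp.single (hv.symm w) c := by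
  show (Finsupp.domLCongr hv).symm (Finsupp.single w c) = _
  rw [Finsupp.domLCongr_symm, Finsupp.domLCongr_single]

/-- the permutation `σ` is near the ends of the lines a translation -/
def T (σ : ℤ × Bool → ℤ × Bool) (e : Bool → Bool → ℤ) : Prop :=
  ∀ (b : Bool) (j : ℤ), 2 ≤ |j| → σ (j, b) = (j + e b (decide (0 < j)), b)

lemma T_hv : T hv (fun b s => if b = s then 1 else 0) := by
  intro b j hj
  show (match ((j, b) : ℤ × Bool) with
    | (i, false) => if i = -1 then (0, true) else if i < 0 then (i + 1, false) else (i, false)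
    | (i, true) => if 0 ≤ i then (i + 1, true) else (i, true)) = _
  rcases le_abs.1 hj with h | h
  · have h1 : decide (0 < j) = true := decide_eq_true (by omega)
    rw [h1]
    cases b
    · simp only [Bool.false_eq_true, if_false]
      rw [if_neg (by omega), if_neg (by omega), add_zero]
    · simp only [if_true]
      rw [if_pos (by omega)]
  · have h1 : decide (0 < j) = false := decide_eq_false (by omega)
    rw [h1]
    cases b
    · simp only [if_true]
      rw [if_neg (by omega), if_pos (by omega)]
    · simp only [Bool.true_eq_false, if_false]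
      rw [if_neg (by omega), add_zero]

lemma T_hvs : T hv.symm (fun b s => if b = s then -1 else 0) := by
  intro b j hj
  show (match ((j, b) : ℤ × Bool) with
    | (i, false) => if i < 0 then (i - 1, false) else (i, false)
    | (i, true) => if i = 0 then (-1, false) else if 0 < i then (i - 1, true) else (i, true)) = _
  rcases le_abs.1 hj with h | h
  · have h1 : decide (0 < j) = true := decide_eq_true (by omega)
    rw [h1]
    cases b
    · simp only [Bool.false_eq_true, if_false]
      rw [if_neg (by omega), add_zero]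
    · simp only [if_true]
      rw [if_neg (by omega), if_pos (by omega)]
      rfl
  · have h1 : decide (0 < j) = false := decide_eq_false (by omega)
    rw [h1]
    cases b
    · simp only [if_true]
      rw [if_pos (by omega)]
      rfl
    · simp only [Bool.true_eq_false, if_false]
      rw [if_neg (by omega), if_neg (by omega), add_zero]

lemma conj_aux {u v x : MM Bool} {σ τ : ℤ × Bool → ℤ × Bool} {e f : Bool → Bool → ℤ}
    (hu : ∀ w c, u (Finsupp.single w c) = Finsupp.single (σ w) c)
    (hv : ∀ w c, v (Finsupp.single w c) = Finsupp.single (τ w) c)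
    (hσ : T σ e) (hτ : T τ f) (hef : ∀ b s, e b s + f b s = 0) (hf : ∀ b s, |f b s| ≤ 1)
    {p : Bool → LaurentPolynomial F} (hx : Sy x p) : Sy (u * x * v) p := by
  obtain ⟨N, hN⟩ := hx
  obtain ⟨L, hL⟩ : ∃ L : ℕ, ∀ b, ∀ k ∈ (p b).coeff.support, |k| ≤ L := by
    refine ⟨∑ b, ∑ k ∈ (p b).coeff.support, k.natAbs, fun b k hk => ?_⟩
    have h1 : k.natAbs ≤ ∑ k ∈ (p b).coeff.support, k.natAbs :=
      Finset.single_le_sum (f := fun k : ℤ => k.natAbs) (fun _ _ => Nat.zero_le _) hk
    have h2 : ∑ k ∈ (p b).coeff.support, k.natAbs ≤ ∑ b, ∑ k ∈ (p b).coeff.support, k.natAbs :=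
      Finset.single_le_sum (f := fun b => ∑ k ∈ (p b).coeff.support, k.natAbs)
        (fun _ _ => Nat.zero_le _) (Finset.mem_univ b)
    have h3 := h1.trans h2
    rw [Int.abs_eq_natAbs]
    exact_mod_cast h3
  refine ⟨N + L + 4, fun b j hj => ?_⟩
  push_cast at hj
  have hj2 : 2 ≤ |j| := by omega
  have hf1 := abs_le.1 (hf b (decide (0 < j)))
  have he1 := hef b (decide (0 < j))
  rw [Module.End.mul_apply, Module.End.mul_apply, hv, hτ b j hj2, hN b _ (by
    rcases le_abs.1 hj with h | h
    · exact le_abs.2 (Or.inl (by omega))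
    · exact le_abs.2 (Or.inr (by omega)))]
  rw [apply_sh]
  have e1 : sh b j (p b) = (p b).coeff.sum fun k c => Finsupp.single (j + k, b) c := rfl
  rw [e1]
  refine Finset.sum_congr rfl fun k hk => ?_
  have hk1 := abs_le.1 (hL b k hk)
  have hs : decide (0 < j + f b (decide (0 < j)) + k) = decide (0 < j) := by
    rw [decide_eq_decide]
    rcases le_abs.1 hj with h | h
    · constructor <;> intro <;> omega
    · constructor <;> intro <;> omega
  dsimp only
  rw [hu, hσ b _ (by
    rcases le_abs.1 hj with h | h
    · exact le_abs.2 (Or.inl (by omega))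
    · exact le_abs.2 (Or.inr (by omega))), hs, Finsupp.smul_single, smul_eq_mul, mul_one]
  congr 2
  omega

theorem conj : S_CONJ := by
  intro x p hx
  constructor
  · refine conj_aux (fun w c => hM_single w c) (fun w c => hMinv_single w c) T_hv T_hvs ?_ ?_ hx
    · intro b s
      by_cases h : b = s <;> simp [h]
    · intro b s
      by_cases h : b = s <;> simp [h]
  · refine conj_aux (fun w c => hMinv_single w c) (fun w c => hM_single w c) T_hvs T_hv ?_ ?_ hx
    · intro b s
      by_cases h : b = s <;> simp [h]
    · intro b s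
      by_cases h : b = s <;> simp [h]

lemma sh_inj {B : Type} (b : B) (j : ℤ) {p q : LaurentPolynomial F} (h : sh b j p = sh b j q) :
    p = q := by
  have h1 : Function.Injective (fun k : ℤ => (j + k, b)) := by
    intro k l hkl
    have := congrArg Prod.fst hkl
    simpa using this
  exact AddMonoidAlgebra.coeff_injective (Finsupp.mapDomain_injective h1 h)

lemma pow_single (n : ℕ) (w : ℤ × Bool) :
    ((hM : MM Bool) ^ n) (Finsupp.single w 1) = Finsupp.single ((hv ^ n) w) 1 := by
  induction n with
  | zero => rfl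
  | succ n ih =>
    rw [pow_succ', Module.End.mul_apply, ih, hM_single, pow_succ']
    rfl

lemma powi_single (n : ℕ) (w : ℤ × Bool) :
    (((hM⁻¹ : (MM Bool)ˣ) : MM Bool) ^ n) (Finsupp.single w 1) =
      Finsupp.single ((hv.symm ^ n) w) 1 := by
  induction n with
  | zero => rfl
  | succ n ih =>
    rw [pow_succ', Module.End.mul_apply, ih, hMinv_single, pow_succ']
    rfl

lemma zpow_single (n : ℤ) (w : ℤ × Bool) :
    (((hM ^ n : (MM Bool)ˣ)) : MM Bool) (Finsupp.single w 1) = Finsupp.single ((hv ^ n) w) 1 := by
  cases n with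
  | ofNat n =>
    rw [Int.ofNat_eq_natCast, zpow_natCast, zpow_natCast, Units.val_pow_eq_pow_val, pow_single]
  | negSucc n =>
    rw [zpow_negSucc, zpow_negSucc, ← inv_pow, ← inv_pow, Units.val_pow_eq_pow_val, powi_single]
    rfl

lemma hv_neg (i : ℤ) (h : i < -1) : hv (i, false) = (i + 1, false) := by
  show (if i = -1 then ((0 : ℤ), true) else if i < 0 then (i + 1, false) else (i, false)) = _
  rw [if_neg (by omega), if_pos (by omega)]

lemma hv_pos (i : ℤ) (h : 0 ≤ i) : hv (i, false) = (i, false) := by
  show (if i = -1 then ((0 : ℤ), true) else if i < 0 then (i + 1, false) else (i, false)) = _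
  rw [if_neg (by omega), if_neg (by omega)]

lemma pow_neg (n : ℕ) (i : ℤ) (h : i + n < 0) : (hv ^ n) (i, false) = (i + n, false) := by
  induction n with
  | zero => simp
  | succ n ih =>
    push_cast at h
    rw [pow_succ', Equiv.Perm.mul_apply, ih (by omega), hv_neg _ (by omega)]
    congr 1
    push_cast
    ring

lemma zpow_neg' (n i : ℤ) (h : i + |n| < 0) : (hv ^ n) (i, false) = (i + n, false) := by
  rcases le_total 0 n with hn | hn
  · obtain ⟨m, rfl⟩ := Int.eq_ofNat_of_zero_le hn
    rw [zpow_natCast]
    exact pow_neg m i (by rwa [abs_of_nonneg hn] at h)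
  · obtain ⟨m, hm⟩ := Int.eq_ofNat_of_zero_le (neg_nonneg.2 hn)
    have hm' : n = -(m : ℤ) := by omega
    subst hm'
    rw [abs_neg, abs_of_nonneg (Int.natCast_nonneg m)] at h
    rw [zpow_neg, zpow_natCast, Equiv.Perm.inv_eq_iff_eq, pow_neg m _ (by omega)]
    congr 1
    ring

theorem unq : S_UNQ := by
  constructor
  · rintro B x p q ⟨N, hN⟩ ⟨M, hM⟩
    funext b
    apply sh_inj b ((max N M : ℕ) : ℤ)
    have h1 : (N : ℤ) ≤ |((max N M : ℕ) : ℤ)| := by
      rw [abs_of_nonneg (Int.natCast_nonneg _)]
      exact_mod_cast le_max_left N M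
    have h2 : (M : ℤ) ≤ |((max N M : ℕ) : ℤ)| := by
      rw [abs_of_nonneg (Int.natCast_nonneg _)]
      exact_mod_cast le_max_right N M
    rw [← hN b _ h1, ← hM b _ h2]
  · rintro n p ⟨N, hN⟩
    have h1 : p false = 1 := by
      apply sh_inj false (N : ℤ)
      rw [← hN false N (by rw [abs_of_nonneg (Int.natCast_nonneg _)]), zpow_single, sh_one,
        Equiv.Perm.zpow_apply_eq_self_of_apply_eq_self (hv_pos _ (Int.natCast_nonneg _))]
    have h2 : p false = AddMonoidAlgebra.single n 1 := by
      apply sh_inj false (-(N : ℤ) - |n| - 1)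
      rw [← hN false _ (le_abs.2 (Or.inr (by have := abs_nonneg n; omega))), zpow_single,
        zpow_neg' _ _ (by omega), sh_single]
    rw [h1, AddMonoidAlgebra.one_def] at h2
    have h3 := congrArg AddMonoidAlgebra.coeff h2
    rw [AddMonoidAlgebra.coeff_single, AddMonoidAlgebra.coeff_single,
      Finsupp.single_left_inj one_ne_zero] at h3
    exact h3.symm

end

end Pool.Agent.N492.OMConj
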