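import Pool.Agent.N502.TM.Stm

/-!
# Project TM (helper502), part CHN: all codimensions for compact sets (helper492)
-/

set_option autoImplicit false

namespace Pool.Agent.N492.TM_CHN

open MeasureTheory Set Filter Topology
open scoped ENNReal Real InnerProductSpace Matrix
open Pool.Agent.N502.TM

/-! ### The action -/

theorem act_apply {d : ℕ} (g : O d) (x : V d) (j : Fin d) :
    act g x j = ∑ b, (g : Matrix (Fin d) (Fin d) ℝ) j b * x b := by
  unfold act
  rw [Matrix.toLpLin_apply]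
  rfl

theorem act_mul {d : ℕ} (g k : O d) (x : V d) : act (g * k) x = act g (act k x) := by
  unfold act
  rw [Matrix.toLpLin_apply, Matrix.toLpLin_apply, Matrix.toLpLin_apply,
    Matrix.mulVec_mulVec]
  rfl

theorem act_one {d : ℕ} (x : V d) : act 1 x = x := by
  unfold act
  rw [Matrix.toLpLin_apply]
  change WithLp.toLp 2 (Matrix.mulVec (1 : Matrix (Fin d) (Fin d) ℝ) x.ofLp) = x
  rw [Matrix.one_mulVec]

theorem act_inv_act {d : ℕ} (g : O d) (x : V d) : act g⁻¹ (act g x) = x := by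
  rw [← act_mul, inv_mul_cancel, act_one]

theorem act_act_inv {d : ℕ} (g : O d) (x : V d) : act g (act g⁻¹ x) = x := by
  rw [← act_mul, mul_inv_cancel, act_one]

theorem cont_coe {d : ℕ} (i j : Fin d) :
    Continuous fun g : O d => (g : Matrix (Fin d) (Fin d) ℝ) i j := by
  have h1 : Continuous fun g : O d => (g : Matrix (Fin d) (Fin d) ℝ) := continuous_subtype_val
  exact (continuous_apply j).comp ((continuous_apply i).comp h1)

theorem cont_act {d : ℕ} : Continuous fun p : O d × V d => act p.1 p.2 := by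
  have h1 : Continuous fun p : O d × V d => (fun j => act p.1 p.2 j) := by
    refine continuous_pi fun j => ?_
    simp only [act_apply]
    refine continuous_finsetSum _ fun b _ => ?_
    refine ((cont_coe j b).comp continuous_fst).mul ?_
    exact (continuous_apply b).comp ((PiLp.continuous_ofLp 2 _).comp continuous_snd)
  exact (PiLp.continuous_toLp 2 _).comp h1

theorem cont_pr {n i : ℕ} (h : i ≤ n) : Continuous (pr h : V n → V i) := by
  have h1 : Continuous fun x : V n => (fun j => x (Fin.castLE h j) : Fin i → ℝ) := by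
    refine continuous_pi fun j => ?_
    exact (continuous_apply _).comp (PiLp.continuous_ofLp 2 _)
  exact (PiLp.continuous_toLp 2 _).comp h1

theorem pr_apply {n i : ℕ} (h : i ≤ n) (x : V n) (j : Fin i) : pr h x j = x (Fin.castLE h j) := rfl

theorem pr_pr {n m i : ℕ} (h1 : i ≤ m) (h2 : m ≤ n) (x : V n) :
    pr h1 (pr h2 x) = pr (h1.trans h2) x := rfl

theorem pr_self {n : ℕ} (h : n ≤ n) (x : V n) : pr h x = x := rfl

theorem pr_ext {m : ℕ} (y : V m) (t : ℝ) : pr (Nat.le_succ m) (ext y t) = y := by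
  ext j
  rw [pr_apply]
  unfold Pool.Agent.N502.TM.ext
  exact Fin.snoc_castSucc (α := fun _ => ℝ) t (fun j => y j) j

theorem ext_pr {m : ℕ} (w : V (m + 1)) : ext (pr (Nat.le_succ m) w) (w (Fin.last m)) = w := by
  ext j
  refine Fin.lastCases ?_ (fun i => ?_) j
  · exact Fin.snoc_last (α := fun _ => ℝ) _ _
  · exact Fin.snoc_castSucc (α := fun _ => ℝ) _ _ i

/-! ### Block matrices -/

/-- The decomposition of the indices. -/
def eqv {n m : ℕ} (h : m ≤ n) : Fin m ⊕ Fin (n - m) ≃ Fin n :=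
  finSumFinEquiv.trans (finCongr (Nat.add_sub_of_le h))

theorem eqv_inl {n m : ℕ} (h : m ≤ n) (a : Fin m) : eqv h (Sum.inl a) = Fin.castLE h a := by
  ext
  simp [eqv]

/-- The block matrix. -/
def blk {m l : ℕ} (k : Matrix (Fin m) (Fin m) ℝ) : Matrix (Fin m ⊕ Fin l) (Fin m ⊕ Fin l) ℝ :=
  Matrix.fromBlocks k 0 0 1

/-- The block matrix. -/
def hatM {n m : ℕ} (h : m ≤ n) (k : Matrix (Fin m) (Fin m) ℝ) : Matrix (Fin n) (Fin n) ℝ :=
  Matrix.reindex (eqv h) (eqv h) (blk k)

theorem hatM_mem {n m : ℕ} (h : m ≤ n) (k : O m) :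
    hatM h k ∈ Matrix.orthogonalGroup (Fin n) ℝ := by
  rw [Matrix.mem_orthogonalGroup_iff]
  have h1 : (k : Matrix (Fin m) (Fin m) ℝ) * (k : Matrix (Fin m) (Fin m) ℝ)ᵀ = 1 :=
    (Matrix.mem_orthogonalGroup_iff (Fin m) ℝ).1 k.2
  unfold hatM blk
  rw [Matrix.transpose_reindex, Matrix.reindex_apply, Matrix.reindex_apply,
    Matrix.submatrix_mul_equiv, Matrix.fromBlocks_transpose, Matrix.fromBlocks_multiply, h1]
  simp

/-- The block orthogonal matrix. -/
def hat {n m : ℕ} (h : m ≤ n) (k : O m) : O n := ⟨hatM h k, hatM_mem h k⟩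

theorem hat_cont {n m : ℕ} (h : m ≤ n) : Continuous (hat h) := by
  refine Continuous.subtype_mk ?_ _
  refine continuous_matrix fun a b => ?_
  unfold hatM blk
  simp only [Matrix.reindex_apply, Matrix.submatrix_apply]
  rcases (eqv h).symm a with c | c <;> rcases (eqv h).symm b with e | e
  · simp only [Matrix.fromBlocks_apply₁₁]
    exact cont_coe c e
  · simp only [Matrix.fromBlocks_apply₁₂]
    exact continuous_const
  · simp only [Matrix.fromBlocks_apply₂₁]
    exact continuous_const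
  · simp only [Matrix.fromBlocks_apply₂₂]
    exact continuous_const

theorem pr_act_hat {n m : ℕ} (h : m ≤ n) (k : O m) (x : V n) :
    pr h (act (hat h k) x) = act k (pr h x) := by
  ext j
  rw [pr_apply, act_apply, act_apply, ← (eqv h).sum_comp, Fintype.sum_sum_type]
  have h1 : ∀ c : Fin m ⊕ Fin (n - m), ((hat h k : O n) : Matrix (Fin n) (Fin n) ℝ)
      (Fin.castLE h j) (eqv h c) =
      blk (k : Matrix (Fin m) (Fin m) ℝ) (Sum.inl j) c := by
    intro c
    rw [← eqv_inl]
    change blk (k : Matrix (Fin m) (Fin m) ℝ) ((eqv h).symm _) ((eqv h).symm _) = _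
    rw [Equiv.symm_apply_apply, Equiv.symm_apply_apply]
  simp only [h1]
  simp only [blk, Matrix.fromBlocks_apply₁₁, Matrix.fromBlocks_apply₁₂, Matrix.zero_apply, zero_mul,
    Finset.sum_const_zero, add_zero, eqv_inl, pr_apply]

theorem pr_act_hat_inv {n m : ℕ} (h : m ≤ n) (k : O m) (x : V n) :
    pr h (act (hat h k)⁻¹ x) = act k⁻¹ (pr h x) := by
  have h1 := pr_act_hat h k (act (hat h k)⁻¹ x)
  rw [act_act_inv] at h1
  rw [h1, act_inv_act]

theorem shadow_hat {n i : ℕ} (h : i + 1 ≤ n) (h' : i ≤ n) (g : O n) (k : O (i + 1))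
    (K : Set (V n)) : shadow h' (g * hat h k) K = sh k (shadow h g K) := by
  ext y
  have key : ∀ x : V n, pr h' (act (g * hat h k)⁻¹ x) =
      pr (Nat.le_succ i) (act k⁻¹ (pr h (act g⁻¹ x))) := by
    intro x
    rw [mul_inv_rev, act_mul, ← pr_pr (Nat.le_succ i) h, pr_act_hat_inv]
  constructor
  · rintro ⟨x, hx, rfl⟩
    refine ⟨act k⁻¹ (pr h (act g⁻¹ x)) (Fin.last i), ?_⟩
    change act k (ext (pr h' (act (g * hat h k)⁻¹ x)) _) ∈ _
    rw [key, ext_pr, act_act_inv]
    exact ⟨x, hx, rfl⟩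
  · rintro ⟨t, x, hx, hxt⟩
    refine ⟨x, hx, ?_⟩
    change pr h' (act (g * hat h k)⁻¹ x) = y
    change pr h (act g⁻¹ x) = _ at hxt
    rw [key, hxt, act_inv_act, pr_ext]

/-! ### Measures of the shadows -/

instance instTG (d : ℕ) : IsTopologicalGroup (O d) := inferInstance

theorem cont_sh {n i : ℕ} (h : i ≤ n) :
    Continuous fun p : O n × V n => pr h (act p.1⁻¹ p.2) := by
  have h1 : Continuous fun p : O n × V n => (p.1⁻¹, p.2) :=
    (continuous_fst.inv).prodMk continuous_snd
  have h2 := (cont_pr h).comp (cont_act.comp h1)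
  exact h2

theorem compact_shadow {n i : ℕ} (h : i ≤ n) (g : O n) {K : Set (V n)} (hK : IsCompact K) :
    IsCompact (shadow h g K) := by
  have h1 : Continuous fun x : V n => (g⁻¹, x) := continuous_const.prodMk continuous_id
  have h2 := (cont_pr h).comp (cont_act.comp h1)
  unfold shadow
  exact hK.image h2

theorem meas_shadow {n i : ℕ} (h : i ≤ n) {K : Set (V n)} (hK : IsCompact K) :
    Measurable fun g : O n => volume (shadow h g K) := by
  have h1 : IsCompact ((fun p : O n × V n => (p.1, pr h (act p.1⁻¹ p.2))) '' (univ ×ˢ K)) :=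
    (isCompact_univ.prod hK).image (continuous_fst.prodMk (cont_sh h))
  have h2 := measurable_measure_prodMk_left (ν := (volume : Measure (V i))) h1.measurableSet
  convert h2 using 2 with g
  congr 1
  ext y
  constructor
  · rintro ⟨x, hx, rfl⟩
    exact ⟨(g, x), ⟨mem_univ _, hx⟩, rfl⟩
  · rintro ⟨⟨g', x⟩, ⟨-, hx⟩, hp⟩
    obtain ⟨rfl, rfl⟩ := Prod.mk.inj hp
    exact ⟨x, hx, rfl⟩

theorem vol_self {n : ℕ} (h : n ≤ n) (g : O n) (K : Set (V n)) :
    volume (shadow h g K) = volume K := by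
  have h1 : shadow h g K =
      (Matrix.toEuclideanLin ((g⁻¹ : O n) : Matrix (Fin n) (Fin n) ℝ)) '' K := rfl
  have hd : LinearMap.det (Matrix.toEuclideanLin ((g⁻¹ : O n) : Matrix (Fin n) (Fin n) ℝ)) =
      ((g⁻¹ : O n) : Matrix (Fin n) (Fin n) ℝ).det :=
    LinearMap.det_toLin (PiLp.basisFun 2 ℝ (Fin n)) _
  rw [h1, Measure.addHaar_image_linearMap, hd]
  have h2 : ((g⁻¹ : O n) : Matrix (Fin n) (Fin n) ℝ) *
      ((g⁻¹ : O n) : Matrix (Fin n) (Fin n) ℝ)ᵀ = 1 :=
    (Matrix.mem_orthogonalGroup_iff (Fin n) ℝ).1 (g⁻¹ : O n).2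
  have h3 := congrArg Matrix.det h2
  rw [Matrix.det_mul, Matrix.det_transpose, Matrix.det_one] at h3
  have h4 : |((g⁻¹ : O n) : Matrix (Fin n) (Fin n) ℝ).det| = 1 := by
    rw [← abs_mul_abs_self] at h3
    have h5 := abs_nonneg ((g⁻¹ : O n) : Matrix (Fin n) (Fin n) ℝ).det
    nlinarith
  rw [h4, ENNReal.ofReal_one, one_mul]

/-- The inequality of Jensen for powers. -/
theorem jensen {α : Type} [MeasurableSpace α] (μ : Measure α) [IsProbabilityMeasure μ]
    (f : α → ℝ≥0∞) (hf : AEMeasurable f μ) {p : ℝ} (hp0 : 0 < p) (hp1 : p < 1) :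
    ∫⁻ a, f a ^ p ∂μ ≤ (∫⁻ a, f a ∂μ) ^ p := by
  have hpq : (p⁻¹).HolderConjugate ((1 - p)⁻¹) := by
    rw [Real.holderConjugate_iff]
    refine ⟨(one_lt_inv₀ hp0).2 hp1, ?_⟩
    rw [inv_inv, inv_inv]
    ring
  have h := ENNReal.lintegral_mul_le_Lp_mul_Lq μ hpq (f := fun a => f a ^ p) (g := fun _ => 1)
    (hf.pow_const p) aemeasurable_const
  have h1 : ∀ a, (f a ^ p) ^ p⁻¹ = f a := by
    intro a
    rw [← ENNReal.rpow_mul, mul_inv_cancel₀ hp0.ne', ENNReal.rpow_one]
  simp only [h1, Pi.mul_apply, mul_one, ENNReal.one_rpow, lintegral_const, measure_univ,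
    one_div, inv_inv] at h
  exact h

/-- **CHN** -/
theorem main : S_CHN := by
  intro hHar hInv hcod n i hi h μ hμ hμl K hK
  have hr : μ.IsMulRightInvariant := hInv n μ hμ hμl
  have hκ0 : ∀ m : ℕ, volume (Metric.ball (0 : V m) 1) ≠ 0 := fun m =>
    (Metric.measure_ball_pos volume _ one_pos).ne'
  have hκ1 : ∀ m : ℕ, volume (Metric.ball (0 : V m) 1) ≠ ∞ := fun m => measure_ball_lt_top.ne
  have key : ∀ d i : ℕ, 1 ≤ i → ∀ h : i ≤ n, i + d = n →
      ∫⁻ g, (volume (shadow h g K))⁻¹ ∂μ ≤ (volume (Metric.ball (0 : V i) 1))⁻¹ *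
      (volume (Metric.ball (0 : V n) 1) / volume K) ^ ((i : ℝ) / n) := by
    intro d
    induction d with
    | zero =>
      intro i hi h hn
      obtain rfl : i = n := by omega
      have hi' : (i : ℝ) ≠ 0 := by positivity
      have h1 : ∀ g : O i, (volume (shadow h g K))⁻¹ = (volume K)⁻¹ := fun g => by
        rw [vol_self]
      simp only [h1, lintegral_const, measure_univ, mul_one]
      rw [div_self hi', ENNReal.rpow_one, ENNReal.div_eq_inv_mul, mul_comm (volume K)⁻¹, ← mul_assoc,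
        ENNReal.inv_mul_cancel (hκ0 i) (hκ1 i), one_mul]
    | succ d ih =>
      intro i hi h hn
      have h' : i + 1 ≤ n := by omega
      have IH := ih (i + 1) (by omega) h' (by omega)
      obtain ⟨ν, hν, hνl⟩ := hHar (i + 1)
      have hn0 : (n : ℝ) ≠ 0 := by
        have : 0 < n := by omega
        positivity
      have hi0 : (0 : ℝ) < i := by positivity
      -- averaging
      have e1 : ∀ k : O (i + 1), ∫⁻ g, (volume (shadow h (g * hat h' k) K))⁻¹ ∂μ =
          ∫⁻ g, (volume (shadow h g K))⁻¹ ∂μ := fun k =>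
        lintegral_mul_right_eq_self (fun g => (volume (shadow h g K))⁻¹) (hat h' k)
      have hm : Measurable (Function.uncurry fun (k : O (i + 1)) (g : O n) =>
          (volume (shadow h (g * hat h' k) K))⁻¹) := by
        have c1 : Continuous fun p : O (i + 1) × O n => p.2 * hat h' p.1 :=
          continuous_snd.mul ((hat_cont h').comp continuous_fst)
        exact ((meas_shadow h hK).comp c1.measurable).inv
      have e2 : ∫⁻ g, (volume (shadow h g K))⁻¹ ∂μ =
          ∫⁻ g, ∫⁻ k, (volume (shadow h (g * hat h' k) K))⁻¹ ∂ν ∂μ := by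
        rw [← lintegral_lintegral_swap hm.aemeasurable]
        simp only [e1, lintegral_const, measure_univ, mul_one]
      have hp0 : (0 : ℝ) < (i : ℝ) / (i + 1) := by positivity
      have hp1 : (i : ℝ) / (i + 1) < 1 := by
        rw [div_lt_one (by positivity)]
        linarith
      have e3 : ∀ g : O n, ∫⁻ k, (volume (shadow h (g * hat h' k) K))⁻¹ ∂ν ≤
          (volume (Metric.ball (0 : V i) 1))⁻¹ *
            ((volume (Metric.ball (0 : V (i + 1)) 1)) ^ ((i : ℝ) / (i + 1)) *
              ((volume (shadow h' g K))⁻¹) ^ ((i : ℝ) / (i + 1))) := by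
        intro g
        have f1 := hcod i hi ν hν hνl _ (compact_shadow h' g hK)
        have f2 : ∀ k : O (i + 1), shadow h (g * hat h' k) K = sh k (shadow h' g K) := fun k =>
          shadow_hat h' h g k K
        simp only [f2]
        refine f1.trans (le_of_eq ?_)
        rw [ENNReal.div_eq_inv_mul, mul_comm (volume (shadow h' g K))⁻¹,
          ENNReal.mul_rpow_of_nonneg _ _ hp0.le]
      have hms : Measurable fun g : O n => ((volume (shadow h' g K))⁻¹) ^ ((i : ℝ) / (i + 1)) :=
        ((meas_shadow h' hK).inv).pow_const _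
      calc ∫⁻ g, (volume (shadow h g K))⁻¹ ∂μ
          = ∫⁻ g, ∫⁻ k, (volume (shadow h (g * hat h' k) K))⁻¹ ∂ν ∂μ := e2
        _ ≤ ∫⁻ g, (volume (Metric.ball (0 : V i) 1))⁻¹ *
            ((volume (Metric.ball (0 : V (i + 1)) 1)) ^ ((i : ℝ) / (i + 1)) *
              ((volume (shadow h' g K))⁻¹) ^ ((i : ℝ) / (i + 1))) ∂μ := lintegral_mono e3
        _ = (volume (Metric.ball (0 : V i) 1))⁻¹ *
            ((volume (Metric.ball (0 : V (i + 1)) 1)) ^ ((i : ℝ) / (i + 1)) *
              ∫⁻ g, ((volume (shadow h' g K))⁻¹) ^ ((i : ℝ) / (i + 1)) ∂μ) := by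
          rw [lintegral_const_mul _ (hms.const_mul _), lintegral_const_mul _ hms]
        _ ≤ (volume (Metric.ball (0 : V i) 1))⁻¹ *
            ((volume (Metric.ball (0 : V (i + 1)) 1)) ^ ((i : ℝ) / (i + 1)) *
              (∫⁻ g, (volume (shadow h' g K))⁻¹ ∂μ) ^ ((i : ℝ) / (i + 1))) := by
          gcongr
          exact jensen μ _ ((meas_shadow h' hK).inv).aemeasurable hp0 hp1
        _ ≤ (volume (Metric.ball (0 : V i) 1))⁻¹ *
            ((volume (Metric.ball (0 : V (i + 1)) 1)) ^ ((i : ℝ) / (i + 1)) *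
              ((volume (Metric.ball (0 : V (i + 1)) 1))⁻¹ *
                (volume (Metric.ball (0 : V n) 1) / volume K) ^ (((i + 1 : ℕ) : ℝ) / n)) ^
                ((i : ℝ) / (i + 1))) := by
          gcongr
        _ = (volume (Metric.ball (0 : V i) 1))⁻¹ *
              (volume (Metric.ball (0 : V n) 1) / volume K) ^ ((i : ℝ) / n) := by
          rw [← ENNReal.mul_rpow_of_nonneg _ _ hp0.le, ← mul_assoc,
            ENNReal.mul_inv_cancel (hκ0 (i + 1)) (hκ1 (i + 1)), one_mul, ← ENNReal.rpow_mul]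
          congr 2
          push_cast
          field_simp
  exact key (n - i) i hi h (by omega)

end Pool.Agent.N492.TM_CHN
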